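import Pool.Agent.H88.OD.Df
import Pool.Agent.H24.PD.Main

/-!
ROW Ex (project MP_78d38b_OD, about 200 lines): the setting exists.

PROOF of noroot. Suppose `r ∈ F` is a root of `f = x^3 + a x + b` (coefficients in `K`). `f` has no root in `K`, so `r ∉ K` and the minimal polynomial of `r` over `K` is `f` (degree 3: it divides `f`; a proper
divisor of degree 1 or 2 would give a root of `f` in `K`). `F / K` is Galois, hence normal: `f` splits in `F`: `x^3 + a x + b = (x - r)(x - r')(x - r'')` with `r', r'' ∈ F`. (Direct way: `x^2 + r x + (r^2 + a)` is the quotient; by normality (`Normal.splits`) the minimal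
polynomial `f` splits, so there is a further root.) `δ := (r - r')(r - r'')(r' - r'') ∈ F` has `δ^2 = -(4 a^3 + 27 b^2)` (identity from `r + r' + r'' = 0`, `r r' + r r'' + r' r'' = a`, `r r' r'' = -b`), which is the image of `Δ := -(4 a^3 + 27 b^2) ∈ K`, not a square in `K`. So `K(δ) / K` has degree two
(`X^2 - Δ` is irreducible over `K`, the minimal polynomial of `δ`), and 2 divides `[F : K]` (tower law; or: `minpoly.degree_dvd` / `minpoly.natDegree_dvd`): contradiction to `hodd`. Also `-(4 a^3 + 27 b^2)` is not a square in `F` (the last argument).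
PROOF of exists_ext. `H24PD.exists_cub` (no root over `F`) gives `L`, `θ`, `h : Cub F L (a) (b) θ`. For `g : F ≃ₐ[K] F` let `i_g : F →+* L := (algebraMap F L).comp g`; `g` fixes the images of `a, b ∈ K`, so `θ` is a root of `x^3 + i_g(a) x + i_g(b)` and
`φ_g := H36MX.rh h i_g _ : L →+* L` (Pool/Agent/H36/MX/Df.lean: rh_apply, rh_algebraMap, rh_theta) satisfies `φ_g (x) = g x` for `x ∈ F`, `φ_g θ = θ`. `φ_g ∘ φ_h = φ_{gh}`, `φ_1 = id`: two ring homomorphisms `L → L` which agree on `F` and at `θ` are equal (every element is `c₀ + c₁ θ + c₂ θ^2`, `h.sp`).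
So `φ_g` is a ring automorphism; as a map of `ℚ`-algebras: `AlgEquiv.ofRingEquiv`-like (every ring homomorphism of fields of characteristic zero is `ℚ`-linear: `RingHom.toRatAlgHom`, or `map_ratCast`). `ρ : g ↦ φ_g` is a monoid homomorphism (ext, `φ_{gh} = φ_g φ_h`).
-/

set_option autoImplicit false
set_option linter.unusedSectionVars false
open scoped Classical

open WithZero NumberField IsDedekindDomain H38RT
open H38T1 (SC sc scu rep eo la si OddP)
open H76PP (Cub LC ev scm dn)

namespace H88OD

lemma Ex_fd (K F : Type) [Field K] [NumberField K] [Field F] [NumberField F] [Algebra K F] :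
    FiniteDimensional K F := Module.Finite.of_restrictScalars_finite ℚ K F

lemma Ex_odd {K F : Type} [Field K] [NumberField K] [Field F] [NumberField F] [Algebra K F]
    (hodd : Odd (Module.finrank K F)) (y : F) : Odd (minpoly K y).natDegree := by
  have _ : FiniteDimensional K F := Ex_fd K F
  obtain ⟨k, hk⟩ := minpoly.degree_dvd (K := K) (L := F) (x := y) (Algebra.IsIntegral.isIntegral y)
  rw [hk, Nat.odd_mul] at hodd
  exact hodd.1

lemma Ex_range {K F : Type} [Field K] [NumberField K] [Field F] [NumberField F] [Algebra K F]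
    (y : F) (h : (minpoly K y).natDegree = 1) : ∃ z : K, algebraMap K F z = y := by
  have _ : FiniteDimensional K F := Ex_fd K F
  have h1 := (minpoly.natDegree_eq_one_iff (A := K) (x := y)).mp h
  exact h1

theorem nosquare_aux {K F : Type} [Field K] [NumberField K] [Field F] [NumberField F] [Algebra K F]
    (hodd : Odd (Module.finrank K F)) {x : K} (hx : ¬ IsSquare x) : ¬ IsSquare (algebraMap K F x) := by
  rintro ⟨y, hy⟩
  have h1 : (Polynomial.aeval y) (Polynomial.X ^ 2 - Polynomial.C x : Polynomial K) = 0 := by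
    simp only [map_sub, map_pow, Polynomial.aeval_X, Polynomial.aeval_C]
    rw [hy]
    ring
  have h2 : (minpoly K y).natDegree ≤ 2 := by
    have h3 := Polynomial.natDegree_le_of_dvd (minpoly.dvd K y h1)
      (Polynomial.X_pow_sub_C_ne_zero (by norm_num) x)
    rwa [Polynomial.natDegree_X_pow_sub_C] at h3
  have h4 := Ex_odd hodd y
  have h5 : (minpoly K y).natDegree = 1 := by
    rcases h4 with ⟨k, hk⟩
    omega
  obtain ⟨z, hz⟩ := Ex_range y h5
  apply hx
  refine ⟨z, ?_⟩
  apply (algebraMap K F).injective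
  rw [map_mul, hz, hy]

lemma Ex_disc {F : Type} [Field F] {r s u a b : F} (h1 : r + s + u = 0)
    (h2 : r * s + r * u + s * u = a) (h3 : r * s * u = -b) :
    -(4 * a ^ 3 + 27 * b ^ 2) = ((r - s) * (r - u) * (s - u)) * ((r - s) * (r - u) * (s - u)) := by
  have hu : u = -r - s := by linear_combination h1
  have hb : b = -(r * s * u) := by linear_combination h3
  subst hu
  rw [hb, ← h2]
  ring

theorem noroot {K F : Type} [Field K] [NumberField K] [Field F] [NumberField F] [Algebra K F]
    [IsGalois K F] (hodd : Odd (Module.finrank K F)) {a b : K}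
    (hir : ∀ t : K, t ^ 3 + a * t + b ≠ 0) (hsq : ¬ IsSquare (-(4 * a ^ 3 + 27 * b ^ 2))) (t : F) :
    t ^ 3 + algebraMap K F a * t + algebraMap K F b ≠ 0 := by
  intro ht
  have _ : FiniteDimensional K F := Ex_fd K F
  have hint : IsIntegral K t := Algebra.IsIntegral.isIntegral t
  have hf3 : (Polynomial.X ^ 3 + Polynomial.C a * Polynomial.X + Polynomial.C b : Polynomial K).natDegree = 3 := by
    compute_degree!
  have hfm : (Polynomial.X ^ 3 + Polynomial.C a * Polynomial.X + Polynomial.C b : Polynomial K).Monic := by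
    monicity!
  set f : Polynomial K := Polynomial.X ^ 3 + Polynomial.C a * Polynomial.X + Polynomial.C b with hf
  have h1 : (Polynomial.aeval t) f = 0 := by
    rw [hf]
    simp only [map_add, map_mul, map_pow, Polynomial.aeval_X, Polynomial.aeval_C]
    exact ht
  have hd := minpoly.dvd K t h1
  have hle : (minpoly K t).natDegree ≤ 3 := by
    have := Polynomial.natDegree_le_of_dvd hd hfm.ne_zero
    rwa [hf3] at this
  have ho := Ex_odd hodd t
  have hn1 : (minpoly K t).natDegree ≠ 1 := by
    intro h
    obtain ⟨z, hz⟩ := Ex_range t h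
    apply hir z
    apply (algebraMap K F).injective
    rw [map_zero, map_add, map_add, map_mul, map_pow, hz]
    exact ht
  have h3 : (minpoly K t).natDegree = 3 := by
    rcases ho with ⟨k, hk⟩
    omega
  have heq : minpoly K t = f := by
    apply (Polynomial.eq_of_monic_of_dvd_of_natDegree_le (minpoly.monic hint) hfm hd _).symm
    rw [h3, hf3]
  have hsp : ((minpoly K t).map (algebraMap K F)).Splits := Normal.splits inferInstance t
  rw [heq] at hsp
  have hfF : (f.map (algebraMap K F)).natDegree = 3 := by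
    rw [hfm.natDegree_map, hf3]
  have hcard : (f.map (algebraMap K F)).roots.card = 3 := by
    rw [← hsp.natDegree_eq_card_roots, hfF]
  obtain ⟨r, s, u, hrs⟩ := Multiset.card_eq_three.mp hcard
  have hev : ∀ x : F, x ^ 3 + algebraMap K F a * x + algebraMap K F b = (x - r) * (x - s) * (x - u) := by
    intro x
    have h := hsp.eval_eq_prod_roots_of_monic (hfm.map _) x
    rw [hrs, hf] at h
    simp only [Polynomial.map_add, Polynomial.map_mul, Polynomial.map_pow, Polynomial.map_X, Polynomial.map_C,
      Polynomial.eval_add, Polynomial.eval_mul, Polynomial.eval_pow, Polynomial.eval_X, Polynomial.eval_C] at h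
    rw [h]
    simp [mul_assoc]
  have e0 := hev 0
  have e1 := hev 1
  have e2 := hev (-1)
  have hs1 : r + s + u = 0 := by
    have : (2 : F) * (r + s + u) = 0 := by linear_combination e1 + e2 - 2 * e0
    simpa using this
  have hs2 : r * s + r * u + s * u = algebraMap K F a := by
    have : (2 : F) * (r * s + r * u + s * u - algebraMap K F a) = 0 := by linear_combination e2 - e1
    have h := (mul_eq_zero.mp this).resolve_left two_ne_zero
    linear_combination h
  have hs3 : r * s * u = -algebraMap K F b := by linear_combination e0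
  have hdisc := Ex_disc hs1 hs2 hs3
  refine nosquare_aux (F := F) hodd hsq ⟨(r - s) * (r - u) * (s - u), ?_⟩
  rw [← hdisc]
  simp only [map_neg, map_add, map_mul, map_pow, map_ofNat]

theorem nosquare {K F : Type} [Field K] [NumberField K] [Field F] [NumberField F] [Algebra K F]
    (hodd : Odd (Module.finrank K F)) {x : K} (hx : ¬ IsSquare x) : ¬ IsSquare (algebraMap K F x) :=
  nosquare_aux hodd hx

lemma Ex_ext {F L : Type} [Field F] [Field L] [Algebra F L] {A B : F} {θ : L} (hc : Cub F L A B θ)
    (φ ψ : L →+* L) (h1 : ∀ x : F, φ (algebraMap F L x) = ψ (algebraMap F L x)) (h2 : φ θ = ψ θ) (y : L) :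
    φ y = ψ y := by
  obtain ⟨c0, c1, c2, rfl⟩ := hc.sp y
  simp only [map_add, map_mul, map_pow, h1, h2]

/-- the extension of `g` which fixes `θ` -/
noncomputable def Ex_phi {K F L : Type} [Field K] [Field F] [Field L] [Algebra K F] [Algebra F L]
    {a b : K} {θ : L} (hc : Cub F L (algebraMap K F a) (algebraMap K F b) θ) (g : F ≃ₐ[K] F) : L →+* L :=
  H36MX.rh hc ((algebraMap F L).comp (g : F →+* F)) (t := θ) (by
    simp only [RingHom.comp_apply, RingHom.coe_coe, AlgEquiv.commutes]
    exact hc.root)

lemma Ex_phi_F {K F L : Type} [Field K] [Field F] [Field L] [Algebra K F] [Algebra F L]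
    {a b : K} {θ : L} (hc : Cub F L (algebraMap K F a) (algebraMap K F b) θ) (g : F ≃ₐ[K] F) (x : F) :
    Ex_phi hc g (algebraMap F L x) = algebraMap F L (g x) := by
  unfold Ex_phi
  rw [H36MX.rh_algebraMap]
  rfl

lemma Ex_phi_theta {K F L : Type} [Field K] [Field F] [Field L] [Algebra K F] [Algebra F L]
    {a b : K} {θ : L} (hc : Cub F L (algebraMap K F a) (algebraMap K F b) θ) (g : F ≃ₐ[K] F) :
    Ex_phi hc g θ = θ := by
  unfold Ex_phi
  rw [H36MX.rh_theta]

lemma Ex_phi_mul {K F L : Type} [Field K] [Field F] [Field L] [Algebra K F] [Algebra F L]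
    {a b : K} {θ : L} (hc : Cub F L (algebraMap K F a) (algebraMap K F b) θ) (g h : F ≃ₐ[K] F) (y : L) :
    Ex_phi hc (g * h) y = Ex_phi hc g (Ex_phi hc h y) := by
  refine Ex_ext hc (Ex_phi hc (g * h)) ((Ex_phi hc g).comp (Ex_phi hc h)) (fun x => ?_) ?_ y
  · rw [RingHom.comp_apply, Ex_phi_F, Ex_phi_F, Ex_phi_F]
    rfl
  · rw [RingHom.comp_apply, Ex_phi_theta, Ex_phi_theta, Ex_phi_theta]

lemma Ex_phi_one {K F L : Type} [Field K] [Field F] [Field L] [Algebra K F] [Algebra F L]
    {a b : K} {θ : L} (hc : Cub F L (algebraMap K F a) (algebraMap K F b) θ) (y : L) :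
    Ex_phi hc (1 : F ≃ₐ[K] F) y = y := by
  refine Ex_ext hc (Ex_phi hc 1) (RingHom.id L) (fun x => ?_) ?_ y
  · rw [Ex_phi_F]
    rfl
  · rw [Ex_phi_theta]
    rfl

/-- the automorphism of `L` over `ℚ` -/
noncomputable def Ex_aut {K F L : Type} [Field K] [Field F] [Field L] [Algebra K F] [Algebra F L]
    [Algebra ℚ L] {a b : K} {θ : L} (hc : Cub F L (algebraMap K F a) (algebraMap K F b) θ) (g : F ≃ₐ[K] F) :
    L ≃ₐ[ℚ] L :=
  { toFun := Ex_phi hc g
    invFun := Ex_phi hc g⁻¹
    left_inv := fun y => by rw [← Ex_phi_mul, inv_mul_cancel, Ex_phi_one]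
    right_inv := fun y => by rw [← Ex_phi_mul, mul_inv_cancel, Ex_phi_one]
    map_mul' := map_mul _
    map_add' := map_add _
    commutes' := fun r => by
      simp }

theorem exists_ext {K F : Type} [Field K] [NumberField K] [Field F] [NumberField F] [Algebra K F]
    [hgal : IsGalois K F] (hodd : Odd (Module.finrank K F)) {a b : K}
    (ha : ∀ v : HeightOneSpectrum (𝓞 K), v.valuation K a ≤ 1)
    (hb : ∀ v : HeightOneSpectrum (𝓞 K), v.valuation K b ≤ 1)
    (hD : 4 * a ^ 3 + 27 * b ^ 2 ≠ 0) (hir : ∀ t : K, t ^ 3 + a * t + b ≠ 0)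
    (hsq : ¬ IsSquare (-(4 * a ^ 3 + 27 * b ^ 2))) :
    ∃ (L : Type) (_ : Field L) (_ : NumberField L) (_ : Algebra F L) (θ : L),
      Nonempty (Ext K F L a b θ) := by
  obtain ⟨L, i1, i2, i3, θ, hc⟩ := H24PD.exists_cub (K := F) (noroot hodd hir hsq)
  refine ⟨L, i1, i2, i3, θ, ⟨?_⟩⟩
  exact
    { cub := hc
      gal := hgal
      odd := hodd
      ha := ha
      hb := hb
      dne := hD
      dsq := hsq
      ρ :=
        { toFun := fun g => Ex_aut hc g
          map_one' := by
            ext y
            exact Ex_phi_one hc y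
          map_mul' := fun g h => by
            ext y
            exact Ex_phi_mul hc g h y }
      ρF := fun g x => Ex_phi_F hc g x
      ρθ := fun g => Ex_phi_theta hc g }

end H88OD
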