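import Pool.Agent.H88.OD.Df
import Pool.Agent.H30.ZO.Ac
import Pool.Agent.H76.PP.Ta

/-!
ROW Rc (project MP_78d38b_OD): ray class pigeonhole in a number field `M`.

PROOF. (1) For every ideal class `k` in the image of the places fix a place `w_k` whose class is `k`. For a place `w` of class `k`: `w.asIdeal` and `w_k.asIdeal` are in the same class, so there is `z_w ∈ M`, `z_w ≠ 0`, with `(z_w) = w · w_k⁻¹` as fractional ideals (`ClassGroup.mk0_eq_mk0_iff`): `z_w` has order `[u = w] - [u = w_k]` at every place `u`.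
(2) The colour: `rc w := (class of w, for u ∈ S the class of sc z_w in SC M ⧸ H30ZO.Sq u, for every real embedding s the sign si s (sc z_w))`.
(3) `w ≠ w'` with `rc w = rc w'`: `z := z_w / z_{w'}`.
-/

set_option autoImplicit false
set_option linter.unusedSectionVars false
open scoped Classical

open WithZero NumberField IsDedekindDomain H38RT
open H38T1 (SC sc scu rep eo la si OddP)
open H76PP (Cub LC ev scm dn)

namespace H88OD

section Aux

variable {M : Type} [Field M] [NumberField M]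

theorem Rc_mult (u w : HeightOneSpectrum (𝓞 M)) :
    multiplicity u.asIdeal w.asIdeal = if u = w then 1 else 0 := by
  split_ifs with h
  · subst h
    have hp : Prime u.asIdeal := u.prime
    have h1 := multiplicity_self (a := u.asIdeal)
    exact h1
  · apply multiplicity_eq_zero.2
    intro hd
    apply h
    have h1 : w.asIdeal ≤ u.asIdeal := Ideal.dvd_iff_le.1 hd
    have h2 : w.asIdeal.IsMaximal := w.isMaximal
    have h3 := h2.eq_of_le u.isPrime.ne_top h1
    exact (HeightOneSpectrum.ext h3).symm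

theorem Rc_ord_int (u : HeightOneSpectrum (𝓞 M)) {x : 𝓞 M} (hx : x ≠ 0) :
    ord (u.valuation M) (algebraMap (𝓞 M) M x) =
      (multiplicity u.asIdeal (Ideal.span {x}) : ℤ) := by
  unfold ord
  rw [u.valuation_of_algebraMap, u.intValuation_eq_exp_neg_multiplicity hx, log_exp, neg_neg]

/-- The class of a place. -/
noncomputable def Rc_cls (w : HeightOneSpectrum (𝓞 M)) : ClassGroup (𝓞 M) :=
  ClassGroup.mk0 ⟨w.asIdeal, mem_nonZeroDivisors_of_ne_zero w.ne_bot⟩

theorem Rc_ord_div (V : Valuation M (WithZero (Multiplicative ℤ))) {x y : M} (hx : x ≠ 0)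
    (hy : y ≠ 0) : ord V (x / y) = ord V x - ord V y := by
  have h := ord_mul (V := V) (div_ne_zero hx hy) hy
  rw [div_mul_cancel₀ _ hy] at h
  rw [h]
  ring

theorem Rc_val_one (V : Valuation M (WithZero (Multiplicative ℤ))) {x : M} (hx : x ≠ 0)
    (h : ord V x = 0) : V x = 1 := by
  have h0 : V x ≠ 0 := (Valuation.ne_zero_iff _).2 hx
  rw [← exp_log h0]
  unfold ord at h
  have h1 : log (V x) = 0 := by omega
  rw [h1, exp_zero]

theorem Rc_z (w w0 : HeightOneSpectrum (𝓞 M)) (h : Rc_cls w = Rc_cls w0) :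
    ∃ z : M, z ≠ 0 ∧ ∀ u : HeightOneSpectrum (𝓞 M), ord (u.valuation M) z =
      (if u = w then 1 else 0) - (if u = w0 then 1 else 0) := by
  obtain ⟨x, y, hx, hy, hxy⟩ := ClassGroup.mk0_eq_mk0_iff.1 h
  have hxy' : Ideal.span {x} * w.asIdeal = Ideal.span {y} * w0.asIdeal := hxy
  have hxM : algebraMap (𝓞 M) M x ≠ 0 := RingOfIntegers.coe_ne_zero_iff.2 hx
  have hyM : algebraMap (𝓞 M) M y ≠ 0 := RingOfIntegers.coe_ne_zero_iff.2 hy
  refine ⟨algebraMap (𝓞 M) M y / algebraMap (𝓞 M) M x, div_ne_zero hyM hxM, fun u => ?_⟩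
  rw [Rc_ord_div _ hyM hxM, Rc_ord_int u hy, Rc_ord_int u hx]
  have hp : Prime u.asIdeal := u.prime
  have hx0 : Ideal.span {x} ≠ (0 : Ideal (𝓞 M)) := by
    rw [Ideal.zero_eq_bot, Ne, Ideal.span_singleton_eq_bot]; exact hx
  have hy0 : Ideal.span {y} ≠ (0 : Ideal (𝓞 M)) := by
    rw [Ideal.zero_eq_bot, Ne, Ideal.span_singleton_eq_bot]; exact hy
  have h1 := congrArg (multiplicity u.asIdeal) hxy'
  rw [multiplicity_mul hp (FiniteMultiplicity.of_prime_left hp (mul_ne_zero hx0 w.ne_bot)),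
    multiplicity_mul hp (FiniteMultiplicity.of_prime_left hp (mul_ne_zero hy0 w0.ne_bot)),
    Rc_mult, Rc_mult] at h1
  have h2 : ((multiplicity u.asIdeal (Ideal.span {x}) : ℤ)) + ((if u = w then 1 else 0 : ℕ) : ℤ) =
    (multiplicity u.asIdeal (Ideal.span {y}) : ℤ) + ((if u = w0 then 1 else 0 : ℕ) : ℤ) := by
    exact_mod_cast h1
  push_cast at h2
  linarith

end Aux

theorem exists_rc (M : Type) [Field M] [NumberField M] (S : Finset (HeightOneSpectrum (𝓞 M))) :
    ∃ (C : Type) (_ : Finite C) (rc : HeightOneSpectrum (𝓞 M) → C),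
      ∀ w w', w ∉ S → w' ∉ S → w ≠ w' → rc w = rc w' →
        ∃ z : M, Ray M (S : Set (HeightOneSpectrum (𝓞 M))) w w' z := by
  let sec : Set.range (Rc_cls (M := M)) → HeightOneSpectrum (𝓞 M) := fun k => k.2.choose
  have hsec : ∀ k, Rc_cls (sec k) = k.1 := fun k => k.2.choose_spec
  let sw0 : HeightOneSpectrum (𝓞 M) → HeightOneSpectrum (𝓞 M) := fun w => sec ⟨Rc_cls w, w, rfl⟩
  have hsw0 : ∀ w, Rc_cls w = Rc_cls (sw0 w) := fun w => (hsec ⟨Rc_cls w, w, rfl⟩).symm
  have hsw1 : ∀ w w', Rc_cls w = Rc_cls w' → sw0 w = sw0 w' := by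
    intro w w' h
    change sec _ = sec _
    congr 1
    exact Subtype.ext h
  choose z hz0 hz using fun w => Rc_z w (sw0 w) (hsw0 w)
  have hfin : ∀ u : HeightOneSpectrum (𝓞 M), Finite (SC M ⧸ H30ZO.Sq u) := by
    intro u
    have h1 : (H30ZO.Sq u).index ≠ 0 := by
      rw [H30ZO.index_Sq]
      have h2 : 0 < H30ZO.qq u := by
        unfold H30ZO.qq
        apply pow_pos
        have h3 : Ideal.absNorm u.asIdeal ≠ 0 := by
          rw [Ne, Ideal.absNorm_eq_zero_iff]
          exact u.ne_bot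
        exact Nat.pos_of_ne_zero h3
      omega
    have : (H30ZO.Sq u).FiniteIndex := ⟨h1⟩
    infer_instance
  have hf : ∀ u : S, Finite (SC M ⧸ H30ZO.Sq u.1) := fun u => hfin u.1
  refine ⟨ClassGroup (𝓞 M) × ((u : S) → SC M ⧸ H30ZO.Sq u.1) × ((M →+* ℝ) → ZMod 2),
    inferInstance, fun w => (Rc_cls w, fun u => QuotientAddGroup.mk (sc (z w)),
      fun s => si s (sc (z w))), ?_⟩
  intro w w' _ _ hne heq
  simp only [Prod.mk.injEq] at heq
  obtain ⟨hc, hs, hr⟩ := heq
  have hww := hsw1 w w' hc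
  have hdz : z w / z w' ≠ 0 := div_ne_zero (hz0 w) (hz0 w')
  have hord : ∀ u : HeightOneSpectrum (𝓞 M), ord (u.valuation M) (z w / z w') =
      (if u = w then 1 else 0) - (if u = w' then 1 else 0) := by
    intro u
    rw [Rc_ord_div _ (hz0 w) (hz0 w'), hz w u, hz w' u, hww]
    ring
  refine ⟨z w / z w', hdz, ?_, ?_, ?_, ?_, ?_⟩
  · rw [hord, if_pos rfl, if_neg hne, sub_zero]
  · rw [hord, if_pos rfl, if_neg hne.symm, zero_sub]
  · intro u h1 h2
    refine Rc_val_one _ hdz ?_
    rw [hord, if_neg h1, if_neg h2, sub_zero]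
  · intro u hu
    rw [← H30ZO.mem_Sq hdz]
    have h1 := congrFun hs ⟨u, Finset.mem_coe.1 hu⟩
    have h2 := (QuotientAddGroup.eq).1 h1
    have h3 : sc (z w / z w') + sc (z w') = sc (z w) := by
      rw [← H38T1.sc_mul hdz (hz0 w'), div_mul_cancel₀ _ (hz0 w')]
    have h4 : sc (z w / z w') = - (-sc (z w) + sc (z w')) := by
      rw [← h3]; abel
    rw [h4]
    exact neg_mem h2
  · intro s
    have h1 := congrFun hr s
    simp only [H38T1.si_sc s (hz0 w), H38T1.si_sc s (hz0 w')] at h1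
    have h2 : s (z w) ≠ 0 := (map_ne_zero s).2 (hz0 w)
    have h3 : s (z w') ≠ 0 := (map_ne_zero s).2 (hz0 w')
    rw [map_div₀]
    unfold H38RT.sw at h1
    by_cases h4 : s (z w) < 0
    · by_cases h5 : s (z w') < 0
      · exact div_pos_of_neg_of_neg h4 h5
      · rw [if_pos h4, if_neg h5] at h1
        exact absurd h1 (by decide)
    · by_cases h5 : s (z w') < 0
      · rw [if_neg h4, if_pos h5] at h1
        exact absurd h1 (by decide)
      · exact div_pos (lt_of_le_of_ne (not_lt.1 h4) h2.symm)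
          (lt_of_le_of_ne (not_lt.1 h5) h3.symm)

/-- The set of places of `L` above a finite set of places of `K` is finite. -/
theorem fin_above {K F L : Type} [Field K] [NumberField K] [Field F] [NumberField F] [Field L]
    [NumberField L] [Algebra K F] [Algebra F L] (Sg : Finset (HeightOneSpectrum (𝓞 K))) :
    {w : HeightOneSpectrum (𝓞 L) | dn K (dn F w) ∈ Sg}.Finite := by
  have h1 : {w : HeightOneSpectrum (𝓞 L) | dn K (dn F w) ∈ Sg} ⊆
      ⋃ v ∈ (Sg : Set (HeightOneSpectrum (𝓞 K))),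
        ⋃ u ∈ {u : HeightOneSpectrum (𝓞 F) | dn K u = v},
          {w : HeightOneSpectrum (𝓞 L) | dn F w = u} := by
    intro w hw
    simp only [Set.mem_iUnion]
    exact ⟨dn K (dn F w), hw, dn F w, rfl, rfl⟩
  refine Set.Finite.subset ?_ h1
  refine Set.Finite.biUnion Sg.finite_toSet fun v _ => ?_
  refine Set.Finite.biUnion (H76PP.fin_above v) fun u _ => ?_
  exact H76PP.fin_above u

/-- Two places with different primes below, with equal colour, for `Set` valued `S`. -/
theorem exists_rcS (M : Type) [Field M] [NumberField M] {S : Set (HeightOneSpectrum (𝓞 M))}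
    (hS : S.Finite) :
    ∃ (C : Type) (_ : Finite C) (rc : HeightOneSpectrum (𝓞 M) → C),
      ∀ w w', w ∉ S → w' ∉ S → w ≠ w' → rc w = rc w' → ∃ z : M, Ray M S w w' z := by
  obtain ⟨C, hC, rc, h⟩ := exists_rc M hS.toFinset
  refine ⟨C, hC, rc, fun w w' h1 h2 h3 h4 => ?_⟩
  obtain ⟨z, hz⟩ := h w w' (fun h => h1 (hS.mem_toFinset.1 h)) (fun h => h2 (hS.mem_toFinset.1 h))
    h3 h4
  rw [hS.coe_toFinset] at hz
  exact ⟨z, hz⟩

end H88OD
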