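import Pool.Agent.H88.OD.Lp
import Pool.Agent.H88.OD.Ex
import Pool.Agent.H30.OD.Od3
import Pool.Agent.H30.ZO.Je
import Pool.Agent.H30.ZO.Tv
import Pool.Agent.H24.PD.Main

/-!
Project MP_78d38b_OD: from the Selmer group over `F` to the groups of points and the Tate-Shafarevich groups over the
fields between `K` and `F`.
-/

set_option autoImplicit false
set_option linter.unusedSectionVars false
open scoped Classical

open WithZero NumberField IsDedekindDomain H38RT
open H38T1 (SC sc scu rep eo la si OddP)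
open H76PP (Cub LC ev scm dn SelTriv Tf_twist)
open H30ZO (Tv Wc)

namespace H88OD

/-- The cubic polynomial of a cubic field has no root in the ground field. -/
theorem Cub_noroot {k L : Type} [Field k] [Field L] [Algebra k L] {a b : k} {θ : L}
    (h : Cub k L a b θ) (t : k) : t ^ 3 + a * t + b ≠ 0 := by
  intro h0
  have h1 : (θ - algebraMap k L t) *
      (θ ^ 2 + algebraMap k L t * θ + algebraMap k L (t ^ 2 + a)) = 0 := by
    have h2 := congrArg (algebraMap k L) h0
    simp only [map_add, map_mul, map_pow, map_zero] at h2 ⊢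
    linear_combination h.root - h2
  rcases mul_eq_zero.1 h1 with h2 | h2
  · have h3 := (h.li (-t) 1 0 (by
      rw [map_neg, map_one, map_zero]
      linear_combination h2)).2.1
    exact one_ne_zero h3
  · have h3 := (h.li (t ^ 2 + a) t 1 (by
      rw [map_one]
      linear_combination h2)).2.2
    exact one_ne_zero h3

variable {K F L : Type} [Field K] [NumberField K] [Field F] [NumberField F] [Field L]
  [NumberField L] [Algebra K F] [Algebra F L] {a b : K} {θ : L}

theorem Ext.cubD (S : Ext K F L a b θ) {D : K} (hD : D ≠ 0) :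
    Cub F L (algebraMap K F (D ^ 2 * a)) (algebraMap K F (D ^ 3 * b))
      (algebraMap F L (algebraMap K F D) * θ) := by
  have h := Tf_twist S.cub (D := algebraMap K F D) ((map_ne_zero _).2 hD)
  rw [map_mul, map_mul, map_pow, map_pow]
  exact h

/-- The Selmer group over `F`. -/
theorem sel_of_V (S : Ext K F L a b θ) {D : K} (h : ∀ c, S.V D c → c = 0) :
    SelTriv F L (algebraMap K F (D ^ 2 * a)) (algebraMap K F (D ^ 3 * b))
      (algebraMap F L (algebraMap K F D) * θ) := by
  intro d hd hN hf hr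
  have h1 : sc (ev (algebraMap F L (algebraMap K F D) * θ) d) = 0 := by
    refine h _ ⟨?_, fun v => ?_, fun s => ?_⟩
    · rw [H30ZO.mem_HH hd]
      exact hN
    · exact ⟨d, hd, rfl, hf v⟩
    · exact ⟨d, hd, rfl, hr s⟩
  exact (H38T1.sc_eq_zero hd).1 h1

/-- **From the Selmer group over `F` to the fields between `K` and `F`.** -/
theorem tv_between (S : Ext K F L a b θ) {D : K} (hD : D ≠ 0) (h : ∀ c, S.V D c → c = 0)
    (M : Type) [Field M] [NumberField M] [Algebra K M] [Algebra M F] [IsScalarTower K M F] :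
    Tv M (algebraMap K M (D ^ 2 * a)) (algebraMap K M (D ^ 3 * b)) := by
  have hgal := S.gal
  have hfd : FiniteDimensional K F := Module.Finite.of_restrictScalars_finite ℚ K F
  have hfdM : FiniteDimensional K M := Module.Finite.of_restrictScalars_finite ℚ K M
  have hfdF : FiniteDimensional M F := Module.Finite.of_restrictScalars_finite ℚ M F
  have hgalM : IsGalois M F := IsGalois.tower_top_of_isGalois K M F
  have hoddM : Odd (Module.finrank M F) := by
    have h1 := S.odd
    rw [← Module.finrank_mul_finrank K M F] at h1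
    exact (Nat.odd_mul.1 h1).2
  have hir : ∀ t : M, t ^ 3 + algebraMap K M (D ^ 2 * a) * t + algebraMap K M (D ^ 3 * b) ≠ 0 := by
    intro t h0
    apply Cub_noroot (S.cubD hD) (algebraMap M F t)
    have h1 := congrArg (algebraMap M F) h0
    rw [map_add, map_add, map_mul, map_pow, map_zero, ← IsScalarTower.algebraMap_apply,
      ← IsScalarTower.algebraMap_apply] at h1
    exact h1
  obtain ⟨L0, _, _, _, θ0, h0⟩ := H24PD.exists_cub hir
  have hsel : SelTriv M L0 (algebraMap K M (D ^ 2 * a)) (algebraMap K M (D ^ 3 * b)) θ0 := by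
    have hc : Cub F L (algebraMap M F (algebraMap K M (D ^ 2 * a)))
        (algebraMap M F (algebraMap K M (D ^ 3 * b))) (algebraMap F L (algebraMap K F D) * θ) := by
      rw [← IsScalarTower.algebraMap_apply, ← IsScalarTower.algebraMap_apply]
      exact S.cubD hD
    refine H30OD.selTriv_down hgalM hoddM h0 hc ?_
    rw [← IsScalarTower.algebraMap_apply, ← IsScalarTower.algebraMap_apply]
    exact sel_of_V S h
  obtain ⟨h1, h2⟩ := H24PD.descent h0 hsel
  exact ⟨h1, H30ZO.tors_of_noroot hir, h2⟩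

/-- The start of the loop. -/
theorem fix_zero (S : Ext K F L a b θ) {D : K} (hD : D ≠ 0) (h : Tv K (D ^ 2 * a) (D ^ 3 * b)) :
    ∀ c, S.V D c → (∀ g : F ≃ₐ[K] F, S.ρ g • c = c) → c = 0 := by
  intro c hc hfix
  have hD4 : 4 * (D ^ 2 * a) ^ 3 + 27 * (D ^ 3 * b) ^ 2 ≠ 0 := by
    have e : 4 * (D ^ 2 * a) ^ 3 + 27 * (D ^ 3 * b) ^ 2 = D ^ 6 * (4 * a ^ 3 + 27 * b ^ 2) := by
      ring
    rw [e]
    exact mul_ne_zero (pow_ne_zero 6 hD) S.dne
  have hnr := h.noroot hD4
  have hir : ∀ t : K, t ^ 3 + a * t + b ≠ 0 := by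
    intro t h0
    apply hnr (D * t)
    linear_combination D ^ 3 * h0
  obtain ⟨L0, _, _, _, θ0, h0⟩ := H24PD.exists_cub hir
  have h1 := Tf_twist h0 hD
  exact H30OD.V_fix S h0 hD (H30ZO.selTriv_of_sha h1 h.1 h.2.1 h.2.2) hc hfix

/-- A finite set of bad primes. -/
theorem exists_ok (S : Ext K F L a b θ) {D : K} (hD : D ≠ 0)
    (Sg : Finset (HeightOneSpectrum (𝓞 K))) :
    ∃ Sg' : Finset (HeightOneSpectrum (𝓞 K)), Sg ⊆ Sg' ∧ S.Ok D Sg' := by
  have h1 : ∀ x : K, x ≠ 0 → {v : HeightOneSpectrum (𝓞 K) | v.valuation K x ≠ 1}.Finite := by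
    intro x hx
    obtain ⟨α, β, hβ, hxy⟩ := IsFractionRing.div_surjective (A := 𝓞 K) x
    have hβ0 : β ≠ 0 := nonZeroDivisors.ne_zero hβ
    have hα0 : α ≠ 0 := by
      rintro rfl
      apply hx
      rw [← hxy, map_zero, zero_div]
    refine ((H30MQ.fin_mem hα0).union (H30MQ.fin_mem hβ0)).subset fun v hv => ?_
    by_contra h
    rw [Set.mem_union, not_or] at h
    apply hv
    rw [← hxy, map_div₀, v.valuation_eq_one_iff_notMem.mpr h.1, v.valuation_eq_one_iff_notMem.mpr h.2,
      div_one]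
  refine ⟨Sg ∪ ((h1 2 two_ne_zero).toFinset ∪ ((h1 _ S.dne).toFinset ∪ (h1 D hD).toFinset)),
    Finset.subset_union_left, ⟨hD, fun v hv => ?_, fun v hv => ?_, fun v hv => ?_⟩⟩
  all_goals
    simp only [Finset.mem_union, Set.Finite.mem_toFinset, Set.mem_setOf_eq, not_or, not_not] at hv
  · exact hv.2.1
  · exact hv.2.2.1
  · exact hv.2.2.2

/-- **The main theorem with the input from linear algebra.** -/
theorem core (S : Ext K F L a b θ) {Inv : AddSubgroup (SC L) → Prop} (hex : HasEta S Inv)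
    {D0 : K} (hD0 : D0 ≠ 0) (hT : Tv K (D0 ^ 2 * a) (D0 ^ 3 * b))
    (hI : ∀ V : AddSubgroup (SC L), (∀ c, c ∈ V ↔ S.V D0 c) → Inv V)
    (Sg X : Finset (HeightOneSpectrum (𝓞 K))) :
    ∃ D : K, Rel K Sg D0 D ∧ (∀ c, S.V D c → c = 0) ∧
      ∃ q : HeightOneSpectrum (𝓞 K), q ∉ X ∧ Odd (ord (q.valuation K) D) := by
  obtain ⟨Sg', hle, hok⟩ := exists_ok S hD0 Sg
  obtain ⟨D, h1, h2, h3⟩ := loop S hex hok (fix_zero S hD0 hT) hI X
  exact ⟨D, ⟨h1.n0, h1.n1, fun v hv => h1.sq v (hle hv), h1.pos⟩, h2, h3⟩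

end H88OD
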