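import Pool.Agent.H88.OD.Gg

/-!
ROW Lp (project MP_78d38b_OD, about 150 lines): the loop.  Use the STATEMENTS of Gg, Gb, Ga.

rel_step: `D0 * ε * δ`: `ε δ`; the places `Sg0 ⊆ Sg`; squares and positive elements are multiplicative.
PROOF of loop_aux: strong induction on `n = Nat.card V`, `V` the group of `S.V D` (exists_VG; finite by fin_V). If `V = ⊥`: done. Otherwise hex for `V` (stable: V_smul; `V^G = 0`: h0; Inv) gives `φ, η`; exists_step gives `q, q', δ` with `S.V (D δ) c ↔ S.V D c ∧ S.el φ c = 0`: the new group `V'` is contained in `V`, `V' ≠ V` because there is `c ∈ V` with `S.el φ c = η ≠ 0`; so its cardinality is smaller; `h0` and `Inv V'` hold again (last part of hex); `S.Ok (D δ) (insert q (insert q' Sg))` from `StepD.ok`, `Rel` by rel_step.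
PROOF of loop: loop_aux with `D = D0` (`ε = 1`), then exists_same with `X ∪ Sg` in place of `X`: `q ∉ X`, `q ∉ Sg` with `ord q (D δ) = ord q D + 1 = 1` (`S.Ok.val`: `D` is a unit at `q ∉ Sg`; `Ray.o1`), `S.V (D δ) c ↔ S.V D c`.
infinite: suppose that `{sc D | P D}` is finite. For every `D` the set of `q` with `eo q (sc D) ≠ 0` is finite (fin_supp in Ch.lean), so the union `X` is finite; `h X` gives `D` with `P D` and `q ∉ X` with `ord q D` odd, i.e. `eo q (sc D) = 1` (`H38T1.eo_sc`), a contradiction.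
-/

set_option autoImplicit false
set_option linter.unusedSectionVars false
open scoped Classical

open WithZero NumberField IsDedekindDomain H38RT
open H38T1 (SC sc scu rep eo la si OddP)
open H76PP (Cub LC ev scm dn)

namespace H88OD

variable {K F L : Type} [Field K] [NumberField K] [Field F] [NumberField F] [Field L]
  [NumberField L] [Algebra K F] [Algebra F L] {a b : K} {θ : L}

/-- The quotient of `D` and `D0` is a square at the places of `Sg` and positive at the real places. -/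
structure Rel (K : Type) [Field K] [NumberField K] (Sg : Finset (HeightOneSpectrum (𝓞 K)))
    (D0 D : K) : Prop where
  n0 : D0 ≠ 0
  n1 : D ≠ 0
  sq : ∀ v ∈ Sg, IsSquare (algebraMap K (v.adicCompletion K) (D / D0))
  pos : ∀ s : K →+* ℝ, 0 < s (D / D0)

theorem rel_step {Sg0 Sg : Finset (HeightOneSpectrum (𝓞 K))} (hle : Sg0 ⊆ Sg) {D0 D : K}
    (h : Rel K Sg0 D0 D) {q q' : HeightOneSpectrum (𝓞 K)} {δ : K}
    (hδ : Ray K (Sg : Set (HeightOneSpectrum (𝓞 K))) q q' δ) : Rel K Sg0 D0 (D * δ) := by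
  have e : D * δ / D0 = D / D0 * δ := by
    rw [mul_div_right_comm]
  refine ⟨h.n0, mul_ne_zero h.n1 hδ.ne, fun v hv => ?_, fun s => ?_⟩
  · rw [e, map_mul]
    exact (h.sq v hv).mul (hδ.sq v (Finset.mem_coe.2 (hle hv)))
  · rw [e, map_mul]
    exact mul_pos (h.pos s) (hδ.pos s)

/-- The input from linear algebra. -/
def HasEta (S : Ext K F L a b θ) (Inv : AddSubgroup (SC L) → Prop) : Prop :=
  ∀ V : AddSubgroup (SC L), Finite V → (∀ (g : F ≃ₐ[K] F), ∀ c ∈ V, S.ρ g • c ∈ V) →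
    (∀ c ∈ V, (∀ g : F ≃ₐ[K] F, S.ρ g • c = c) → c = 0) → Inv V → V ≠ ⊥ →
    ∃ (φ : SC L →+ ZMod 2) (η : RG (F ≃ₐ[K] F)), st η = η ∧ η * η = η ∧ η ≠ 0 ∧
      e0 (F ≃ₐ[K] F) * η = 0 ∧ (∀ c ∈ V, S.el φ c * η = S.el φ c) ∧ (∃ c ∈ V, S.el φ c = η) ∧
      ∀ V' : AddSubgroup (SC L), (∀ c, c ∈ V' ↔ c ∈ V ∧ S.el φ c = 0) → Inv V'

theorem loop_aux (S : Ext K F L a b θ) {Inv : AddSubgroup (SC L) → Prop} (hex : HasEta S Inv)
    {D0 : K} {Sg0 : Finset (HeightOneSpectrum (𝓞 K))} (n : ℕ) :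
    ∀ (D : K) (Sg : Finset (HeightOneSpectrum (𝓞 K))) (V : AddSubgroup (SC L)), S.Ok D Sg →
      Sg0 ⊆ Sg → Rel K Sg0 D0 D → (∀ c, c ∈ V ↔ S.V D c) → Nat.card V = n →
      (∀ c ∈ V, (∀ g : F ≃ₐ[K] F, S.ρ g • c = c) → c = 0) → Inv V →
      ∃ (D' : K) (Sg' : Finset (HeightOneSpectrum (𝓞 K))), S.Ok D' Sg' ∧ Sg0 ⊆ Sg' ∧
        Rel K Sg0 D0 D' ∧ ∀ c, S.V D' c → c = 0 := by
  induction n using Nat.strong_induction_on with
  | _ n ih =>
    intro D Sg V hok hle hrel hV hn h0 hI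
    by_cases hbot : V = ⊥
    · refine ⟨D, Sg, hok, hle, hrel, fun c hc => ?_⟩
      have h1 := (hV c).2 hc
      rw [hbot] at h1
      exact AddSubgroup.mem_bot.1 h1
    have hfin : (V : Set (SC L)).Finite := (fin_V S hok.ne).subset fun c hc => (hV c).1 hc
    have hfinV : Finite V := hfin.to_subtype
    obtain ⟨φ, η, h1, h2, h3, h4, h5, ⟨c0, hc0, hc0'⟩, h7⟩ := hex V hfinV
      (fun g c hc => (hV _).2 (V_smul S g ((hV c).1 hc))) h0 hI hbot
    obtain ⟨q, q', δ, -, -, hst, hiff⟩ := exists_step hok φ h1 h2 h4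
      (fun c hc => h5 c ((hV c).2 hc)) ⟨c0, (hV c0).1 hc0, hc0'⟩ ∅
    obtain ⟨W, hW⟩ := exists_VG S hst.ok.ne
    have hW' : ∀ c, c ∈ W ↔ c ∈ V ∧ S.el φ c = 0 := fun c => by rw [hW, hiff, hV]
    have hlt : Nat.card W < n := by
      have h8 : (W : Set (SC L)) ⊂ (V : Set (SC L)) := by
        refine ⟨fun c hc => ((hW' c).1 hc).1, fun hcon => ?_⟩
        have h9 := ((hW' c0).1 (hcon hc0)).2
        exact h3 (hc0'.symm.trans h9)
      have h9 := Set.ncard_lt_ncard h8 hfin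
      rw [← hn]
      exact h9
    exact ih (Nat.card W) hlt (D * δ) (insert q (insert q' Sg)) W hst.ok
      (hle.trans ((Finset.subset_insert _ _).trans (Finset.subset_insert _ _)))
      (rel_step hle hrel hst.ray) hW rfl (fun c hc => h0 c ((hW' c).1 hc).1) (h7 W hW')

theorem loop (S : Ext K F L a b θ) {Inv : AddSubgroup (SC L) → Prop} (hex : HasEta S Inv)
    {D0 : K} {Sg0 : Finset (HeightOneSpectrum (𝓞 K))} (hok : S.Ok D0 Sg0)
    (h0 : ∀ c, S.V D0 c → (∀ g : F ≃ₐ[K] F, S.ρ g • c = c) → c = 0)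
    (hI : ∀ V : AddSubgroup (SC L), (∀ c, c ∈ V ↔ S.V D0 c) → Inv V)
    (X : Finset (HeightOneSpectrum (𝓞 K))) :
    ∃ D : K, Rel K Sg0 D0 D ∧ (∀ c, S.V D c → c = 0) ∧
      ∃ q : HeightOneSpectrum (𝓞 K), q ∉ X ∧ Odd (ord (q.valuation K) D) := by
  obtain ⟨W, hW⟩ := exists_VG S hok.ne
  have hrefl : Rel K Sg0 D0 D0 := by
    refine ⟨hok.ne, hok.ne, fun v _ => ?_, fun s => ?_⟩
    · rw [div_self hok.ne, map_one]
      exact ⟨1, (mul_one 1).symm⟩
    · rw [div_self hok.ne, map_one]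
      exact one_pos
  obtain ⟨D, Sg, hokD, hle, hrel, htriv⟩ := loop_aux S hex (Nat.card W) D0 Sg0 W hok
    (Finset.Subset.refl _) hrefl hW rfl (fun c hc => h0 c ((hW c).1 hc)) (hI W hW)
  obtain ⟨q, q', δ, hq, -, hst, hiff⟩ := exists_same hokD (X ∪ Sg)
  rw [Finset.mem_union, not_or] at hq
  refine ⟨D * δ, rel_step hle hrel hst.ray, fun c hc => htriv c ((hiff c).1 hc), q, hq.1, ?_⟩
  have h1 : ord (q.valuation K) D = 0 := by
    unfold ord
    rw [hokD.val q hq.2, log_one, neg_zero]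
  rw [ord_mul hokD.ne hst.ray.ne, h1, hst.ray.o1, zero_add]
  exact odd_one

/-- Infinitely many square classes. -/
theorem infinite {P : K → Prop} (hP : ∀ D, P D → D ≠ 0)
    (h : ∀ X : Finset (HeightOneSpectrum (𝓞 K)), ∃ D : K, P D ∧
      ∃ q : HeightOneSpectrum (𝓞 K), q ∉ X ∧ Odd (ord (q.valuation K) D)) :
    {s : SC K | ∃ D, P D ∧ sc D = s}.Infinite := by
  intro hfin
  have hT : (⋃ s ∈ {s : SC K | ∃ D, P D ∧ sc D = s},
      {w : HeightOneSpectrum (𝓞 K) | eo w s ≠ 0}).Finite := hfin.biUnion fun s _ => fin_supp s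
  obtain ⟨D, hD, q, hq, m, hm⟩ := h hT.toFinset
  apply hq
  rw [Set.Finite.mem_toFinset]
  refine Set.mem_biUnion (show sc D ∈ {s : SC K | ∃ D, P D ∧ sc D = s} from ⟨D, hD, rfl⟩) ?_
  change eo q (sc D) ≠ 0
  rw [H38T1.eo_sc (hP D hD), hm]
  have h2 : (2 : ZMod 2) = 0 := rfl
  push_cast
  rw [h2, zero_mul, zero_add]
  exact one_ne_zero

end H88OD
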