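import Pool.Agent.H88.OD.Hc
import Pool.Agent.H88.OD.Lp
import Pool.Agent.H88.OD.Fa

/-!
ROW Hd (project MP_78d38b_OD, about 150 lines): if the two-Selmer group over `K` has order `4 ^ k`, some twist has trivial two-Selmer group (`F = K`).  Use the STATEMENTS of Hc, Lp, Fa, Gb.

exists_two: `V` is a finite group with `x + x = 0` and at least four elements: choose `x ≠ 0`, `x' ∉ {0, x}` in `V`; `SC L` is a `ZMod 2`-vector space, `x, x'` are linearly independent, so there are functionals `φ1, φ2` with `φ1 x = 1, φ1 x' = 0, φ2 x = 0, φ2 x' = 1` (extend to a basis, or `Submodule.exists_le_ker_of_notMem` twice). The subgroup `{c ∈ V | φ1 c = φ2 c = 0}` has index four in `V` (kernel of `V → ZMod 2 × ZMod 2`, onto).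
relT: `Rel K Sg0 D0 D → Rel K Sg0 D0 (D * ε)` for `RayT K Sg T ε`, `Sg0 ⊆ Sg`.
even_aux: induction on `k`: `k = 0`: `V = 0`. Step: exists_two, step_even: the new group has `4 ^ k` elements.
even_loop: exists_ok and even_aux with `D = D0`. tv_even: `S := ` the setting over `K` itself: exists_ext with `F = K` (`IsGalois K K`, `Module.finrank K K = 1`), or the given `S`; `V` trivial gives `Tv` by tv_between with `M = K`, `F = K`.
-/

set_option autoImplicit false
set_option linter.unusedSectionVars false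
open scoped Classical

open WithZero NumberField IsDedekindDomain H38RT
open H38T1 (SC sc scu rep eo la si OddP)
open H76PP (Cub LC ev scm dn)
open H30ZO (Tv Wc)

namespace H88OD

variable {K L : Type} [Field K] [NumberField K] [Field L]
  [NumberField L] [Algebra K L] {a b : K} {θ : L}

theorem exists_two {A : Type} [AddCommGroup A] (h2 : ∀ x : A, x + x = 0) (V : AddSubgroup A)
    (hV : 4 ≤ Nat.card V) :
    ∃ φ1 φ2 : A →+ ZMod 2, (∃ x ∈ V, φ1 x = 1 ∧ φ2 x = 0) ∧ (∃ x ∈ V, φ1 x = 0 ∧ φ2 x = 1) ∧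
      ∀ V' : AddSubgroup A, (∀ c, c ∈ V' ↔ c ∈ V ∧ φ1 c = 0 ∧ φ2 c = 0) →
        Nat.card V = 4 * Nat.card V' := by
  let _ : Module (ZMod 2) A := AddCommGroup.zmodModule (fun x => by rw [two_nsmul]; exact h2 x)
  have hfin : Finite V := Nat.finite_of_card_ne_zero (by omega)
  have z1 : ∀ c : ZMod 2, c = 0 ∨ c = 1 := by decide
  obtain ⟨x, hx⟩ : ∃ x : V, x ≠ 0 := by
    by_contra h
    push Not at h
    have : Subsingleton V := ⟨fun a b => by rw [h a, h b]⟩
    have h1 : Nat.card V ≤ 1 := Finite.card_le_one_iff_subsingleton.2 this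
    omega
  obtain ⟨x', hx0, hx1⟩ : ∃ x' : V, x' ≠ 0 ∧ x' ≠ x := by
    by_contra h
    push Not at h
    have h1 : (Set.univ : Set V) ⊆ {0, x} := by
      intro y _
      by_cases hy : y = 0
      · exact Or.inl hy
      · exact Or.inr (h y hy)
    have h3 : Nat.card V ≤ 2 := by
      rw [← Set.ncard_univ]
      exact (Set.ncard_le_ncard h1 (Set.toFinite _)).trans
        ((Set.ncard_insert_le _ _).trans (by rw [Set.ncard_singleton]))
    omega
  have hsp : ∀ y z : V, y ≠ 0 → y ≠ z → (y : A) ∉ Submodule.span (ZMod 2) {(z : A)} := by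
    intro y z hy hyz h
    obtain ⟨c, hc⟩ := Submodule.mem_span_singleton.1 h
    rcases z1 c with rfl | rfl
    · rw [zero_smul] at hc
      exact hy (Subtype.ext hc.symm)
    · rw [one_smul] at hc
      exact hyz (Subtype.ext hc.symm)
  obtain ⟨f1, g1, k1⟩ := Submodule.exists_le_ker_of_notMem (hsp x x' hx hx1.symm)
  obtain ⟨f2, g2, k2⟩ := Submodule.exists_le_ker_of_notMem (hsp x' x hx0 hx1)
  have a1 : f1 (x : A) = 1 := (z1 _).resolve_left g1
  have a2 : f1 (x' : A) = 0 := k1 (Submodule.mem_span_singleton_self _)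
  have b1 : f2 (x' : A) = 1 := (z1 _).resolve_left g2
  have b2 : f2 (x : A) = 0 := k2 (Submodule.mem_span_singleton_self _)
  refine ⟨f1.toAddMonoidHom, f2.toAddMonoidHom, ⟨x, x.2, a1, b2⟩, ⟨x', x'.2, a2, b1⟩, ?_⟩
  intro V' hV'
  let ψ : V →+ ZMod 2 × ZMod 2 :=
    (f1.toAddMonoidHom.comp V.subtype).prod (f2.toAddMonoidHom.comp V.subtype)
  have hψ : ∀ y : V, ψ y = (f1 (y : A), f2 (y : A)) := fun _ => rfl
  have hsurj : Function.Surjective ψ := by
    rintro ⟨c, d⟩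
    rcases z1 c with rfl | rfl <;> rcases z1 d with rfl | rfl
    · exact ⟨0, map_zero ψ⟩
    · exact ⟨x', by rw [hψ, a2, b1]⟩
    · exact ⟨x, by rw [hψ, a1, b2]⟩
    · refine ⟨x + x', ?_⟩
      rw [map_add, hψ, hψ, a1, b2, a2, b1]
      rfl
  have h3 : Nat.card (V ⧸ ψ.ker) = 4 := by
    rw [Nat.card_congr (QuotientAddGroup.quotientKerEquivOfSurjective ψ hsurj).toEquiv,
      Nat.card_prod, Nat.card_zmod]
  have h4 : Nat.card ψ.ker = Nat.card V' := by
    refine Nat.card_congr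
      { toFun := fun y => ⟨(y.1 : A), (hV' _).2 ⟨y.1.2, ?_, ?_⟩⟩
        invFun := fun c => ⟨⟨c.1, ((hV' _).1 c.2).1⟩, ?_⟩
        left_inv := fun _ => rfl
        right_inv := fun _ => rfl }
    · exact congrArg Prod.fst (AddMonoidHom.mem_ker.1 y.2)
    · exact congrArg Prod.snd (AddMonoidHom.mem_ker.1 y.2)
    · exact AddMonoidHom.mem_ker.2 (Prod.ext ((hV' _).1 c.2).2.1 ((hV' _).1 c.2).2.2)
  rw [AddSubgroup.card_eq_card_quotient_mul_card_addSubgroup ψ.ker, h3, h4]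

theorem relT {Sg0 Sg T : Finset (HeightOneSpectrum (𝓞 K))} (hle : Sg0 ⊆ Sg) {D0 D ε : K}
    (h : Rel K Sg0 D0 D) (hε : RayT K Sg T ε) : Rel K Sg0 D0 (D * ε) := by
  have e : D * ε / D0 = D / D0 * ε := by
    rw [mul_div_right_comm]
  refine ⟨h.n0, mul_ne_zero h.n1 hε.ne, fun v hv => ?_, fun s => ?_⟩
  · rw [e, map_mul]
    exact (h.sq v hv).mul (hε.sq v (hle hv))
  · rw [e, map_mul]
    exact mul_pos (h.pos s) (hε.pos s)

theorem even_aux (S : Ext K K L a b θ) {D0 : K} {Sg0 : Finset (HeightOneSpectrum (𝓞 K))} (k : ℕ) :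
    ∀ (D : K) (Sg : Finset (HeightOneSpectrum (𝓞 K))) (V : AddSubgroup (SC L)), S.Ok D Sg →
      Sg0 ⊆ Sg → Rel K Sg0 D0 D → (∀ c, c ∈ V ↔ S.V D c) → Nat.card V = 4 ^ k →
      ∃ D' : K, Rel K Sg0 D0 D' ∧ ∀ c, S.V D' c → c = 0 := by
  induction k with
  | zero =>
    intro D Sg V _ _ hrel hV hcard
    refine ⟨D, hrel, fun c hc => ?_⟩
    rw [pow_zero] at hcard
    have h1 := (Nat.card_eq_one_iff_unique.1 hcard).1
    have h2 : (⟨c, (hV c).2 hc⟩ : V) = 0 := Subsingleton.elim _ _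
    exact congrArg Subtype.val h2
  | succ k ih =>
    intro D Sg V hok hle hrel hV hcard
    have h4 : 4 ≤ Nat.card V := by
      rw [hcard, pow_succ]
      exact Nat.le_mul_of_pos_left 4 (by positivity)
    obtain ⟨φ1, φ2, ⟨x, hx, x1, x2⟩, ⟨y, hy, y1, y2⟩, hVV⟩ :=
      exists_two (fun c : SC L => by rw [← two_nsmul, H38T1.SC.two_smul]) V h4
    obtain ⟨T, ε, hε, hok', hst⟩ := step_even hok φ1 φ2 ⟨x, (hV x).1 hx, x1, x2⟩
      ⟨y, (hV y).1 hy, y1, y2⟩
    obtain ⟨V', hV'⟩ := exists_VG S hok'.ne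
    refine ih (D * ε) (T ∪ Sg) V' hok' (hle.trans Finset.subset_union_right) (relT hle hrel hε) hV' ?_
    have h5 := hVV V' (fun c => by rw [hV', hst, hV])
    rw [hcard, pow_succ, mul_comm] at h5
    exact (Nat.eq_of_mul_eq_mul_left (by norm_num) h5).symm

theorem even_loop (S : Ext K K L a b θ) {D0 : K} (hD0 : D0 ≠ 0) {k : ℕ}
    (hk : Nat.card {c : SC L // S.V D0 c} = 4 ^ k) (Sg : Finset (HeightOneSpectrum (𝓞 K))) :
    ∃ D : K, Rel K Sg D0 D ∧ Tv K (D ^ 2 * a) (D ^ 3 * b) := by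
  obtain ⟨Sg', hle, hok⟩ := exists_ok S hD0 Sg
  obtain ⟨V, hV⟩ := exists_VG S hD0
  have hcard : Nat.card V = 4 ^ k := by
    rw [← hk]
    exact Nat.card_congr (Equiv.subtypeEquivRight hV)
  obtain ⟨D, hrel, hD⟩ := even_aux S k D0 Sg' V hok hle
    ⟨hD0, hD0, fun v _ => ⟨1, by rw [div_self hD0, map_one, mul_one]⟩,
      fun s => by rw [div_self hD0, map_one]; exact one_pos⟩ hV hcard
  have h := tv_between S hrel.n1 hD K
  exact ⟨D, hrel, h⟩

end H88OD
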