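import Pool.Agent.H88.OD.Ga
import Pool.Agent.H76.OD.Rc

/-!
ROW Gc (project MP_78d38b_OD, about 150 lines): the places above a special prime.  Use the STATEMENTS of Ga.

`P : Sp S Sg`, `v = P.v`, `t1, t2` the two places of `L` above `v` (`P.tw : TwT`, with `dn1, dn2, only, ord1, ord2, res1, unit2, der`; Pool/Agent/H76/MQ/Df.lean).
frv: if `gq g • v = v` then `S.ρ g • t2` lies above `v` (dn_smul), so it is `t1` or `t2` (`P.tw.only`); it is not `t1`: `t1` has degree one and `t2` degree two over `v`: transport by `S.ρ g` (`res1` at `t1 = S.ρ g • t2` would give the same for `t2`: every `y` integral at `t2` is congruent modulo `t2` to an element of `F`: take `y = θ`,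
`unit2` says `t2.valuation (x - θ) = 1` for all `x ∈ F` integral at `v`: contradiction). So `S.ρ g • t2 = t2` and `g = 1` by `P.fr`. fr1: `S.ρ g • t1 = t1` implies `gq g • v = v` (dn_smul, dn1).
above: let `dn K (dn F w) = P.q = dn K v`. `F / K` is Galois: there is `g` with `gq g • v = dn F w` (transitivity of the Galois group on the primes above a prime: Mathlib `Ideal.exists_map_eq_of_isGalois`-like; Pool/Agent/H10/StarGal.lean exists_conj, Pool/Agent/H30/ZO/Us.lean). Then `S.ρ g⁻¹ • w` lies above `v`, so it is `t1` or `t2`.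
odd: `dn K P.v ∉ Sg`, so `2` is a unit at `dn K v`, at `v` and at `t1`, `t2` (`H76PP.oddP_dn`).
-/

set_option autoImplicit false
set_option linter.unusedSectionVars false
open scoped Classical

open WithZero NumberField IsDedekindDomain H38RT
open H38T1 (SC sc scu rep eo la si OddP)
open H76PP (Cub LC ev scm dn)

namespace H88OD

variable {K F L : Type} [Field K] [NumberField K] [Field F] [NumberField F] [Field L]
  [NumberField L] [Algebra K F] [Algebra F L] {a b : K} {θ : L} {S : Ext K F L a b θ}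
  {Sg : Finset (HeightOneSpectrum (𝓞 K))}

theorem Gc_trans [IsGalois K F] {v v' : HeightOneSpectrum (𝓞 F)} (h : dn K v = dn K v') :
    ∃ g : F ≃ₐ[K] F, v = gq g • v' := by
  have hv : v'.asIdeal.under (𝓞 K) = v.asIdeal.under (𝓞 K) := by
    have h1 := congrArg HeightOneSpectrum.asIdeal h
    exact h1.symm
  obtain ⟨g, hg⟩ := Algebra.IsInvariant.exists_smul_of_under_eq (𝓞 K) (𝓞 F) (F ≃ₐ[K] F)
    v'.asIdeal v.asIdeal hv
  refine ⟨g, ?_⟩
  apply HeightOneSpectrum.ext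
  rw [hg]
  ext x
  rw [Ideal.mem_pointwise_smul_iff_inv_smul_mem]
  change _ ↔ H38T1.gO (gq g)⁻¹ x ∈ v'.asIdeal
  have h2 : g⁻¹ • x = H38T1.gO (gq g)⁻¹ x := by
    apply RingOfIntegers.ext
    rfl
  rw [h2]

lemma Gc_dnt (S : Ext K F L a b θ) (g : F ≃ₐ[K] F) {v : HeightOneSpectrum (𝓞 F)}
    {t : HeightOneSpectrum (𝓞 L)} (ht : dn F t = v) (h : gq g • v = v) :
    dn F (S.ρ g • t) = v := by
  rw [dn_smul, ht, h]

theorem Sp.frv (P : Sp S Sg) {g : F ≃ₐ[K] F} (h : gq g • P.v = P.v) : g = 1 := by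
  have h1 := Gc_dnt S g P.tw.dn2 h
  rcases P.tw.only _ h1 with h2 | h2
  · exfalso
    have h0 : P.t2.valuation L θ = 1 := by
      have h3 := P.tw.unit2 0 (by rw [map_zero]; exact zero_le)
      rw [map_zero, zero_sub, Valuation.map_neg] at h3
      exact h3
    have h4 : P.t1.valuation L θ = 1 := by
      have h5 := H38T1.val_smul (S.ρ g) P.t2 θ
      rw [h2, S.ρθ] at h5
      rw [h5]
      exact h0
    obtain ⟨x, hx, hx1⟩ := P.tw.res1 θ (le_of_eq h4)
    have h6 : P.t1.valuation L (θ - algebraMap F L x) =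
        P.t2.valuation L (θ - algebraMap F L (g⁻¹ x)) := by
      have h5 := H38T1.val_smul (S.ρ g) P.t2 (θ - algebraMap F L (g⁻¹ x))
      have h7 : g (g⁻¹ x) = x := g.apply_symm_apply x
      rw [h2, map_sub, S.ρθ, S.ρF, h7] at h5
      exact h5
    have h8 : P.v.valuation F (g⁻¹ x) ≤ 1 := by
      have h5 := H38T1.val_smul (gq g) P.v (g⁻¹ x)
      have h7 : gq g (g⁻¹ x) = x := g.apply_symm_apply x
      rw [h, h7] at h5
      rw [← h5]
      exact hx
    have h9 := P.tw.unit2 _ h8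
    rw [Valuation.map_sub_swap] at h9
    rw [h6, h9] at hx1
    exact lt_irrefl _ hx1
  · exact P.fr g h2

theorem Sp.fr1 (P : Sp S Sg) {g : F ≃ₐ[K] F} (h : S.ρ g • P.t1 = P.t1) : g = 1 := by
  apply P.frv
  have h1 := dn_smul S g P.t1
  rw [h, P.tw.dn1] at h1
  exact h1.symm

theorem Sp.aboveF (P : Sp S Sg) {v : HeightOneSpectrum (𝓞 F)} (h : dn K v = P.q) :
    ∃ g : F ≃ₐ[K] F, v = gq g • P.v := by
  have _ : IsGalois K F := S.gal
  have _ : v.asIdeal.IsPrime := v.isPrime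
  have _ : P.v.asIdeal.IsPrime := P.v.isPrime
  have e1 : v.asIdeal.under (𝓞 K) = P.q.asIdeal := congrArg HeightOneSpectrum.asIdeal h
  have _ : v.asIdeal.LiesOver P.q.asIdeal := ⟨e1.symm⟩
  have _ : P.v.asIdeal.LiesOver P.q.asIdeal := ⟨rfl⟩
  obtain ⟨g, hg⟩ := Ideal.exists_smul_eq_of_isGaloisGroup P.q.asIdeal P.v.asIdeal v.asIdeal
    (F ≃ₐ[K] F)
  refine ⟨g, ?_⟩
  apply HeightOneSpectrum.ext
  rw [← hg]
  ext x
  rw [Ideal.mem_pointwise_smul_iff_inv_smul_mem]
  have h1 : (g⁻¹ • x : 𝓞 F) = H38T1.gO (gq g)⁻¹ x := by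
    apply RingOfIntegers.ext
    rfl
  rw [h1]
  exact Iff.rfl

theorem Sp.above (P : Sp S Sg) {w : HeightOneSpectrum (𝓞 L)} (h : dn K (dn F w) = P.q) :
    ∃ g : F ≃ₐ[K] F, w = S.ρ g • P.t1 ∨ w = S.ρ g • P.t2 := by
  obtain ⟨g, hg⟩ := P.aboveF h
  have h1 : dn F (S.ρ g⁻¹ • w) = P.v := by
    rw [dn_smul, hg, Ga_gq_inv, inv_smul_smul]
  refine ⟨g, ?_⟩
  have h2 : S.ρ g • S.ρ g⁻¹ • w = w := by
    rw [ρ_inv, smul_inv_smul]
  rcases P.tw.only _ h1 with h3 | h3
  · left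
    rw [← h3, h2]
  · right
    rw [← h3, h2]

theorem Sp.odd (P : Sp S Sg) (h2 : ∀ v, v ∉ Sg → v.valuation K 2 = 1) :
    OddP P.v ∧ OddP P.t1 ∧ OddP P.t2 := by
  have h1 : OddP P.v := by
    rw [H76PP.oddP_dn (K := K)]
    exact h2 _ P.out
  refine ⟨h1, ?_, ?_⟩
  · rw [H76PP.oddP_dn (K := F), P.tw.dn1]
    exact h1
  · rw [H76PP.oddP_dn (K := F), P.tw.dn2]
    exact h1

end H88OD
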