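import Pool.Agent.H88.OD.Lp

/-!
Project MP_78d38b_OD: a sequence of elements which are pairwise different modulo squares.
-/

set_option autoImplicit false
set_option linter.unusedSectionVars false
open scoped Classical

open WithZero NumberField IsDedekindDomain H38RT
open H38T1 (SC sc scu rep eo la si OddP)

namespace H88OD

theorem exists_seq {K : Type} [Field K] [NumberField K] {P : K → Prop} (hP : ∀ D, P D → D ≠ 0)
    (h : ∀ X : Finset (HeightOneSpectrum (𝓞 K)), ∃ D : K, P D ∧
      ∃ q : HeightOneSpectrum (𝓞 K), q ∉ X ∧ Odd (ord (q.valuation K) D)) :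
    ∃ f : ℕ → K, (∀ n, P (f n)) ∧ ∀ m n, IsSquare (f m * f n) → m = n := by
  have h1 := infinite hP h
  have h2 : ∀ n : ℕ, ∃ D, P D ∧ sc D = (h1.natEmbedding _ n : SC K) := fun n =>
    (h1.natEmbedding _ n).2
  choose f hf hs using h2
  refine ⟨f, hf, fun m n hmn => ?_⟩
  have h3 : sc (f m) = sc (f n) := by
    have h4 : sc (f m * f n) = 0 :=
      (H38T1.sc_eq_zero (mul_ne_zero (hP _ (hf m)) (hP _ (hf n)))).2 hmn
    rw [H38T1.sc_mul (hP _ (hf m)) (hP _ (hf n))] at h4
    have h5 : sc (f n) + sc (f n) = 0 := by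
      rw [← H38T1.sc_mul (hP _ (hf n)) (hP _ (hf n)),
        H38T1.sc_eq_zero (mul_ne_zero (hP _ (hf n)) (hP _ (hf n)))]
      exact ⟨f n, rfl⟩
    rw [← h5] at h4
    exact add_right_cancel h4
  rw [hs, hs] at h3
  exact (h1.natEmbedding _).injective (Subtype.ext h3)

end H88OD
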