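import Pool.Agent.H88.OD.Sa
import Pool.Agent.H30.ZO.Na

/-!
ROW Sb (project MP_78d38b_OD, about 120 lines): the order of the two-Selmer group.  Use the STATEMENTS of Sa.

PROOF. `Φ : {f // Sl K W f} → {c // ...}`: for `f` choose `d` by krel_of_sl, `Φ f := sc (ev θ d)` (in `HH K L` by `H30ZO.mem_HH`; `Wc`: `⟨d, _, rfl, _⟩`). By krel_iff `Φ f = Φ g` iff `IsSquare (x y)` iff SelRel f g (`sc x = sc y` iff `sc (x * y) = 0` iff `IsSquare (x * y)`: `H38T1.sc_mul`, `sc_eq_zero`, `c + c = 0`).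
Surjective: a class `c = sc (ev θ d)` with `Wc` at every place: the `d` of `Wc` depends on the place: `Wc i a b θ c` gives some `d'` with `sc (ev θ d') = c` and `LC i a b d'`; for a fixed representative `d` of `c` (`H38T1.sc_surj`, `hL.eq_co`) `LC i a b d` holds as well: `ev θ d = ev θ d' * z ^ 2` and `LC` is invariant under multiplication by squares (`H30ZO` has a lemma for this: Wc_of / `LC_mul_sq`, see `selTriv` in Pool/Agent/H30/ZO/Ch.lean or `H76PP.LC_sq`).
Then sl_of_krel gives `f` with `KRel f (ev θ d)`, and `Φ f = c` by krel_iff with `g = f` and `T = 0`. `Quot.lift` / `Nat.card_congr` (`Equiv.ofBijective`), `Quot.sound`, and for the converse `Quot.lift Φ`.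
-/

set_option autoImplicit false
set_option linter.unusedSectionVars false
open scoped Classical

open WeierstrassCurve NumberField IsDedekindDomain Pool.Agent.H10 H76PP H24PD
open H73IS (Sl)
open H38T1 (SC sc)

namespace H88OD

/-- Two cocycles with values in the points killed by two which differ by the coboundary of such a point. -/
def SelRel (K : Type) [Field K] [NumberField K] (W : WeierstrassCurve K)
    (f g : {f : Coch K W // Sl K W f}) : Prop :=
  ∃ T : (W.baseChange (AlgebraicClosure K)).toAffine.Point,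
    T + T = 0 ∧ ∀ σ : AlgebraicClosure K ≃ₐ[K] AlgebraicClosure K,
      f.1 σ - g.1 σ = (WeierstrassCurve.Affine.Point.map σ.toAlgHom :
        (W.baseChange (AlgebraicClosure K)).toAffine.Point →+
          (W.baseChange (AlgebraicClosure K)).toAffine.Point) T - T

variable {K L : Type} [Field K] [NumberField K] [Field L] [NumberField L] [Algebra K L] {a b : K}
  {θ : L}

private theorem Sb_add_self {F : Type} [Field F] (c e : SC F) : c = e ↔ c + e = 0 := by
  have h : e + e = 0 := by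
    rw [← two_nsmul]
    exact H38T1.SC.two_smul e
  constructor
  · rintro rfl
    exact h
  · intro h1
    exact add_right_cancel (h1.trans h.symm)

theorem card_sel (hL : Cub K L a b θ) :
    Nat.card (Quot (SelRel K (⟨0, 0, 0, a, b⟩ : WeierstrassCurve K))) =
      Nat.card {c : SC L // c ∈ H30ZO.HH K L ∧
        (∀ v : HeightOneSpectrum (𝓞 K), H30ZO.Wc (algebraMap K (v.adicCompletion K)) a b θ c) ∧
        ∀ s : K →+* ℝ, H30ZO.Wc s a b θ c} := by
  have key : ∀ f : {f : Coch K (⟨0, 0, 0, a, b⟩ : WeierstrassCurve K) //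
      Sl K (⟨0, 0, 0, a, b⟩ : WeierstrassCurve K) f}, ∃ d : Fin 3 → K, ev θ d ≠ 0 ∧
      IsSquare (Algebra.norm K (ev θ d)) ∧
      (∀ v : HeightOneSpectrum (𝓞 K), LC (algebraMap K (v.adicCompletion K)) a b d) ∧
      (∀ s : K →+* ℝ, LC s a b d) ∧ KRel a b θ f.1 (ev θ d) := fun f => krel_of_sl hL f.2
  choose D hD0 hDn hDv hDs hDK using key
  obtain ⟨Φ, hΦd⟩ : ∃ Φ : {f : Coch K (⟨0, 0, 0, a, b⟩ : WeierstrassCurve K) //
      Sl K (⟨0, 0, 0, a, b⟩ : WeierstrassCurve K) f} → {c : SC L // c ∈ H30ZO.HH K L ∧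
        (∀ v : HeightOneSpectrum (𝓞 K), H30ZO.Wc (algebraMap K (v.adicCompletion K)) a b θ c) ∧
        ∀ s : K →+* ℝ, H30ZO.Wc s a b θ c}, ∀ f, (Φ f).1 = sc (ev θ (D f)) :=
    ⟨fun f => ⟨sc (ev θ (D f)), (H30ZO.mem_HH (hD0 f)).2 (hDn f),
      fun v => ⟨D f, hD0 f, rfl, hDv f v⟩, fun s => ⟨D f, hD0 f, rfl, hDs f s⟩⟩, fun _ => rfl⟩
  have hΦ : ∀ f g, Φ f = Φ g ↔ SelRel K (⟨0, 0, 0, a, b⟩ : WeierstrassCurve K) f g := by
    intro f g
    have h1 := krel_iff hL f.2 g.2 (hD0 f) (hD0 g) (hDK f) (hDK g)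
    rw [Subtype.ext_iff, hΦd, hΦd, Sb_add_self, ← H38T1.sc_mul (hD0 f) (hD0 g),
      H38T1.sc_eq_zero (mul_ne_zero (hD0 f) (hD0 g))]
    exact h1
  refine Nat.card_congr (Equiv.ofBijective
    (Quot.lift Φ (fun f g h => (hΦ f g).2 h)) ⟨?_, ?_⟩)
  · intro x y
    refine Quot.induction_on₂ x y ?_
    intro f g h
    exact Quot.sound ((hΦ f g).1 h)
  · rintro ⟨c, hc1, hc2, hc3⟩
    obtain ⟨x, hx, hxc⟩ := H38T1.sc_surj c
    obtain ⟨c0, c1, c2, he⟩ := hL.sp x
    have hev : ev θ ![c0, c1, c2] = x := he.symm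
    have hd : ev θ ![c0, c1, c2] ≠ 0 := by
      rw [hev]
      exact hx
    have hcd : sc (ev θ ![c0, c1, c2]) = c := by
      rw [hev]
      exact hxc
    rw [← hcd] at hc1 hc2 hc3
    obtain ⟨f, hf, hK⟩ := sl_of_krel hL hd ((H30ZO.mem_HH hd).1 hc1)
      (fun v => (H30ZO.Wc_iff _ hL hd).1 (hc2 v)) (fun s => (H30ZO.Wc_iff _ hL hd).1 (hc3 s))
    refine ⟨Quot.mk _ ⟨f, hf⟩, ?_⟩
    show Φ ⟨f, hf⟩ = _
    rw [Subtype.ext_iff, hΦd]
    show sc (ev θ (D ⟨f, hf⟩)) = c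
    rw [← hcd, Sb_add_self, ← H38T1.sc_mul (hD0 _) hd, H38T1.sc_eq_zero (mul_ne_zero (hD0 _) hd)]
    refine (krel_iff hL hf hf (hD0 ⟨f, hf⟩) hd (hDK ⟨f, hf⟩) hK).2 ⟨0, add_zero 0, fun σ => ?_⟩
    rw [sub_self, map_zero, sub_self]

end H88OD
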