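import Pool.Agent.H88.OD.Fd
import Pool.Agent.H88.OD.Fc
import Pool.Agent.H88.OD.Sb

/-!
Project MP_78d38b_OD: the main theorems in terms of the order of the two-Selmer group over the base field.
-/

set_option autoImplicit false
set_option linter.unusedSectionVars false
open scoped Classical

open WithZero NumberField IsDedekindDomain H38RT
open H38T1 (SC sc scu rep eo la si OddP)
open H76PP (Cub LC ev scm dn SelTriv Tf_twist)
open H30ZO (Tv Wc)

namespace H88OD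

variable {K : Type} [Field K] [NumberField K] {a b : K}

theorem Rel.trans {Sg : Finset (HeightOneSpectrum (𝓞 K))} {D0 D1 D : K} (h : Rel K Sg D0 D1)
    (h' : Rel K Sg D1 D) : Rel K Sg D0 D := by
  have e : D / D0 = D1 / D0 * (D / D1) := by
    have h0 := h.n0
    have h1 := h.n1
    field_simp
  refine ⟨h.n0, h'.n1, fun v hv => ?_, fun s => ?_⟩
  · rw [e, map_mul]
    exact (h.sq v hv).mul (h'.sq v hv)
  · rw [e, map_mul]
    exact mul_pos (h.pos s) (h'.pos s)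

/-- The order of the two-Selmer group of `y^2 = x^3 + a x + b` over `K`: classes of locally constant
cocycles with values in the points killed by two which are coboundaries over all completions. -/
noncomputable def selCard (K : Type) [Field K] [NumberField K] (a b : K) : ℕ :=
  Nat.card (Quot (SelRel K (⟨0, 0, 0, a, b⟩ : WeierstrassCurve K)))

/-- The setting over the base field. -/
theorem exists_self (ha : ∀ v : HeightOneSpectrum (𝓞 K), v.valuation K a ≤ 1)
    (hb : ∀ v : HeightOneSpectrum (𝓞 K), v.valuation K b ≤ 1)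
    (hir : ∀ t : K, t ^ 3 + a * t + b ≠ 0) (hD : 4 * a ^ 3 + 27 * b ^ 2 ≠ 0)
    (hsq : ¬ IsSquare (-(4 * a ^ 3 + 27 * b ^ 2))) :
    ∃ (L : Type) (_ : Field L) (_ : NumberField L) (_ : Algebra K L) (θ : L),
      Nonempty (Ext K K L a b θ) := by
  have h1 : Odd (Module.finrank K K) := by
    rw [Module.finrank_self]
    exact odd_one
  exact exists_ext h1 ha hb hD hir hsq

theorem V_self {L : Type} [Field L] [NumberField L] [Algebra K L] {θ : L} (S : Ext K K L a b θ)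
    (D : K) (c : SC L) : S.V D c ↔ c ∈ H30ZO.HH K L ∧
      (∀ v : HeightOneSpectrum (𝓞 K), Wc (algebraMap K (v.adicCompletion K)) (D ^ 2 * a)
        (D ^ 3 * b) (algebraMap K L D * θ) c) ∧
      ∀ s : K →+* ℝ, Wc s (D ^ 2 * a) (D ^ 3 * b) (algebraMap K L D * θ) c :=
  ⟨fun h => ⟨h.hh, h.fin, h.inf⟩, fun h => ⟨h.1, h.2.1, h.2.2⟩⟩

theorem card_V {L : Type} [Field L] [NumberField L] [Algebra K L] {θ : L} (S : Ext K K L a b θ)
    {D : K} (hD : D ≠ 0) :
    Nat.card {c : SC L // S.V D c} = selCard K (D ^ 2 * a) (D ^ 3 * b) := by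
  have hc : Cub K L (D ^ 2 * a) (D ^ 3 * b) (algebraMap K L D * θ) := S.cubD hD
  rw [selCard, card_sel hc]
  exact Nat.card_congr (Equiv.subtypeEquivRight fun c => V_self S D c)

/-- If the Tate-Shafarevich group and the group of points have trivial two-primary part then the
two-Selmer group is trivial. -/
theorem selCard_of_Tv (ha : ∀ v : HeightOneSpectrum (𝓞 K), v.valuation K a ≤ 1)
    (hb : ∀ v : HeightOneSpectrum (𝓞 K), v.valuation K b ≤ 1)
    (hir : ∀ t : K, t ^ 3 + a * t + b ≠ 0) (hD : 4 * a ^ 3 + 27 * b ^ 2 ≠ 0)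
    (hsq : ¬ IsSquare (-(4 * a ^ 3 + 27 * b ^ 2))) {D : K} (hD0 : D ≠ 0)
    (h : Tv K (D ^ 2 * a) (D ^ 3 * b)) : selCard K (D ^ 2 * a) (D ^ 3 * b) = 1 := by
  obtain ⟨L, _, _, _, θ, ⟨S⟩⟩ := exists_self ha hb hir hD hsq
  obtain ⟨V, hV⟩ := exists_VG S hD0
  rw [← card_V S hD0, ← Nat.card_congr (Equiv.subtypeEquivRight hV)]
  have hbot : V = ⊥ := by
    rw [AddSubgroup.eq_bot_iff_forall]
    intro c hc
    refine fix_zero S hD0 h c ((hV c).1 hc) fun g => ?_
    have hg : g = 1 := Subsingleton.elim _ _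
    rw [hg, map_one, one_smul]
  rw [hbot]
  exact AddSubgroup.card_bot

/-- **The main theorem.** -/
theorem main_even {F : Type} [Field F] [NumberField F] [Algebra K F]
    [hgal : IsGalois K F] (hodd : Odd (Module.finrank K F))
    (ha : ∀ v : HeightOneSpectrum (𝓞 K), v.valuation K a ≤ 1)
    (hb : ∀ v : HeightOneSpectrum (𝓞 K), v.valuation K b ≤ 1)
    (hir : ∀ t : K, t ^ 3 + a * t + b ≠ 0) (hD : 4 * a ^ 3 + 27 * b ^ 2 ≠ 0)
    (hsq : ¬ IsSquare (-(4 * a ^ 3 + 27 * b ^ 2))) {D0 : K} (hD0 : D0 ≠ 0) {k : ℕ}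
    (hk : selCard K (D0 ^ 2 * a) (D0 ^ 3 * b) = 4 ^ k)
    (Sg X : Finset (HeightOneSpectrum (𝓞 K))) :
    ∃ D : K, Rel K Sg D0 D ∧ (∀ (M : Type) [Field M] [NumberField M] [Algebra K M] [Algebra M F]
      [IsScalarTower K M F], Tv M (algebraMap K M (D ^ 2 * a)) (algebraMap K M (D ^ 3 * b))) ∧
      ∃ q : HeightOneSpectrum (𝓞 K), q ∉ X ∧ Odd (ord (q.valuation K) D) := by
  obtain ⟨L, _, _, _, θ, ⟨S⟩⟩ := exists_self ha hb hir hD hsq
  rw [← card_V S hD0] at hk
  obtain ⟨D1, h1, h2⟩ := even_loop S hD0 hk Sg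
  obtain ⟨D, h3, h4, h5⟩ := main3 hodd ha hb hD hsq h1.n1 h2 Sg X
  exact ⟨D, h1.trans h3, h4, h5⟩

/-- A sequence of twists. -/
theorem main_seq {F : Type} [Field F] [NumberField F] [Algebra K F]
    [hgal : IsGalois K F] (hodd : Odd (Module.finrank K F))
    (ha : ∀ v : HeightOneSpectrum (𝓞 K), v.valuation K a ≤ 1)
    (hb : ∀ v : HeightOneSpectrum (𝓞 K), v.valuation K b ≤ 1)
    (hir : ∀ t : K, t ^ 3 + a * t + b ≠ 0) (hD : 4 * a ^ 3 + 27 * b ^ 2 ≠ 0)
    (hsq : ¬ IsSquare (-(4 * a ^ 3 + 27 * b ^ 2))) {D0 : K} (hD0 : D0 ≠ 0) {k : ℕ}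
    (hk : selCard K (D0 ^ 2 * a) (D0 ^ 3 * b) = 4 ^ k)
    (Sg : Finset (HeightOneSpectrum (𝓞 K))) :
    ∃ f : ℕ → K, (∀ n, Rel K Sg D0 (f n) ∧ ∀ (M : Type) [Field M] [NumberField M] [Algebra K M]
      [Algebra M F] [IsScalarTower K M F],
      Tv M (algebraMap K M (f n ^ 2 * a)) (algebraMap K M (f n ^ 3 * b))) ∧
      ∀ m n, IsSquare (f m * f n) → m = n := by
  refine exists_seq (P := fun D => Rel K Sg D0 D ∧ ∀ (M : Type) [Field M] [NumberField M]
    [Algebra K M] [Algebra M F] [IsScalarTower K M F],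
    Tv M (algebraMap K M (D ^ 2 * a)) (algebraMap K M (D ^ 3 * b))) (fun D h => h.1.n1) ?_
  intro X
  obtain ⟨D, h1, h2, h3⟩ := main_even hodd ha hb hir hD hsq hD0 hk Sg X
  exact ⟨D, ⟨h1, h2⟩, h3⟩

end H88OD
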