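import Pool.Agent.H88.OD.Gt
import Pool.Agent.H88.OD.Gb
import Pool.Agent.H30.OD.Cs

/-!
ROW Ge (project MP_78d38b_OD, about 200 lines): the reciprocity law in the group algebra.  Use the STATEMENTS of Ga, Gb, Gc, Gt, `H76OD.rec_T2` (Pool/Agent/H76/OD/Rc.lean) and `conAt_of_Wc`, `conR_of_Wc` (Pool/Agent/H30/OD/Cs.lean).

STEP 1: for `x, y` in `S.Y D Sg T`, `T = {(P i).q}`: `∑ i, ∑ g, (e_{i,g}(x) f_{i,g}(y) + f_{i,g}(x) e_{i,g}(y)) = 0` with `e_{i,g}(x) = ((P i).tr x).coeff g`, `f_{i,g}(x) = ((P i).fl x).coeff g`: apply rec_T2 over the field `F` with the finite set `T_F` of the places `gq g • (P i).v`, `i ∈ ι`, `g ∈ G` (these are different: frv, the `q_i` are different;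
so the sum over `T_F` is the sum over `(i, g)`: `Finset.sum_image` / `Finset.sum_bij`), `t₁ (gq g • (P i).v) = S.ρ g • (P i).t1`, `t₂ = S.ρ g • (P i).t2` (choose the functions `t₁, t₂` with `Classical.choose` on `T_F`, or define them by `if h : ∃ i g, v = gq g • (P i).v then ..`; well defined by uniqueness). `TwT` for the translated places: transport of the fields by `S.ρ g` (`val_smul`, `dn_smul`, S.ρF, S.ρθ).
`A B : 𝓞 F` the integral elements `algebraMap K F a`, `algebraMap K F b` (`Lt_int` in Lt.lean; `S.ha`, `S.hb`). OddP: `P.odd`, `oddP_smul`. `dsc A B ∉ v^2`: `S.Ok.dis` at `dn K v = q_i ∉ Sg`: a unit. `HR2`: `hr2 h hd` (Pool/Agent/H76/PP/Ze.lean). Norm classes zero: `.hh` (`H30ZO.HH` is the kernel of `scm norm`).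
Local conditions outside `T_F`: `v ∉ T_F`: if `dn K v ∈ T` then `v = gq g • (P i).v` (aboveF): so `dn K v ∉ T`. If `dn K v ∈ Sg`: `S.Lv D v` for `x`, `y` and `x + y` (subgroup: exists_YG), conAt_of_Wc. If `dn K v ∉ Sg ∪ T`: `x, y, x + y` are even at the places above `v`, and `v` is good for `E_D`: `Wc_good` (Lt.lean) gives `S.Lv D v`; conAt_of_Wc. Real: conR_of_Wc.
The terms: `eo (S.ρ g • t2) x = eo t2 (S.ρ g⁻¹ • x)` (`eo_smul` for `S.ρ g⁻¹ • x`), `la (S.ρ g • t1) x = la t1 (S.ρ g⁻¹ • x)` (`la_smul`, `eo t1 = 0` by Sp.eo_t1), `nuw F a θ (S.ρ g • t1) = nuw F a θ t1 = (P i).nu` (`3 θ^2 + a` is fixed by `S.ρ g` and a unit at `t1`: `TwT.der`).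
STEP 2: `((P i).tr x * st ((P i).fl y)).coeff 1 = ∑ g, e_{i,g}(x) f_{i,g}(y)` (`coeff_mul`, `coeff_st`). So the coefficient at `1` of the left side of rec_R is zero for all `x, y ∈ Y`. For `h ∈ G`: replace `x` by `S.ρ h⁻¹ • x ∈ Y` (Y_smul): `tr (S.ρ h⁻¹ • x) = single h⁻¹ 1 * tr x`, so the coefficient at `1` for `S.ρ h⁻¹ • x` is the coefficient at `h` for `x` (`coeff_single_mul`). Hence all coefficients vanish.
-/

set_option autoImplicit false
set_option linter.unusedSectionVars false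
open scoped Classical

open WithZero NumberField IsDedekindDomain H38RT
open H38T1 (SC sc scu rep eo la si OddP)
open H76PP (Cub LC ev scm dn HR2)
open H76MQ (TwT)

namespace H88OD

variable {K F L : Type} [Field K] [NumberField K] [Field F] [NumberField F] [Field L]
  [NumberField L] [Algebra K F] [Algebra F L] {a b : K} {θ : L} {S : Ext K F L a b θ}
  {Sg : Finset (HeightOneSpectrum (𝓞 K))}

lemma Ge_TwT (P : Sp S Sg) (g : F ≃ₐ[K] F) :
    TwT F (algebraMap K F a) θ (gq g • P.v) (S.ρ g • P.t1) (S.ρ g • P.t2) := by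
  have e : ∀ x : F, algebraMap F L x = S.ρ g (algebraMap F L (g.symm x)) := by
    intro x
    rw [S.ρF, g.apply_symm_apply]
  have e' : ∀ x : F, x = gq g (g.symm x) := by
    intro x
    rw [gq_apply, g.apply_symm_apply]
  have eL : ∀ y : L, y = S.ρ g ((S.ρ g).symm y) := by
    intro y
    rw [AlgEquiv.apply_symm_apply]
  have hv : ∀ x : F, (gq g • P.v).valuation F x = P.v.valuation F (g.symm x) := by
    intro x
    conv_lhs => rw [e' x]
    rw [H38T1.val_smul]
  refine ⟨⟨fun h => P.tw.ne (smul_left_cancel _ h), ?_, ?_, ?_, ?_, ?_, ?_⟩, ?_, ?_⟩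
  · rw [dn_smul, P.tw.dn1]
  · rw [dn_smul, P.tw.dn2]
  · intro w hw
    have h0 : S.ρ g • (S.ρ g)⁻¹ • w = w := smul_inv_smul _ _
    rw [← h0, dn_smul] at hw
    rcases P.tw.only _ (smul_left_cancel _ hw) with h | h
    · left
      rw [← h, h0]
    · right
      rw [← h, h0]
  · intro x hx
    have hx' : g.symm x ≠ 0 := fun h => hx (by simpa using h)
    have h1 := P.tw.ord1 (g.symm x) hx'
    rw [e x, H38T1.Eb_ord, h1]
    conv_rhs => rw [e' x]
    rw [H38T1.Eb_ord]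
  · intro x hx
    have hx' : g.symm x ≠ 0 := fun h => hx (by simpa using h)
    have h1 := P.tw.ord2 (g.symm x) hx'
    rw [e x, H38T1.Eb_ord, h1]
    conv_rhs => rw [e' x]
    rw [H38T1.Eb_ord]
  · intro y hy
    rw [eL y, H38T1.val_smul] at hy
    obtain ⟨x, hx, hxy⟩ := P.tw.res1 _ hy
    refine ⟨g x, ?_, ?_⟩
    · rw [hv, g.symm_apply_apply]
      exact hx
    · rw [← S.ρF, eL y, ← map_sub, H38T1.val_smul]
      exact hxy
  · intro x hx
    rw [hv] at hx
    have h1 := P.tw.unit2 _ hx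
    have h2 : algebraMap F L x - θ = S.ρ g (algebraMap F L (g.symm x) - θ) := by
      rw [map_sub, S.ρθ, ← e x]
    rw [h2, H38T1.val_smul]
    exact h1
  · have h1 := P.tw.der
    have h2 : (3 * θ ^ 2 + algebraMap F L (algebraMap K F a) : L) =
        S.ρ g (3 * θ ^ 2 + algebraMap F L (algebraMap K F a)) := by
      rw [map_add, map_mul, map_pow, S.ρθ, S.ρF, g.commutes, map_ofNat]
    rw [h2, H38T1.val_smul]
    exact h1

lemma Ge_nu (P : Sp S Sg) (h2 : ∀ v, v ∉ Sg → v.valuation K 2 = 1) (g : F ≃ₐ[K] F) :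
    H76OD.nuw F (algebraMap K F a) θ (S.ρ g • P.t1) = P.nu := by
  unfold H76OD.nuw Sp.nu
  obtain ⟨z, hz⟩ : ∃ z : L, z = 3 * θ ^ 2 + algebraMap F L (algebraMap K F a) := ⟨_, rfl⟩
  have h1 := P.tw.der
  rw [← hz] at h1 ⊢
  have hz0 : z ≠ 0 := by
    rintro rfl
    rw [map_zero] at h1
    exact zero_ne_one h1
  have hg : S.ρ g z = z := by
    rw [hz, map_add, map_mul, map_pow, S.ρθ, S.ρF, g.commutes, map_ofNat]
  have h3 : S.ρ g • sc z = sc z := by
    rw [H38T1.smul_sc _ hz0, hg]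
  have h4 : eo P.t1 (sc z) = 0 := by
    rw [H38T1.eo_sc hz0]
    have h5 : ord (P.t1.valuation L) z = 0 := by
      unfold ord
      rw [h1]
      rfl
    rw [h5]
    rfl
  have h5 := H38T1.la_smul (S.ρ g) (P.odd h2).2.1 h4
  rw [h3] at h5
  exact h5

lemma Ge_uu (P : Sp S Sg) (h2 : ∀ v, v ∉ Sg → v.valuation K 2 = 1) (g : F ≃ₐ[K] F) {c : SC L}
    (hc : c ∈ H30ZO.HH F L) :
    eo (S.ρ g • P.t2) c = (P.tr c).coeff g ∧
      H76OD.uu F (algebraMap K F a) θ (S.ρ g • P.t1) (S.ρ g • P.t2) c = (P.fl c).coeff g := by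
  have h0 : S.ρ g • S.ρ g⁻¹ • c = c := by
    rw [ρ_inv, smul_inv_smul]
  have h1 : eo (S.ρ g • P.t2) c = eo P.t2 (S.ρ g⁻¹ • c) := by
    conv_lhs => rw [← h0]
    rw [H38T1.eo_smul]
  have h3 : la (S.ρ g • P.t1) c = la P.t1 (S.ρ g⁻¹ • c) := by
    conv_lhs => rw [← h0]
    exact H38T1.la_smul (S.ρ g) (P.odd h2).2.1 (P.eo_t1 h2 (HH_smul S g⁻¹ hc))
  refine ⟨h1, ?_⟩
  unfold H76OD.uu
  rw [Ge_nu P h2, h1, h3]
  rfl

lemma Ge_inj {ι : Type} (P : ι → Sp S Sg) (hinj : Function.Injective fun i => (P i).q) :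
    Function.Injective fun p : ι × (F ≃ₐ[K] F) => gq p.2 • (P p.1).v := by
  rintro ⟨i, g⟩ ⟨i', g'⟩ h
  change gq g • (P i).v = gq g' • (P i').v at h
  have h1 : (P i).q = (P i').q := by
    have h2 := congrArg (dn K) h
    rw [dn_gq, dn_gq] at h2
    exact h2
  have h2 : i = i' := hinj h1
  subst h2
  have h3 : gq (g'⁻¹ * g) • (P i).v = (P i).v := by
    have h4 : gq (g'⁻¹ * g) = (gq g')⁻¹ * gq g := rfl
    rw [h4, mul_smul, h, inv_smul_smul]
  have h4 := (P i).frv h3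
  have h5 : g = g' := by
    rw [inv_mul_eq_one] at h4
    exact h4.symm
  rw [h5]

lemma Ge_con {D : K} (hok : S.Ok D Sg) {ι : Type} [Fintype ι] [Fintype (F ≃ₐ[K] F)]
    (P : ι → Sp S Sg) {A B : 𝓞 F} (h : Cub F L (A : F) (B : F) θ)
    (hA : (A : F) = algebraMap K F a) (hB : (B : F) = algebraMap K F b) {c : SC L}
    (hc : S.Y D Sg (Finset.univ.image fun i => (P i).q) c) {v : HeightOneSpectrum (𝓞 F)}
    (hv : v ∉ Finset.univ.image fun p : ι × (F ≃ₐ[K] F) => gq p.2 • (P p.1).v) :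
    H76OD.ConAt h v c := by
  have hD : algebraMap K F D ≠ 0 := (map_ne_zero _).2 hok.ne
  refine H30OD.conAt_of_Wc h hD v ?_
  have h1 : S.Lv D v c := by
    by_cases hs : dn K v ∈ Sg
    · exact hc.fin v hs
    · have hT : dn K v ∉ Finset.univ.image fun i => (P i).q := by
        intro h1
        obtain ⟨i, _, hi⟩ := Finset.mem_image.1 h1
        obtain ⟨g, hg⟩ := (P i).aboveF hi.symm
        exact hv (Finset.mem_image.2 ⟨(i, g), Finset.mem_univ _, hg.symm⟩)
      have h2 := (H76OD.Wc_good S.cub v (H76PP.val_le (S.ha _)) (H76PP.val_le (S.hb _))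
        (by
          have h3 := H76PP.val_one (L := F) (w := v) (hok.two _ hs)
          rwa [map_ofNat] at h3)
        (by
          have h3 := H76PP.val_one (L := F) (w := v) (hok.dis _ hs)
          simpa only [map_add, map_mul, map_pow, map_ofNat] using h3)
        (E := algebraMap K F D) (H76PP.val_one (hok.val _ hs)) hc.hh).2 (by
          intro w hw
          refine hc.ev w ?_ ?_
          · rw [hw]
            exact hs
          · rw [hw]
            exact hT)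
      unfold Ext.Lv
      rw [map_mul, map_mul, map_pow, map_pow]
      exact h2
  unfold Ext.Lv at h1
  rw [map_mul, map_mul, map_pow, map_pow, ← hA, ← hB] at h1
  exact h1

lemma Ge_conR {D : K} (hok : S.Ok D Sg) {T : Finset (HeightOneSpectrum (𝓞 K))} {A B : 𝓞 F}
    (h : Cub F L (A : F) (B : F) θ)
    (hA : (A : F) = algebraMap K F a) (hB : (B : F) = algebraMap K F b) {c : SC L}
    (hc : S.Y D Sg T c) (s : F →+* ℝ) : H76OD.ConR h s c := by
  have hD : algebraMap K F D ≠ 0 := (map_ne_zero _).2 hok.ne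
  refine H30OD.conR_of_Wc h hD s ?_
  have h1 := hc.inf s
  unfold Ext.Lr at h1
  rw [map_mul, map_mul, map_pow, map_pow, ← hA, ← hB] at h1
  exact h1

lemma Ge_one {D : K} (hok : S.Ok D Sg) {ι : Type} [Fintype ι] [Fintype (F ≃ₐ[K] F)]
    (P : ι → Sp S Sg) (hinj : Function.Injective fun i => (P i).q) {x y : SC L}
    (hx : S.Y D Sg (Finset.univ.image fun i => (P i).q) x)
    (hy : S.Y D Sg (Finset.univ.image fun i => (P i).q) y) :
    ∑ i, ∑ g : F ≃ₐ[K] F, (((P i).tr x).coeff g * ((P i).fl y).coeff g +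
      ((P i).fl x).coeff g * ((P i).tr y).coeff g) = 0 := by
  rcases isEmpty_or_nonempty ι with hι | ⟨⟨i0⟩⟩
  · exact Finset.sum_of_isEmpty _
  obtain ⟨A, hA⟩ := H76OD.Lt_int (k := F) (a := algebraMap K F a)
    (fun v => H76PP.val_le (S.ha (dn K v)))
  obtain ⟨B, hB⟩ := H76OD.Lt_int (k := F) (a := algebraMap K F b)
    (fun v => H76PP.val_le (S.hb (dn K v)))
  have h : Cub F L (A : F) (B : F) θ := by
    rw [hA, hB]
    exact S.cub
  have hdF : (4 * (A : F) ^ 3 + 27 * (B : F) ^ 2 : F) = algebraMap K F (4 * a ^ 3 + 27 * b ^ 2) := by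
    rw [hA, hB]
    simp only [map_add, map_mul, map_pow, map_ofNat]
  have hR : HR2 F L A B θ := H76PP.hr2 h (by
    rw [hdF]
    exact (map_ne_zero _).2 S.dne)
  have hf := Ge_inj P hinj
  obtain ⟨f, hfd⟩ : ∃ f : ι × (F ≃ₐ[K] F) → HeightOneSpectrum (𝓞 F),
    f = fun p => gq p.2 • (P p.1).v := ⟨_, rfl⟩
  have hfa : ∀ p, f p = gq p.2 • (P p.1).v := fun p => by rw [hfd]
  rw [← hfd] at hf
  obtain ⟨t₁, ht₁⟩ : ∃ t₁ : HeightOneSpectrum (𝓞 F) → HeightOneSpectrum (𝓞 L),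
      ∀ p, t₁ (f p) = S.ρ p.2 • (P p.1).t1 :=
    ⟨Function.extend f (fun p => S.ρ p.2 • (P p.1).t1) (fun _ => (P i0).t1),
      fun p => hf.extend_apply _ _ p⟩
  obtain ⟨t₂, ht₂⟩ : ∃ t₂ : HeightOneSpectrum (𝓞 F) → HeightOneSpectrum (𝓞 L),
      ∀ p, t₂ (f p) = S.ρ p.2 • (P p.1).t2 :=
    ⟨Function.extend f (fun p => S.ρ p.2 • (P p.1).t2) (fun _ => (P i0).t2),
      fun p => hf.extend_apply _ _ p⟩
  obtain ⟨W, _, hW⟩ := exists_YG S hok.ne Sg (Finset.univ.image fun i => (P i).q)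
  have hxy : S.Y D Sg (Finset.univ.image fun i => (P i).q) (x + y) :=
    (hW _).1 (W.add_mem ((hW _).2 hx) ((hW _).2 hy))
  have hrec := H76OD.rec_T2 h hR (T := Finset.univ.image f) (t₁ := t₁) (t₂ := t₂) (c := x)
    (c' := y) (by
      intro v hv
      obtain ⟨p, _, rfl⟩ := Finset.mem_image.1 hv
      rw [hfa, H38T1.oddP_smul]
      exact ((P p.1).odd hok.two).1) (by
      intro v hv h1
      obtain ⟨p, _, rfl⟩ := Finset.mem_image.1 hv
      have hq : dn K (f p) ∉ Sg := by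
        rw [hfa, dn_gq]
        exact (P p.1).out
      have h3 : H76PP.dsc A B ∈ (f p).asIdeal := Ideal.pow_le_self two_ne_zero h1
      have h4 := ((f p).valuation_lt_one_iff_mem (K := F) (H76PP.dsc A B)).2 h3
      have h5 : ((H76PP.dsc A B : 𝓞 F) : F) = 4 * (A : F) ^ 3 + 27 * (B : F) ^ 2 := by
        unfold H76PP.dsc
        simp only [map_add, map_mul, map_pow, map_ofNat]
      have h6 : (f p).valuation F ((H76PP.dsc A B : 𝓞 F) : F) < 1 := h4
      rw [h5, hdF, H76PP.val_one (hok.dis _ hq)] at h6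
      exact lt_irrefl _ h6) (by
      intro v hv
      obtain ⟨p, _, rfl⟩ := Finset.mem_image.1 hv
      rw [ht₁, ht₂, hfa, hA]
      exact Ge_TwT (P p.1) p.2) hx.hh hy.hh (by
      intro v hv
      rw [hfd] at hv
      exact ⟨Ge_con hok P h hA hB hx hv, Ge_con hok P h hA hB hy hv,
        Ge_con hok P h hA hB hxy hv⟩) (by
      intro s
      exact ⟨Ge_conR hok h hA hB hx s, Ge_conR hok h hA hB hy s, Ge_conR hok h hA hB hxy s⟩)
  rw [Finset.sum_image (fun p _ p' _ hp => hf hp), Fintype.sum_prod_type] at hrec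
  rw [← hrec]
  refine Finset.sum_congr rfl fun i _ => Finset.sum_congr rfl fun g _ => ?_
  have e1 := Ge_uu (P i) hok.two g hx.hh
  have e2 := Ge_uu (P i) hok.two g hy.hh
  rw [ht₁, ht₂, hA]
  change _ = eo (S.ρ g • (P i).t2) x * H76OD.uu F (algebraMap K F a) θ (S.ρ g • (P i).t1)
    (S.ρ g • (P i).t2) y + H76OD.uu F (algebraMap K F a) θ (S.ρ g • (P i).t1)
    (S.ρ g • (P i).t2) x * eo (S.ρ g • (P i).t2) y
  rw [e1.1, e1.2, e2.1, e2.2]

theorem rec_R {D : K} (hok : S.Ok D Sg) {ι : Type} [Fintype ι] (P : ι → Sp S Sg)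
    (hinj : Function.Injective fun i => (P i).q) {x y : SC L}
    (hx : S.Y D Sg (Finset.univ.image fun i => (P i).q) x)
    (hy : S.Y D Sg (Finset.univ.image fun i => (P i).q) y) :
    ∑ i, ((P i).tr x * st ((P i).fl y) + (P i).fl x * st ((P i).tr y)) = 0 := by
  let _ : Fintype (F ≃ₐ[K] F) := Fintype.ofFinite _
  refine rg_ext fun h => ?_
  have hrec := Ge_one hok P hinj hx (Y_smul S h hy)
  rw [MonoidAlgebra.coeff_zero, Finsupp.zero_apply, ← hrec, MonoidAlgebra.coeff_sum,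
    Finsupp.finsetSum_apply]
  refine Finset.sum_congr rfl fun i _ => ?_
  rw [MonoidAlgebra.coeff_add, Finsupp.add_apply, coeff_mul, coeff_mul, ← Finset.sum_add_distrib]
  refine Finset.sum_congr rfl fun g _ => ?_
  rw [coeff_st, coeff_st, mul_inv_rev, inv_inv, (P i).fl_smul, (P i).tr_smul,
    coeff_single_mul, coeff_single_mul]

end H88OD
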