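import Pool.Agent.H88.OD.Gr
import Pool.Agent.H88.OD.Ge

/-!
ROW Ha (project MP_78d38b_OD, about 150 lines): the case `F = K`.

rg_cases: `G` has one element, so `RG G` has two elements, determined by the coefficient at `1` (`rg_ext`); rg_st: `st x = x`; rg_comm.
sub_aut: `Subsingleton (K ≃ₐ[K] K)`: `g x = g (algebraMap K K x) = x`.
dn_self: the prime of `K` below `v` (for the trivial extension `K / K`) is `v`: `v.asIdeal.under (𝓞 K) = v.asIdeal` (`Algebra.algebraMap_self`, the map `𝓞 K → 𝓞 K` is the identity: `Ideal.comap_id`).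
Sp_eq: `P.v = P.q = P'.q = P'.v`; `P.t1, P.t2` and `P'.t1, P'.t2` are the two places of `L` above `v` (`P.tw.only`, `dn1`, `dn2`, `ne`); `t1 ≠ t2'`: by `res1` at `t1` (applied to `y = θ`, which is integral: `S.cub.root`, or: `θ` is a root of `X^3 + a X + b` with `a, b` integral) there is `x ∈ K` integral at `v` with `t1.valuation (θ - x) < 1`, but `unit2` for `P'` says `t2'.valuation (x - θ) = 1`. So `t1 = t1'`, `t2 = t2'`, and `P = P'` (structure eta, proof irrelevance).
-/

set_option autoImplicit false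
set_option linter.unusedSectionVars false
open scoped Classical

open WithZero NumberField IsDedekindDomain H38RT
open H38T1 (SC sc scu rep eo la si OddP)
open H76PP (Cub LC ev scm dn)
open H76MQ (TwT)

namespace H88OD

section Group

variable {G : Type} [Group G] [Finite G] [Subsingleton G]

theorem rg_cases (x : RG G) : x = 0 ∨ x = 1 := by
  have h1 : ∀ z : ZMod 2, z = 0 ∨ z = 1 := by decide
  rcases h1 (x.coeff 1) with h | h
  · left
    refine rg_ext fun g => ?_
    rw [Subsingleton.elim g 1, h]
    rfl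
  · right
    refine rg_ext fun g => ?_
    have h2 : (1 : RG G) = MonoidAlgebra.single 1 1 := rfl
    rw [Subsingleton.elim g 1, h, h2, MonoidAlgebra.coeff_single, Finsupp.single_apply, if_pos rfl]

theorem rg_st (x : RG G) : st x = x := by
  refine rg_ext fun g => ?_
  rw [coeff_st, Subsingleton.elim g⁻¹ g]

theorem rg_comm (x y : RG G) : x * y = y * x := by
  rcases rg_cases x with h | h <;> rcases rg_cases y with h' | h' <;> rw [h, h']
  · rw [zero_mul, mul_zero]
  · rw [zero_mul, mul_zero]

end Group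

instance sub_aut {K : Type} [Field K] : Subsingleton (K ≃ₐ[K] K) := by
  refine ⟨fun f g => AlgEquiv.ext fun x => ?_⟩
  have h1 := f.commutes x
  have h2 := g.commutes x
  exact h1.trans h2.symm

theorem dn_self {K : Type} [Field K] [NumberField K] (v : HeightOneSpectrum (𝓞 K)) :
    dn K v = v := by
  have h : algebraMap (𝓞 K) (𝓞 K) = RingHom.id (𝓞 K) := by
    ext x
    rfl
  apply HeightOneSpectrum.ext
  change v.asIdeal.comap (algebraMap (𝓞 K) (𝓞 K)) = v.asIdeal
  rw [h, Ideal.comap_id]

variable {K L : Type} [Field K] [NumberField K] [Field L]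
  [NumberField L] [Algebra K L] {a b : K} {θ : L} {S : Ext K K L a b θ}
  {Sg : Finset (HeightOneSpectrum (𝓞 K))}

private theorem Ha_int (S : Ext K K L a b θ) (w : HeightOneSpectrum (𝓞 L)) :
    w.valuation L θ ≤ 1 := by
  have hwa : w.valuation L (algebraMap K L a) ≤ 1 := H76PP.val_le (S.ha _)
  have hwb : w.valuation L (algebraMap K L b) ≤ 1 := H76PP.val_le (S.hb _)
  by_contra hcon
  rw [not_le] at hcon
  have h0 : 0 < w.valuation L θ := lt_trans zero_lt_one hcon
  have hr : θ ^ 3 + algebraMap K L a * θ + algebraMap K L b = 0 := S.cub.root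
  have e1 : θ ^ 3 = -(algebraMap K L a * θ + algebraMap K L b) := by linear_combination hr
  have e2 : w.valuation L θ ^ 3 ≤ w.valuation L θ := by
    rw [← map_pow, e1, Valuation.map_neg]
    refine (w.valuation L).map_add_le ?_ (hwb.trans hcon.le)
    rw [map_mul]
    exact mul_le_of_le_one_left' hwa
  have e3 : w.valuation L θ < w.valuation L θ ^ 3 := by
    calc w.valuation L θ = w.valuation L θ ^ 1 := (pow_one _).symm
      _ < w.valuation L θ ^ 3 := pow_lt_pow_right₀ hcon (by norm_num)
  exact absurd e2 (not_le.2 e3)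

private theorem Ha_ne {v : HeightOneSpectrum (𝓞 K)} {t1 t2 s1 s2 : HeightOneSpectrum (𝓞 L)}
    (S : Ext K K L a b θ)
    (h1 : TwT K (algebraMap K K a) θ v t1 t2) (h2 : TwT K (algebraMap K K a) θ v s1 s2) :
    t1 = s1 ∧ t2 = s2 := by
  have key : ∀ {t1 t2 s1 s2 : HeightOneSpectrum (𝓞 L)},
      TwT K (algebraMap K K a) θ v t1 t2 → TwT K (algebraMap K K a) θ v s1 s2 → t1 ≠ s2 := by
    intro t1 t2 s1 s2 h1 h2 e
    obtain ⟨x, hx, hxy⟩ := h1.res1 θ (Ha_int S t1)
    have h3 := h2.unit2 x hx
    rw [← e, Valuation.map_sub_swap] at h3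
    rw [h3] at hxy
    exact lt_irrefl _ hxy
  have e1 : t1 = s1 := by
    rcases h2.only t1 h1.dn1 with h | h
    · exact h
    · exact absurd h (key h1 h2)
  refine ⟨e1, ?_⟩
  rcases h2.only t2 h1.dn2 with h | h
  · exact absurd (h.trans e1.symm) h1.ne.symm
  · exact h

theorem Sp_eq {P P' : Sp S Sg} (h : P.q = P'.q) : P = P' := by
  have hv : P.v = P'.v := by
    have h1 : dn K P.v = dn K P'.v := h
    rwa [dn_self, dn_self] at h1
  obtain ⟨v, t1, t2, out, tw, fr⟩ := P
  obtain ⟨v', s1, s2, out', tw', fr'⟩ := P'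
  change v = v' at hv
  subst hv
  obtain ⟨e1, e2⟩ := Ha_ne S tw tw'
  subst e1
  subst e2
  rfl

/-- The product of two or three or four different primes (the reciprocity law with a `Finset` of special primes). -/
theorem rec_fin {D : K} (hok : S.Ok D Sg) (T : Finset (Sp S Sg)) {x y : SC L}
    (hx : S.Y D Sg (T.image Sp.q) x) (hy : S.Y D Sg (T.image Sp.q) y) :
    ∑ P ∈ T, (P.tr x * P.fl y + P.fl x * P.tr y) = 0 := by
  have himg : (Finset.univ.image fun i : T => (i : Sp S Sg).q) = T.image Sp.q := by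
    ext v
    simp only [Finset.mem_image, Finset.mem_univ, true_and, Subtype.exists, exists_prop]
  have hinj : Function.Injective fun i : T => (i : Sp S Sg).q := fun i j hij =>
    Subtype.ext (Sp_eq hij)
  have h := rec_R hok (fun i : T => (i : Sp S Sg)) hinj (x := x) (y := y)
    (by rw [himg]; exact hx) (by rw [himg]; exact hy)
  rw [← Finset.sum_coe_sort]
  rw [← h]
  refine Finset.sum_congr rfl fun i _ => ?_
  rw [rg_st, rg_st]

/-- The reciprocity law for classes with a common set of primes. -/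
theorem Y_mono {D : K} {T T' : Finset (HeightOneSpectrum (𝓞 K))} (h : T ⊆ T') {c : SC L}
    (hc : S.Y D Sg T c) : S.Y D Sg T' c :=
  ⟨hc.hh, hc.fin, hc.inf, fun w h1 h2 => hc.ev w h1 fun h3 => h2 (h h3)⟩

end H88OD
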