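import Mathlib

/-!
The group algebra of a finite group over the field with two elements (project MP_78d38b_OD, no row).
-/

set_option autoImplicit false
set_option linter.unusedSectionVars false
open scoped Classical

namespace H88OD

/-- The group algebra. -/
abbrev RG (G : Type) [Group G] : Type := MonoidAlgebra (ZMod 2) G

section Basic

variable {G : Type} [Group G]

lemma rg_ext {x y : RG G} (h : ∀ g : G, x.coeff g = y.coeff g) : x = y :=
  MonoidAlgebra.coeff_injective (Finsupp.ext h)

lemma rg_two (x : RG G) : x + x = 0 := by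
  refine rg_ext fun g => ?_
  rw [MonoidAlgebra.coeff_add, Finsupp.add_apply, CharTwo.add_self_eq_zero]
  rfl

/-- The involution `g ↦ g⁻¹`. -/
noncomputable def st : RG G →+ RG G where
  toFun x := .ofCoeff (x.coeff.mapDomain fun g => g⁻¹)
  map_zero' := by
    rw [MonoidAlgebra.coeff_zero, Finsupp.mapDomain_zero, MonoidAlgebra.ofCoeff_zero]
  map_add' x y := by
    rw [MonoidAlgebra.coeff_add, Finsupp.mapDomain_add, MonoidAlgebra.ofCoeff_add]

lemma st_single (g : G) (r : ZMod 2) :
    st (MonoidAlgebra.single g r) = MonoidAlgebra.single g⁻¹ r := by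
  change (MonoidAlgebra.ofCoeff (Finsupp.mapDomain (fun g => g⁻¹) (Finsupp.single g r)) : RG G) = _
  rw [Finsupp.mapDomain_single]
  rfl

lemma coeff_st (x : RG G) (g : G) : (st x).coeff g = x.coeff g⁻¹ := by
  change (Finsupp.mapDomain (fun g => g⁻¹) x.coeff) g = _
  have h : Function.Injective (fun g : G => g⁻¹) := inv_injective
  conv_lhs => rw [← inv_inv g]
  exact Finsupp.mapDomain_apply h x.coeff g⁻¹

lemma st_st (x : RG G) : st (st x) = x := by
  refine rg_ext fun g => ?_
  rw [coeff_st, coeff_st, inv_inv]

lemma st_one : st (1 : RG G) = 1 := by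
  have h : (1 : RG G) = MonoidAlgebra.single 1 1 := rfl
  rw [h, st_single, inv_one]

lemma st_inj {x y : RG G} (h : st x = st y) : x = y := by
  rw [← st_st x, h, st_st]

lemma st_mul (x y : RG G) : st (x * y) = st y * st x := by
  have h1 : ∀ (g : G) (r : ZMod 2) (y : RG G), st (MonoidAlgebra.single g r * y) =
      st y * MonoidAlgebra.single g⁻¹ r := by
    intro g r y
    refine MonoidAlgebra.induction_linear y ?_ ?_ ?_
    · rw [mul_zero, map_zero, zero_mul]
    · intro y y' h h'
      rw [mul_add, map_add, h, h', map_add, add_mul]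
    · intro g' r'
      rw [MonoidAlgebra.single_mul_single, st_single, st_single,
        MonoidAlgebra.single_mul_single, mul_inv_rev, mul_comm r r']
  refine MonoidAlgebra.induction_linear x ?_ ?_ ?_
  · rw [zero_mul, map_zero, mul_zero]
  · intro x x' h h'
    rw [add_mul, map_add, h, h', map_add, mul_add]
  · intro g r
    rw [h1, st_single]

lemma coeff_single_mul (h : G) (x : RG G) (g : G) :
    ((MonoidAlgebra.single h 1 : RG G) * x).coeff g = x.coeff (h⁻¹ * g) := by
  refine MonoidAlgebra.induction_linear x ?_ ?_ ?_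
  · rw [mul_zero]
    rfl
  · intro y y' h1 h2
    rw [mul_add, MonoidAlgebra.coeff_add, MonoidAlgebra.coeff_add, Finsupp.add_apply,
      Finsupp.add_apply, h1, h2]
  · intro g' r
    rw [MonoidAlgebra.single_mul_single, one_mul, MonoidAlgebra.coeff_single,
      MonoidAlgebra.coeff_single, Finsupp.single_apply, Finsupp.single_apply]
    have e : h * g' = g ↔ g' = h⁻¹ * g := by
      constructor
      · rintro rfl
        group
      · rintro rfl
        group
    simp only [e]

lemma coeff_mul_single (h : G) (x : RG G) (g : G) :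
    (x * (MonoidAlgebra.single h 1 : RG G)).coeff g = x.coeff (g * h⁻¹) := by
  rw [← inv_inv g, ← coeff_st, st_mul, st_single, coeff_single_mul, coeff_st]
  group

end Basic

section Fin

variable {G : Type} [Group G] [Finite G]

/-- The element with given coefficients. -/
noncomputable def mk (f : G → ZMod 2) : RG G := .ofCoeff (Finsupp.equivFunOnFinite.symm f)

@[simp] lemma coeff_mk (f : G → ZMod 2) (g : G) : (mk f).coeff g = f g := rfl

/-- The sum of all group elements. -/
noncomputable def e0 (G : Type) [Group G] [Finite G] : RG G := mk fun _ => 1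

lemma coeff_mul [Fintype G] (x y : RG G) (g : G) :
    (x * y).coeff g = ∑ h : G, x.coeff h * y.coeff (h⁻¹ * g) := by
  refine MonoidAlgebra.induction_linear x ?_ ?_ ?_
  · rw [zero_mul]
    refine (Finset.sum_eq_zero fun h _ => ?_).symm
    rw [MonoidAlgebra.coeff_zero, Finsupp.zero_apply, zero_mul]
  · intro x x' h1 h2
    rw [add_mul, MonoidAlgebra.coeff_add, Finsupp.add_apply, h1, h2, ← Finset.sum_add_distrib]
    refine Finset.sum_congr rfl fun h _ => ?_
    rw [MonoidAlgebra.coeff_add, Finsupp.add_apply, add_mul]
  · intro g' r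
    have e : (MonoidAlgebra.single g' r : RG G) * y = r • ((MonoidAlgebra.single g' 1 : RG G) * y) := by
      rw [← smul_mul_assoc, MonoidAlgebra.smul_single, smul_eq_mul, mul_one]
    rw [e, Finset.sum_eq_single g']
    · rw [MonoidAlgebra.coeff_single, Finsupp.single_eq_same]
      have e2 : (r • ((MonoidAlgebra.single g' 1 : RG G) * y)).coeff g =
          r * ((MonoidAlgebra.single g' 1 : RG G) * y).coeff g := rfl
      rw [e2, coeff_single_mul]
    · intro h _ hne
      rw [MonoidAlgebra.coeff_single, Finsupp.single_apply, if_neg (Ne.symm hne), zero_mul]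
    · intro h
      exact absurd (Finset.mem_univ _) h

/-- The element of the group algebra attached to a functional. -/
noncomputable def ell {V : Type} [AddCommGroup V] [DistribMulAction G V] (φ : V →+ ZMod 2) (x : V) :
    RG G := mk fun g => φ (g⁻¹ • x)

lemma ell_add {V : Type} [AddCommGroup V] [DistribMulAction G V] (φ : V →+ ZMod 2) (x y : V) :
    ell φ (x + y) = (ell φ x + ell φ y : RG G) := by
  refine rg_ext fun g => ?_
  rw [MonoidAlgebra.coeff_add, Finsupp.add_apply]
  change φ (g⁻¹ • (x + y)) = φ (g⁻¹ • x) + φ (g⁻¹ • y)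
  rw [smul_add, map_add]

lemma ell_smul {V : Type} [AddCommGroup V] [DistribMulAction G V] (φ : V →+ ZMod 2) (h : G) (x : V) :
    ell φ (h • x) = (MonoidAlgebra.single h 1 : RG G) * ell φ x := by
  refine rg_ext fun g => ?_
  rw [coeff_single_mul]
  change φ (g⁻¹ • h • x) = φ ((h⁻¹ * g)⁻¹ • x)
  rw [mul_inv_rev, inv_inv, mul_smul]

end Fin

end H88OD
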