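import Pool.Agent.H76.OD.Ch

/-!
Project MP_78d38b_OD: existence of special primes with prescribed functional (Chebotarev).
-/

set_option autoImplicit false
set_option linter.unusedSectionVars false
open scoped Classical

open WithZero NumberField IsDedekindDomain H38RT
open H38T1 (SC sc scu rep eo la si OddP)
open H76PP (Cub LC ev scm dn)

namespace H88OD

/-- The support of a class is finite. -/
theorem fin_supp {L : Type} [Field L] [NumberField L] (c : SC L) :
    {w : HeightOneSpectrum (𝓞 L) | eo w c ≠ 0}.Finite := by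
  obtain ⟨d, hd, rfl⟩ := H76OD.exists_irep c
  refine (H30MQ.fin_mem hd).subset fun w hw => ?_
  by_contra h
  exact hw (H30MQ.eo_unit hd h)

variable {K F L : Type} [Field K] [NumberField K] [Field F] [NumberField F] [Field L]
  [NumberField L] [Algebra K F] [Algebra F L] {a b : K} {θ : L}

theorem exists_sp (S : Ext K F L a b θ) (Sg : Finset (HeightOneSpectrum (𝓞 K)))
    (X : Finset (HeightOneSpectrum (𝓞 K))) (Z : AddSubgroup (SC L)) (hfin : Finite Z)
    (hZ : ∀ c ∈ Z, c ∈ H30ZO.HH F L) (hG : ∀ (g : F ≃ₐ[K] F), ∀ c ∈ Z, S.ρ g • c ∈ Z)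
    (φ : SC L →+ ZMod 2) :
    ∃ P : Sp S Sg, P.q ∉ X ∧ ∀ c ∈ Z, P.tr c = 0 ∧ P.fl c = S.el φ c := by
  have hZf : (Z : Set (SC L)).Finite := Set.toFinite _
  have hA : ((X : Set (HeightOneSpectrum (𝓞 K))) ∪ ⋃ c ∈ (Z : Set (SC L)),
      (fun w : HeightOneSpectrum (𝓞 L) => dn K (dn F w)) '' {w | eo w c ≠ 0}).Finite :=
    X.finite_toSet.union (hZf.biUnion fun c _ => (fin_supp c).image _)
  obtain ⟨P, hP, hla⟩ := H76OD.exists_sp S Sg (Y := (Z : Set (SC L))) hZf (fun c hc => hZ c hc) φ hA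
  have hPX : P.q ∉ X := fun h => hP (Or.inl h)
  have heo : ∀ c ∈ Z, eo P.t2 c = 0 := by
    intro c hc
    by_contra h
    refine hP (Or.inr (Set.mem_biUnion (show c ∈ (Z : Set (SC L)) from hc) ⟨P.t2, h, ?_⟩))
    change dn K (dn F P.t2) = dn K P.v
    rw [P.tw.dn2]
  refine ⟨P, hPX, fun c hc => ⟨?_, ?_⟩⟩
  · refine rg_ext fun g => ?_
    change eo P.t2 (S.ρ g⁻¹ • c) = 0
    exact heo _ (hG _ c hc)
  · refine rg_ext fun g => ?_
    change la P.t1 (S.ρ g⁻¹ • c) + P.nu * eo P.t2 (S.ρ g⁻¹ • c) = φ (S.ρ g⁻¹ • c)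
    rw [heo _ (hG _ c hc), mul_zero, add_zero]
    exact hla _ (hG _ c hc)

end H88OD
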