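import Pool.Agent.H30.MQ.Cn

/-!
ROW Ca (project MP_78d38b_OD, about 200 lines): places of absolute degree one with prescribed Legendre symbols.

PROOF. `exists_fieldL D` (Pool/Agent/H30/MQ/Cg.lean): a Galois extension `N0 / M` with square roots `s d` of the `d ∈ D`. `Sp_big N0` (Pool/Agent/H30/PN/Sp.lean): `N / ℚ` Galois with `i : N0 →+* N`. `Algebra M N := (i.comp (algebraMap M N0)).toAlgebra`, `IsScalarTower ℚ M N` (automatic for `ℚ`), `IsGalois M N` (`IsGalois.tower_top_of_isGalois ℚ M N`). `s' d := i (s d)`.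
`exists_sigma D hD s' hs' φ`: `σ : N ≃ₐ[M] N` with `σ (s' d) = ± s' d` according to `φ (sc d)`. Let `σQ := σ.restrictScalars ℚ`. `frob_infK σQ` (Pool/Agent/H30/MQ/Ch.lean with `K := ℚ`, `L := N`): infinitely many places `v` of `ℚ` with `g : N ≃ₐ[ℚ] N`, `zpowers g = zpowers σQ`, `IsFr ℚ N v g`.
For such `v`: `W` a place of `N` above `v` with `g x ≡ x ^ #(𝓞 ℚ ⧸ v)` modulo `W` for all `x ∈ 𝓞 N`; the residue field of `v` has a prime number `p` of elements (`𝓞 ℚ ≃ ℤ`; or work with `int_of_frob`: an integer `x` of `N` with `g • x = x` is congruent modulo `W` to an element of `𝓞 ℚ`, and every element of `𝓞 ℚ` is an integer: `Rat.ringOfIntegersEquiv`).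
Put `w := dn M W` (the place of `M` below `W`: `W.asIdeal.under (𝓞 M)`, see `H76PP.dn`). `g ∈ zpowers σQ` fixes `M`: `g x = x` for `x ∈ M`. So every `x ∈ 𝓞 M` is congruent to an integer `n : ℤ` modulo `W`, hence modulo `w`. The residue fields of `w` and of `v` have the same number of elements.
`g' : N ≃ₐ[M] N` with `g'.restrictScalars ℚ = g` (`AlgEquiv.ofRingEquiv` or the power of `σ`: `g = σQ ^ k`, `g' := σ ^ k`; `zpowers g' = zpowers σ` follows because `restrictScalars` is injective). `IsFr M N w g'`: the same `W`, `IsArithFrobAt (𝓞 M) g' W.asIdeal` is `g' x - x ^ #(𝓞 M ⧸ w) ∈ W` and the cardinalities agree.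
`same_sign` and `la_of_frob` (Cg.lean, Ch.lean) give `la w (sc d) = φ (sc d)` if `2 ∉ w`, `d ∉ w`. Infinitely many `w`: the map `v ↦ w` is injective on the set (`v = dn ℚ w`): if the set of the `w` were finite, the set of the `v` would be finite. Remove the finitely many `w` with `2 ∈ w` or `d ∈ w` (`fin_mem`).
-/

set_option autoImplicit false
set_option linter.unusedSectionVars false
open scoped Classical

open NumberField IsDedekindDomain Filter Topology Pool.Agent.H42.PC H38RT WithZero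
open H38T1 (SC sc rep eo la OddP)

namespace H88OD

theorem Ca_pow {M N : Type} [Field M] [NumberField M] [Field N] [NumberField N] [Algebra M N]
    (σ : N ≃ₐ[M] N) (j : ℕ) (x : N) : ((σ.restrictScalars ℚ) ^ j) x = (σ ^ j) x := by
  induction j generalizing x with
  | zero => rfl
  | succ j ih =>
    rw [pow_succ, pow_succ, AlgEquiv.mul_apply, AlgEquiv.mul_apply, ih]
    rfl

theorem Ca_card {M : Type} [Field M] [NumberField M] {p : ℕ} (hp : p.Prime)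
    (w : HeightOneSpectrum (𝓞 M)) (hpw : (p : 𝓞 M) ∈ w.asIdeal)
    (hw : ∀ x : 𝓞 M, ∃ n : ℤ, x - (n : 𝓞 M) ∈ w.asIdeal) : Nat.card (𝓞 M ⧸ w.asIdeal) = p := by
  have : Fact p.Prime := ⟨hp⟩
  have hmax : w.asIdeal.IsMaximal := w.isMaximal
  let _ : Field (𝓞 M ⧸ w.asIdeal) := Ideal.Quotient.field w.asIdeal
  have hchar : CharP (𝓞 M ⧸ w.asIdeal) p := by
    refine (CharP.charP_iff_prime_eq_zero hp).2 ?_
    have h1 := Ideal.Quotient.eq_zero_iff_mem.2 hpw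
    rwa [map_natCast] at h1
  obtain ⟨f, hf⟩ : ∃ f : ZMod p →+* (𝓞 M ⧸ w.asIdeal), f = ZMod.castHom dvd_rfl _ := ⟨_, rfl⟩
  have hinj : Function.Injective f := f.injective
  have hsurj : Function.Surjective f := by
    intro y
    obtain ⟨x, rfl⟩ := Ideal.Quotient.mk_surjective y
    obtain ⟨n, hn⟩ := hw x
    refine ⟨(n : ZMod p), ?_⟩
    have h1 := Ideal.Quotient.eq_zero_iff_mem.2 hn
    rw [map_sub, map_intCast, sub_eq_zero] at h1
    rw [map_intCast, h1]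
  rw [← Nat.card_congr (Equiv.ofBijective f ⟨hinj, hsurj⟩), Nat.card_zmod]

/-- one prime -/
theorem Ca_one {M N : Type} [Field M] [NumberField M] [Field N] [NumberField N] [Algebra M N]
    [IsGalois ℚ N] [IsGalois M N] (σ : N ≃ₐ[M] N) {p : ℕ} (hp : p.Prime) {j : ℕ}
    (hj : j.Coprime (orderOf (σ.restrictScalars ℚ))) (W : HeightOneSpectrum (𝓞 N))
    (hpW : (p : 𝓞 N) ∈ W.asIdeal)
    (hW : ∀ x : 𝓞 N, ((σ.restrictScalars ℚ) ^ j) • x - x ^ p ∈ W.asIdeal) :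
    ∃ w : HeightOneSpectrum (𝓞 M), (p : 𝓞 M) ∈ w.asIdeal ∧
      (∀ x : 𝓞 M, ∃ n : ℤ, x - (n : 𝓞 M) ∈ w.asIdeal) ∧
      ∃ g : N ≃ₐ[M] N, Subgroup.zpowers g = Subgroup.zpowers σ ∧ IsFr M N w g := by
  have hwd : ∀ x : 𝓞 M, x ∈ (H76PP.dn M W).asIdeal ↔ algebraMap (𝓞 M) (𝓞 N) x ∈ W.asIdeal :=
    fun x => Iff.rfl
  have hpw : (p : 𝓞 M) ∈ (H76PP.dn M W).asIdeal := by
    rw [hwd, map_natCast]
    exact hpW
  have hsm : ∀ x : 𝓞 N, ((σ.restrictScalars ℚ) ^ j) • x = (σ ^ j) • x := by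
    intro x
    apply RingOfIntegers.coe_injective
    exact Ca_pow σ j (x : N)
  have hint : ∀ x : 𝓞 M, ∃ n : ℤ, x - (n : 𝓞 M) ∈ (H76PP.dn M W).asIdeal := by
    intro x
    have h1 := hW (algebraMap (𝓞 M) (𝓞 N) x)
    have h2 : ((σ.restrictScalars ℚ) ^ j) • (algebraMap (𝓞 M) (𝓞 N) x) = algebraMap (𝓞 M) (𝓞 N) x := by
      rw [hsm]
      apply RingOfIntegers.coe_injective
      exact (σ ^ j).commutes (x : M)
    rw [h2] at h1
    obtain ⟨n, hn⟩ := H30PN.Sp_int W hp hpW h1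
    refine ⟨n, ?_⟩
    rw [hwd, map_sub, map_intCast, ← neg_sub]
    exact W.asIdeal.neg_mem hn
  refine ⟨H76PP.dn M W, hpw, hint, σ ^ j, ?_, W, ⟨rfl⟩, ?_⟩
  · obtain ⟨m, hm⟩ := exists_pow_eq_self_of_coprime hj
    have h1 : (σ ^ j) ^ m = σ := by
      apply AlgEquiv.ext
      intro x
      have h2 : ((σ.restrictScalars ℚ ^ j) ^ m) x = (σ.restrictScalars ℚ) x := by rw [hm]
      rw [← pow_mul, Ca_pow] at h2
      rw [← pow_mul]
      exact h2
    apply le_antisymm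
    · rw [Subgroup.zpowers_le]
      exact Subgroup.npow_mem_zpowers σ j
    · rw [Subgroup.zpowers_le]
      have h2 := Subgroup.npow_mem_zpowers (σ ^ j) m
      rw [h1] at h2
      exact h2
  · intro x
    have hc : Nat.card (𝓞 M ⧸ W.asIdeal.under (𝓞 M)) = p := Ca_card hp (H76PP.dn M W) hpw hint
    rw [hc]
    have h1 := hW x
    rw [hsm] at h1
    exact h1

theorem exists_deg1 (M : Type) [Field M] [NumberField M] (D : Finset (𝓞 M)) (hD : ∀ d ∈ D, d ≠ 0)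
    (φ : SC M →+ ZMod 2) :
    {w : HeightOneSpectrum (𝓞 M) | (2 : 𝓞 M) ∉ w.asIdeal ∧
      (∀ x : 𝓞 M, ∃ n : ℤ, x - (n : 𝓞 M) ∈ w.asIdeal) ∧
      ∀ d ∈ D, d ∉ w.asIdeal ∧ la w (sc (d : M)) = φ (sc (d : M))}.Infinite := by
  obtain ⟨N0, _, _, _, _, s, hs⟩ := H30MQ.exists_fieldL D
  obtain ⟨N, _, _, _, ⟨i⟩⟩ := H30PN.Sp_big N0
  let hA : Algebra M N := (i.comp (algebraMap M N0)).toAlgebra
  have hT : IsScalarTower ℚ M N := inferInstance
  have hG : IsGalois M N := IsGalois.tower_top_of_isGalois ℚ M N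
  have hs' : ∀ d ∈ D, (fun d => i (s d)) d ^ 2 = algebraMap M N (d : M) := by
    intro d hd
    show i (s d) ^ 2 = i (algebraMap M N0 (d : M))
    rw [← map_pow, hs d hd]
  obtain ⟨σ, hσ⟩ := H30MQ.exists_sigma D hD (fun d => i (s d)) hs' φ
  have hinf := H93T1.frob_inf (σ.restrictScalars ℚ)
  obtain ⟨S, hS⟩ : ∃ S : Set ℕ, S = {p : ℕ | p.Prime ∧ ∃ (j : ℕ) (w : HeightOneSpectrum (𝓞 N)),
      j.Coprime (orderOf (σ.restrictScalars ℚ)) ∧ (p : 𝓞 N) ∈ w.asIdeal ∧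
      ∀ x : 𝓞 N, ((σ.restrictScalars ℚ) ^ j) • x - x ^ p ∈ w.asIdeal} := ⟨_, rfl⟩
  rw [← hS] at hinf
  have hv : ∀ p ∈ S, ∃ w : HeightOneSpectrum (𝓞 M), (p : 𝓞 M) ∈ w.asIdeal ∧
      (∀ x : 𝓞 M, ∃ n : ℤ, x - (n : 𝓞 M) ∈ w.asIdeal) ∧
      ∃ g : N ≃ₐ[M] N, Subgroup.zpowers g = Subgroup.zpowers σ ∧ IsFr M N w g := by
    intro p hp
    rw [hS] at hp
    obtain ⟨hp, j, W, hj, hpW, hW⟩ := hp
    exact Ca_one σ hp hj W hpW hW
  have hprime : ∀ p ∈ S, p.Prime := by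
    intro p hp
    rw [hS] at hp
    exact hp.1
  obtain ⟨p₀, hp₀⟩ := hinf.nonempty
  obtain ⟨v₀, -⟩ := hv p₀ hp₀
  have hne : Nonempty (HeightOneSpectrum (𝓞 M)) := ⟨v₀⟩
  choose! v hv1 hv2 hv3 using hv
  have hinj : Set.InjOn v S := by
    intro p hp q hq hpq
    by_contra hne
    have h1 := hv1 p hp
    have h2 := hv1 q hq
    rw [← hpq] at h2
    have hc : IsCoprime (p : ℤ) (q : ℤ) :=
      Nat.isCoprime_iff_coprime.2 ((Nat.coprime_primes (hprime p hp) (hprime q hq)).2 hne)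
    obtain ⟨x, y, hxy⟩ := hc
    have h3 : (x : 𝓞 M) * (p : 𝓞 M) + (y : 𝓞 M) * (q : 𝓞 M) = 1 := by
      have h4 := congrArg (Int.cast : ℤ → 𝓞 M) hxy
      push_cast at h4
      exact h4
    have h5 : (1 : 𝓞 M) ∈ (v p).asIdeal := by
      rw [← h3]
      exact (v p).asIdeal.add_mem ((v p).asIdeal.mul_mem_left _ h1)
        ((v p).asIdeal.mul_mem_left _ h2)
    exact (v p).isPrime.ne_top ((Ideal.eq_top_iff_one _).2 h5)
  have hbad : ({v : HeightOneSpectrum (𝓞 M) | (2 : 𝓞 M) ∈ v.asIdeal} ∪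
      ⋃ d ∈ D, {v : HeightOneSpectrum (𝓞 M) | d ∈ v.asIdeal}).Finite :=
    (H30MQ.fin_mem two_ne_zero).union
      (Set.Finite.biUnion D.finite_toSet fun d hd => H30MQ.fin_mem (hD d hd))
  refine ((hinf.image hinj).sdiff hbad).mono ?_
  rintro _ ⟨⟨p, hp, rfl⟩, hpB⟩
  have h2 : (2 : 𝓞 M) ∉ (v p).asIdeal := fun h => hpB (Or.inl h)
  refine ⟨h2, hv2 p hp, fun d hd => ?_⟩
  have hdv : d ∉ (v p).asIdeal := fun h => hpB (Or.inr (Set.mem_biUnion hd h))
  obtain ⟨g, hg, hF⟩ := hv3 p hp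
  exact ⟨hdv, H30MQ.la_of_frob hF h2 hdv (hs' d hd) (H30MQ.same_sign hg (hσ d hd))⟩

end H88OD
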