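import Pool.Agent.H88.OD.Gb
import Pool.Agent.H88.OD.Gc
import Pool.Agent.H30.OD.Card2
import Pool.Agent.H88.OD.Rc

/-!
ROW Cd (project MP_78d38b_OD, about 200 lines): lower bound for the relaxed group over `F`.  Use the STATEMENTS of Gb, Gc, `fin_above` (Rc) and `H30OD.card_tw` (Pool/Agent/H30/OD/Card2.lean).

PROOF. `SgF := {v : place of F | dn K v ∈ Sg}` and `TF := {v | dn K v ∈ T.image Sp.q}` are finite (fin_above with `L := F`: `dn F w = w` for `F / F`; or the proof of fin_above; or `H76PP.fin_dn`-like lemmas), take their Finsets; disjoint by `P.out`.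
`TF.card = Nat.card (F ≃ₐ[K] F) * T.card`: the map `(F ≃ₐ[K] F) × T → TF`, `(g, P) ↦ gq g • P.v` is well defined (`dn_gq` of Ga), onto (Sp.aboveF) and injective: `gq g • P.v = gq g' • P'.v` gives `P.q = P'.q` (dn_gq), `P = P'` (hinj), `gq (g'⁻¹ * g) • P.v = P.v` (gq is multiplicative: `map_mul`), `g = g'` (Sp.frv).
`nb F L v = 2` for `v ∈ TF`: for `v = P.v` the places above `v` are `P.t1 ≠ P.t2` (`P.tw.only`, `P.tw.dn1`, `P.tw.dn2`, `P.tw.ne`); for `v = gq g • P.v` the map `w ↦ S.ρ g • w` is a bijection from the places above `P.v` to the places above `gq g • P.v` (dn_smul of Ga), `Set.ncard_congr` or `Set.ncard_image_of_injective`.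
card_tw with `k := F`, `a := algebraMap K F a`, `b := ..`, `E := algebraMap K F D`, `Sg := SgF`, `T := TF`, `W := {c ∈ HH | S.Lv D v c for v ∈ SgF, S.Lr D s c}` (the subgroup: exists_YG minus the condition ev; take it from the proof of card_tw / exists_YG: `H30ZO.exists_WW` for every place and the infimum, or: `W := ⨅`; `S.Lv` is `Wc` with `algebraMap K F (D ^ 2 * a)`: `map_mul`, `map_pow` as in Gk_Lv of Gk.lean). h2: a place `v` with `v.valuation F 2 < 1` has `dn K v ∈ Sg` (hok.two, `H76PP.val_one`). `4 a^3 + 27 b^2 ≠ 0`: S.dne.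
`Z := US ⊓ HH` (finite) and `Y := {c // S.Y D Sg (T.image Sp.q) c}` (finite: exists_YG). `W ⊓ Z ≤ Y`: a class of `US` is even at `w` outside the set (US: the class of a unit outside; see `Pool/Agent/H24/TD/Dg.lean`, eo of such a class is zero: `mem_US`/`cls`). `Nat.card Z = Nat.card (W ⊓ Z) * W.relIndex Z` and `W.relIndex Z ≤ W.relIndex HH` (`Z ≤ HH`: `AddSubgroup.relIndex_le_of_le_right`, relIndex ≠ 0). So `2 ^ TF.card * r ≤ Nat.card Z ≤ Nat.card (W ⊓ Z) * r`, `r ≠ 0`, `2 ^ TF.card ≤ Nat.card (W ⊓ Z) ≤ Nat.card Y`.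
-/

set_option autoImplicit false
set_option linter.unusedSectionVars false
open scoped Classical

open WithZero NumberField IsDedekindDomain H38RT
open H38T1 (SC sc scu rep eo la si OddP)
open H76PP (Cub LC ev scm dn)

namespace H88OD

variable {K F L : Type} [Field K] [NumberField K] [Field F] [NumberField F] [Field L]
  [NumberField L] [Algebra K F] [Algebra F L] {a b : K} {θ : L} {S : Ext K F L a b θ}
  {Sg : Finset (HeightOneSpectrum (𝓞 K))}

/-- The number of places of `F` above a set of special primes. -/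
theorem card_TF (T : Finset (Sp S Sg)) (hinj : ∀ P ∈ T, ∀ P' ∈ T, P.q = P'.q → P = P')
    {TF : Finset (HeightOneSpectrum (𝓞 F))} (hTF : ∀ v, v ∈ TF ↔ dn K v ∈ T.image Sp.q) :
    TF.card = Nat.card (F ≃ₐ[K] F) * T.card := by
  have hmem : ∀ (g : F ≃ₐ[K] F) (P : Sp S Sg), P ∈ T → gq g • P.v ∈ TF := by
    intro g P hP
    rw [hTF, dn_gq]
    exact Finset.mem_image.2 ⟨P, hP, rfl⟩
  obtain ⟨f, hf⟩ : ∃ f : (F ≃ₐ[K] F) × T → TF, ∀ x, (f x).1 = gq x.1 • x.2.1.v :=
    ⟨fun x => ⟨gq x.1 • x.2.1.v, hmem x.1 x.2.1 x.2.2⟩, fun x => rfl⟩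
  have hb : Function.Bijective f := by
    constructor
    · rintro ⟨g, P, hP⟩ ⟨g', P', hP'⟩ h
      have h1 : gq g • P.v = gq g' • P'.v := by
        have e := congrArg Subtype.val h
        rw [hf, hf] at e
        exact e
      have h2 : P.q = P'.q := by
        have e := congrArg (dn K) h1
        rw [dn_gq, dn_gq] at e
        exact e
      have h3 := hinj P hP P' hP' h2
      subst h3
      have h4 : gq (g'⁻¹ * g) • P.v = P.v := by
        have e : gq (g'⁻¹ * g) = (gq g')⁻¹ * gq g := rfl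
        rw [e, mul_smul, h1, inv_smul_smul]
      have h6 : g = g' := (inv_mul_eq_one.1 (P.frv h4)).symm
      rw [h6]
    · rintro ⟨v, hv⟩
      obtain ⟨P, hP, hq⟩ := Finset.mem_image.1 ((hTF v).1 hv)
      obtain ⟨g, hg⟩ := P.aboveF hq.symm
      refine ⟨(g, ⟨P, hP⟩), Subtype.ext ?_⟩
      rw [hf]
      exact hg.symm
  have h := Nat.card_congr (Equiv.ofBijective f hb)
  rw [Nat.card_prod, Nat.card_eq_fintype_card (α := T), Nat.card_eq_fintype_card (α := TF),
    Fintype.card_coe, Fintype.card_coe] at h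
  exact h.symm

/-- Two places above every place of `F` above a special prime. -/
theorem nb_TF (P : Sp S Sg) {v : HeightOneSpectrum (𝓞 F)} (hv : dn K v = P.q) :
    H30ZO.nb F L v = 2 := by
  obtain ⟨g, rfl⟩ := P.aboveF hv
  unfold H30ZO.nb
  have h1 : {w : HeightOneSpectrum (𝓞 L) | dn F w = gq g • P.v} =
      {S.ρ g • P.t1, S.ρ g • P.t2} := by
    ext w
    constructor
    · intro hw
      have hw' : dn F w = gq g • P.v := hw
      have h2 : dn F ((S.ρ g)⁻¹ • w) = P.v := by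
        have h3 := dn_smul S g ((S.ρ g)⁻¹ • w)
        rw [smul_inv_smul, hw'] at h3
        exact (MulAction.injective (gq g) h3).symm
      rcases P.tw.only _ h2 with h4 | h4
      · left
        rw [← h4, smul_inv_smul]
      · right
        rw [Set.mem_singleton_iff, ← h4, smul_inv_smul]
    · intro hw
      change dn F w = gq g • P.v
      rcases hw with hw | hw
      · rw [hw, dn_smul, P.tw.dn1]
      · rw [Set.mem_singleton_iff] at hw
        rw [hw, dn_smul, P.tw.dn2]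
  rw [h1]
  exact Set.ncard_pair (fun h => P.tw.ne (MulAction.injective (S.ρ g) h))

lemma Cd_Lv (S : Ext K F L a b θ) (D : K) (v : HeightOneSpectrum (𝓞 F)) (c : SC L) :
    S.Lv D v c ↔ H30ZO.Wc (algebraMap F (v.adicCompletion F))
      ((algebraMap K F D) ^ 2 * algebraMap K F a) ((algebraMap K F D) ^ 3 * algebraMap K F b)
      (algebraMap F L (algebraMap K F D) * θ) c := by
  unfold Ext.Lv
  rw [map_mul (algebraMap K F) (D ^ 2) a, map_mul (algebraMap K F) (D ^ 3) b, map_pow, map_pow]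

lemma Cd_Lr (S : Ext K F L a b θ) (D : K) (s : F →+* ℝ) (c : SC L) :
    S.Lr D s c ↔ H30ZO.Wc s
      ((algebraMap K F D) ^ 2 * algebraMap K F a) ((algebraMap K F D) ^ 3 * algebraMap K F b)
      (algebraMap F L (algebraMap K F D) * θ) c := by
  unfold Ext.Lr
  rw [map_mul (algebraMap K F) (D ^ 2) a, map_mul (algebraMap K F) (D ^ 3) b, map_pow, map_pow]

lemma Cd_eo {X : Set (HeightOneSpectrum (𝓞 L))} {c : SC L} (hc : c ∈ H24TD.US L X)
    {w : HeightOneSpectrum (𝓞 L)} (hw : w ∉ X) : eo w c = 0 := by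
  obtain ⟨u, hu, rfl⟩ := AddSubgroup.mem_map.1 hc
  rw [H24TD.cls_eq, H38T1.eo_sc (Units.ne_zero _)]
  have h1 := H24TD.mem_SUa.1 hu w hw
  unfold ord
  rw [h1, ← exp_zero, log_exp]
  simp

theorem card_ge {D : K} (hok : S.Ok D Sg) (T : Finset (Sp S Sg))
    (hinj : ∀ P ∈ T, ∀ P' ∈ T, P.q = P'.q → P = P') :
    2 ^ (Nat.card (F ≃ₐ[K] F) * T.card) ≤
      Nat.card {c : SC L // S.Y D Sg (T.image Sp.q) c} := by
  obtain ⟨SF, hSF⟩ : ∃ SF : Finset (HeightOneSpectrum (𝓞 F)), ∀ v, v ∈ SF ↔ dn K v ∈ Sg := by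
    have h1 : {v : HeightOneSpectrum (𝓞 F) | dn K v ∈ (Sg : Set _)}.Finite :=
      Gb_fin (Finset.finite_toSet _)
    refine ⟨h1.toFinset, fun v => ?_⟩
    rw [Set.Finite.mem_toFinset]
    exact Finset.mem_coe
  obtain ⟨TF, hTF⟩ : ∃ TF : Finset (HeightOneSpectrum (𝓞 F)),
      ∀ v, v ∈ TF ↔ dn K v ∈ T.image Sp.q := by
    have h1 : {v : HeightOneSpectrum (𝓞 F) | dn K v ∈ ((T.image Sp.q : Finset _) : Set _)}.Finite :=
      Gb_fin (Finset.finite_toSet _)
    refine ⟨h1.toFinset, fun v => ?_⟩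
    rw [Set.Finite.mem_toFinset]
    exact Finset.mem_coe
  rw [← card_TF T hinj hTF]
  choose Wv hWv using fun v => Gb_Wv S hok.ne v
  choose Ws hWs using fun s => Gb_Ws S hok.ne s
  obtain ⟨W, hWd⟩ : ∃ W : AddSubgroup (SC L), W = H30ZO.HH F L ⊓
      ((⨅ v : {v : HeightOneSpectrum (𝓞 F) // v ∈ SF}, Wv v) ⊓ (⨅ s, Ws s)) := ⟨_, rfl⟩
  have hW1 : ∀ c, c ∈ W ↔ c ∈ H30ZO.HH F L ∧ (∀ v ∈ SF, S.Lv D v c) ∧
      ∀ s : F →+* ℝ, S.Lr D s c := by
    intro c
    rw [hWd, AddSubgroup.mem_inf, AddSubgroup.mem_inf, AddSubgroup.mem_iInf, AddSubgroup.mem_iInf]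
    constructor
    · rintro ⟨h1, h2, h3⟩
      exact ⟨h1, fun v hv => ((hWv v c).1 (h2 ⟨v, hv⟩)).2, fun s => ((hWs s c).1 (h3 s)).2⟩
    · rintro ⟨h1, h2, h3⟩
      exact ⟨h1, fun v => (hWv v c).2 ⟨h1, h2 v v.2⟩, fun s => (hWs s c).2 ⟨h1, h3 s⟩⟩
  have hdisj : Disjoint SF TF := by
    rw [Finset.disjoint_left]
    intro v hv hv'
    obtain ⟨P, hP, hq⟩ := Finset.mem_image.1 ((hTF v).1 hv')
    have h1 := (hSF v).1 hv
    rw [← hq] at h1
    exact P.out h1
  have hT2 : ∀ v ∈ TF, H30ZO.nb F L v = 2 := by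
    intro v hv
    obtain ⟨P, hP, hq⟩ := Finset.mem_image.1 ((hTF v).1 hv)
    exact nb_TF P hq.symm
  have h2 : ∀ v : HeightOneSpectrum (𝓞 F), v.valuation F 2 < 1 → v ∈ SF := by
    intro v hv
    rw [hSF]
    by_contra hc
    have h3 := H76PP.val_one (w := v) (hok.two _ hc)
    rw [map_ofNat] at h3
    rw [h3] at hv
    exact lt_irrefl _ hv
  obtain ⟨hr, hle, hfin⟩ := H30OD.card_tw S.cub (fun v => Gb_val (S.ha _)) (fun v => Gb_val (S.hb _))
    (Gb_dF S) (E := algebraMap K F D) ((map_ne_zero _).2 hok.ne) hdisj h2 hT2 (W := W) (by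
      intro c
      rw [hW1 c]
      refine and_congr_right fun _ => and_congr ?_ ?_
      · exact forall₂_congr fun v _ => Cd_Lv S D v c
      · exact forall_congr' fun s => Cd_Lr S D s c)
  obtain ⟨Z, hZ⟩ : ∃ Z : AddSubgroup (SC L),
      Z = H24TD.US L {w : HeightOneSpectrum (𝓞 L) | dn F w ∈ SF ∪ TF} ⊓ H30ZO.HH F L := ⟨_, rfl⟩
  rw [← hZ] at hle hfin
  obtain ⟨Yg, hYfin, hY⟩ := exists_YG S hok.ne Sg (T.image Sp.q)
  have hfinY : Finite {c : SC L // S.Y D Sg (T.image Sp.q) c} := by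
    have h3 : (Yg : Set (SC L)).Finite := Set.toFinite _
    have h4 : {c : SC L | S.Y D Sg (T.image Sp.q) c}.Finite :=
      h3.subset fun c hc => (hY c).2 hc
    exact h4.to_subtype
  have hWZ : ∀ c, c ∈ W → c ∈ Z → S.Y D Sg (T.image Sp.q) c := by
    intro c hcW hcZ
    obtain ⟨h3, h4, h5⟩ := (hW1 c).1 hcW
    rw [hZ, AddSubgroup.mem_inf] at hcZ
    refine ⟨h3, fun v hv => h4 v ((hSF v).2 hv), h5, fun w hw hw' => Cd_eo hcZ.1 ?_⟩
    intro h6
    have h7 : dn F w ∈ SF ∪ TF := h6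
    rcases Finset.mem_union.1 h7 with h8 | h8
    · exact hw ((hSF _).1 h8)
    · exact hw' ((hTF _).1 h8)
  have h5 : Nat.card (W.addSubgroupOf Z) ≤ Nat.card {c : SC L // S.Y D Sg (T.image Sp.q) c} := by
    refine Nat.card_le_card_of_injective
      (fun x => ⟨x.1.1, hWZ x.1.1 (AddSubgroup.mem_addSubgroupOf.1 x.2) x.1.2⟩) ?_
    intro x y hxy
    have h9 := Subtype.ext_iff.1 hxy
    exact Subtype.ext (Subtype.ext h9)
  have h6 : Nat.card (W.addSubgroupOf Z) * W.relIndex Z = Nat.card Z :=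
    AddSubgroup.card_mul_index (W.addSubgroupOf Z)
  have h7 : W.relIndex Z ≤ W.relIndex (H30ZO.HH F L) :=
    AddSubgroup.relIndex_le_of_le_right (by
      rw [hZ]
      exact inf_le_right) hr
  have h8 : 2 ^ TF.card * W.relIndex (H30ZO.HH F L) ≤
      Nat.card {c : SC L // S.Y D Sg (T.image Sp.q) c} * W.relIndex (H30ZO.HH F L) := by
    refine hle.trans ?_
    rw [← h6]
    exact Nat.mul_le_mul h5 h7
  exact Nat.le_of_mul_le_mul_right h8 (Nat.pos_of_ne_zero hr)

end H88OD
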