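import Pool.Agent.H88.OD.Lp
import Pool.Agent.H38.OD.Lb

/-!
ROW Le (project MP_78d38b_OD, about 100 lines): the input of the loop, first version.  Use the STATEMENTS of Lp and `exists_eta` (Pool/Agent/H38/OD/Lb.lean).

exists_ext_phi: linear algebra over `ZMod 2` (`AddCommGroup.zmodModule`, `LinearMap.exists_extend`, or an `AddSubgroup` as a `Submodule`): a homomorphism `V →+ ZMod 2` extends to `SC L →+ ZMod 2`; every element of `SC L` has `x + x = 0`.
hasEta: let `V` be as in HasEta. `DistribMulAction (F ≃ₐ[K] F) V` by `g • x := ⟨S.ρ g • x, _⟩` (S.ρ is a homomorphism to `L ≃ₐ[ℚ] L`, which acts on `SC L` by a `DistribMulAction`, see Pool/Agent/H38/T1/Df.lean; `smul_add`, `smul_zero`). `exists_eta` (order of the group odd: `IsGalois.card_aut_eq_finrank`, S.gal, S.odd) gives `φ0 : V →+ ZMod 2`, `η`. Extend `φ0` to `φ`. `S.el φ c = ell φ0 ⟨c, _⟩` for `c ∈ V` (both are `mk fun g => φ0 (g⁻¹ • c)`).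
-/

set_option autoImplicit false
set_option linter.unusedSectionVars false
open scoped Classical

open WithZero NumberField IsDedekindDomain H38RT
open H38T1 (SC sc scu rep eo la si OddP)
open H76PP (Cub LC ev scm dn)

namespace H88OD

variable {K F L : Type} [Field K] [NumberField K] [Field F] [NumberField F] [Field L]
  [NumberField L] [Algebra K F] [Algebra F L] {a b : K} {θ : L}

theorem exists_ext_phi {A : Type} [AddCommGroup A] (h2 : ∀ x : A, x + x = 0) (V : AddSubgroup A)
    (φ : V →+ ZMod 2) : ∃ φ' : A →+ ZMod 2, ∀ x : V, φ' x = φ x := by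
  letI : Module (ZMod 2) A := AddCommGroup.zmodModule (n := 2) (fun x => by rw [two_nsmul, h2])
  let W : Submodule (ZMod 2) A := AddSubgroup.toZModSubmodule 2 V
  let f : W →+ ZMod 2 := φ
  let f' : W →ₗ[ZMod 2] ZMod 2 := f.toZModLinearMap 2
  obtain ⟨g, hg⟩ := LinearMap.exists_extend f'
  refine ⟨g.toAddMonoidHom, fun x => ?_⟩
  have h := congrArg (fun h : W →ₗ[ZMod 2] ZMod 2 => h (⟨x.1, x.2⟩ : W)) hg
  exact h

theorem hasEta (S : Ext K F L a b θ) {j : ℕ} (hj : ∀ g : F ≃ₐ[K] F, IsConj (g ^ 2 ^ j) g⁻¹) :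
    HasEta S fun _ => True := by
  intro V hfin hst hinv _ hne
  have h2 : ∀ x : SC L, x + x = 0 := fun x => by rw [← two_nsmul, H38T1.SC.two_smul]
  letI act : DistribMulAction (F ≃ₐ[K] F) V :=
    { smul := fun g x => ⟨S.ρ g • (x : SC L), hst g _ x.2⟩
      one_smul := fun x => Subtype.ext (by
        change S.ρ 1 • (x : SC L) = x
        rw [map_one, one_smul])
      mul_smul := fun g h x => Subtype.ext (by
        change S.ρ (g * h) • (x : SC L) = S.ρ g • (S.ρ h • (x : SC L))
        rw [map_mul, mul_smul])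
      smul_zero := fun g => Subtype.ext (smul_zero (S.ρ g))
      smul_add := fun g x y => Subtype.ext (smul_add (S.ρ g) _ _) }
  have hval : ∀ (g : F ≃ₐ[K] F) (x : V), ((g • x : V) : SC L) = S.ρ g • (x : SC L) :=
    fun _ _ => rfl
  have _ : FiniteDimensional K F := Module.Finite.of_restrictScalars_finite ℚ K F
  have _ : IsGalois K F := S.gal
  have hodd : Odd (Nat.card (F ≃ₐ[K] F)) := by
    rw [IsGalois.card_aut_eq_finrank K F]
    exact S.odd
  obtain ⟨φ0, η, h3, h4, h5, h6, h7, v, h8⟩ := exists_eta hodd hj (V := V)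
    (fun x => Subtype.ext (h2 (x : SC L)))
    (fun x hx => Subtype.ext (hinv (x : SC L) x.2 fun g => congrArg Subtype.val (hx g)))
    (by
      by_contra hcon
      push Not at hcon
      refine hne ((AddSubgroup.eq_bot_iff_forall V).2 fun x hx => ?_)
      exact congrArg Subtype.val (hcon ⟨x, hx⟩))
  obtain ⟨φ, hφ⟩ := exists_ext_phi h2 V φ0
  have hel : ∀ (c : SC L) (hc : c ∈ V), S.el φ c = ell φ0 (⟨c, hc⟩ : V) := by
    intro c hc
    refine rg_ext fun g => ?_
    exact hφ (g⁻¹ • (⟨c, hc⟩ : V))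
  refine ⟨φ, η, h3, h4, h5, h6, fun c hc => ?_, ⟨v, v.2, ?_⟩, fun _ _ => trivial⟩
  · rw [hel c hc]
    exact h7 _
  · rw [hel v v.2]
    exact h8

end H88OD
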