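import Pool.Agent.H88.OD.Fa
import Pool.Agent.H88.OD.Le

/-!
Project MP_78d38b_OD: the main theorem for the groups in which every element is conjugate to the inverse of a power with
exponent a power of two.
-/

set_option autoImplicit false
set_option linter.unusedSectionVars false
open scoped Classical

open WithZero NumberField IsDedekindDomain H38RT
open H38T1 (SC sc scu rep eo la si OddP)
open H76PP (Cub LC ev scm dn SelTriv Tf_twist)
open H30ZO (Tv Wc)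

namespace H88OD

theorem main1 {K F : Type} [Field K] [NumberField K] [Field F] [NumberField F] [Algebra K F]
    [hgal : IsGalois K F] (hodd : Odd (Module.finrank K F)) {j : ℕ}
    (hj : ∀ g : F ≃ₐ[K] F, IsConj (g ^ 2 ^ j) g⁻¹) {a b : K}
    (ha : ∀ v : HeightOneSpectrum (𝓞 K), v.valuation K a ≤ 1)
    (hb : ∀ v : HeightOneSpectrum (𝓞 K), v.valuation K b ≤ 1)
    (hD : 4 * a ^ 3 + 27 * b ^ 2 ≠ 0) (hsq : ¬ IsSquare (-(4 * a ^ 3 + 27 * b ^ 2)))
    {D0 : K} (hD0 : D0 ≠ 0) (hT : Tv K (D0 ^ 2 * a) (D0 ^ 3 * b))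
    (Sg X : Finset (HeightOneSpectrum (𝓞 K))) :
    ∃ D : K, Rel K Sg D0 D ∧ (∀ (M : Type) [Field M] [NumberField M] [Algebra K M] [Algebra M F]
      [IsScalarTower K M F], Tv M (algebraMap K M (D ^ 2 * a)) (algebraMap K M (D ^ 3 * b))) ∧
      ∃ q : HeightOneSpectrum (𝓞 K), q ∉ X ∧ Odd (ord (q.valuation K) D) := by
  have hD4 : 4 * (D0 ^ 2 * a) ^ 3 + 27 * (D0 ^ 3 * b) ^ 2 ≠ 0 := by
    have e : 4 * (D0 ^ 2 * a) ^ 3 + 27 * (D0 ^ 3 * b) ^ 2 = D0 ^ 6 * (4 * a ^ 3 + 27 * b ^ 2) := by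
      ring
    rw [e]
    exact mul_ne_zero (pow_ne_zero 6 hD0) hD
  have hir : ∀ t : K, t ^ 3 + a * t + b ≠ 0 := by
    intro t h0
    apply hT.noroot hD4 (D0 * t)
    linear_combination D0 ^ 3 * h0
  obtain ⟨L, _, _, _, θ, ⟨S⟩⟩ := exists_ext hodd ha hb hD hir hsq
  obtain ⟨D, h1, h2, h3⟩ := core S (hasEta S hj) hD0 hT (fun _ _ => trivial) Sg X
  exact ⟨D, h1, fun M _ _ _ _ _ => tv_between S h1.n1 h2 M, h3⟩

end H88OD
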