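import Pool.Agent.H88.OD.Fa
import Pool.Agent.H88.OD.Hd
import Pool.Agent.H26.OD.Qf
import Pool.Agent.H76.SD.Sw

/-!
Project MP_78d38b_OD: the main theorem for all Galois extensions of odd degree.
-/

set_option autoImplicit false
set_option linter.unusedSectionVars false
open scoped Classical

open WithZero NumberField IsDedekindDomain H38RT
open H38T1 (SC sc scu rep eo la si OddP)
open H76PP (Cub LC ev scm dn SelTriv Tf_twist)
open H30ZO (Tv Wc)
open H26OD (Dat)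

namespace H88OD

variable {K F L : Type} [Field K] [NumberField K] [Field F] [NumberField F] [Field L]
  [NumberField L] [Algebra K F] [Algebra F L] {a b : K} {θ : L} {S : Ext K F L a b θ} {D : K}
  {Sg : Finset (HeightOneSpectrum (𝓞 K))}

/-- **The step over `F`.** -/
theorem twist_F (hok : S.Ok D Sg)
    (h0 : ∀ c, S.V D c → (∀ g : F ≃ₐ[K] F, S.ρ g • c = c) → c = 0)
    (A : Finset (HeightOneSpectrum (𝓞 K))) :
    ∃ δ : K, δ ≠ 0 ∧ (∀ u ∈ Sg, IsSquare (algebraMap K (u.adicCompletion K) δ)) ∧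
      (∀ s : K →+* ℝ, 0 < s δ) ∧ (∃ u, u ∉ Sg ∧ u ∉ A ∧ Odd (ord (u.valuation K) δ)) ∧
      ∀ c, S.V (D * δ) c → c = 0 := by
  have hsp : ∀ (d : Dat S D Sg) (T : Finset d.Q), ∀ q ∈ d.qs T, ∃ P : Sp S Sg, P.q = q := by
    intro d T q hq
    obtain ⟨P, -, hP⟩ := Finset.mem_image.1 hq
    exact ⟨P.1, hP⟩
  have hqc : ∀ (d : Dat S D Sg) (T : Finset d.Q), (d.qs T).card = T.card := by
    intro d T
    refine Finset.card_image_of_injective _ fun P P' h => Subtype.ext (d.inj _ P.2 _ P'.2 h)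
  refine H26OD.exists_twist hok h0 (fun d T => ?_) (fun d T W hW hc M _ _ _ h2 => ?_) A
  · obtain ⟨W, -, hW⟩ := exists_YG S hok.ne Sg (d.qs T)
    have h := (H30OD.card_Yt hok (hsp d T) hW).2
    rw [hqc] at h
    refine h.trans (le_of_eq ?_)
    exact Nat.card_congr (Equiv.subtypeEquivRight hW)
  · exact H76SD.sd_T hok (hsp d T) hW (by rw [hqc]; exact hc) M h2

/-- **The main theorem over `F`.** -/
theorem main3 {K F : Type} [Field K] [NumberField K] [Field F] [NumberField F] [Algebra K F]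
    [hgal : IsGalois K F] (hodd : Odd (Module.finrank K F)) {a b : K}
    (ha : ∀ v : HeightOneSpectrum (𝓞 K), v.valuation K a ≤ 1)
    (hb : ∀ v : HeightOneSpectrum (𝓞 K), v.valuation K b ≤ 1)
    (hD : 4 * a ^ 3 + 27 * b ^ 2 ≠ 0) (hsq : ¬ IsSquare (-(4 * a ^ 3 + 27 * b ^ 2)))
    {D0 : K} (hD0 : D0 ≠ 0) (hT : Tv K (D0 ^ 2 * a) (D0 ^ 3 * b))
    (Sg X : Finset (HeightOneSpectrum (𝓞 K))) :
    ∃ D : K, Rel K Sg D0 D ∧ (∀ (M : Type) [Field M] [NumberField M] [Algebra K M] [Algebra M F]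
      [IsScalarTower K M F], Tv M (algebraMap K M (D ^ 2 * a)) (algebraMap K M (D ^ 3 * b))) ∧
      ∃ q : HeightOneSpectrum (𝓞 K), q ∉ X ∧ Odd (ord (q.valuation K) D) := by
  have hD4 : 4 * (D0 ^ 2 * a) ^ 3 + 27 * (D0 ^ 3 * b) ^ 2 ≠ 0 := by
    have e : 4 * (D0 ^ 2 * a) ^ 3 + 27 * (D0 ^ 3 * b) ^ 2 = D0 ^ 6 * (4 * a ^ 3 + 27 * b ^ 2) := by
      ring
    rw [e]
    exact mul_ne_zero (pow_ne_zero 6 hD0) hD
  have hir : ∀ t : K, t ^ 3 + a * t + b ≠ 0 := by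
    intro t h0
    apply hT.noroot hD4 (D0 * t)
    linear_combination D0 ^ 3 * h0
  obtain ⟨L, _, _, _, θ, ⟨S⟩⟩ := exists_ext hodd ha hb hD hir hsq
  obtain ⟨Sg', hle, hok⟩ := exists_ok S hD0 Sg
  obtain ⟨δ, hδ0, hδsq, hδpos, ⟨u, hu, huX, hodd'⟩, hV⟩ := twist_F hok (fix_zero S hD0 hT) X
  have e : D0 * δ / D0 = δ := mul_div_cancel_left₀ _ hD0
  have hrel : Rel K Sg D0 (D0 * δ) := by
    refine ⟨hD0, mul_ne_zero hD0 hδ0, fun v hv => ?_, fun s => ?_⟩
    · rw [e]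
      exact hδsq v (hle hv)
    · rw [e]
      exact hδpos s
  refine ⟨D0 * δ, hrel, fun M _ _ _ _ _ => tv_between S hrel.n1 hV M, u, huX, ?_⟩
  have h1 : ord (u.valuation K) D0 = 0 := by
    unfold ord
    rw [hok.val u hu, log_one, neg_zero]
  rw [ord_mul hD0 hδ0, h1, zero_add]
  exact hodd'

end H88OD
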