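import Pool.Agent.H88.OD.Gt
import Pool.Agent.H88.OD.Gb

/-!
ROW Gf (project MP_78d38b_OD, about 150 lines): the Selmer groups of `E_D` and `E_{D δ}`.  Use the STATEMENTS of Ga, Gb, Gc, Gt and of Pool/Agent/H76/OD/Lt.lean (Wc_tw_iff, Wc_tw_real, Wc_good, Wc_spec, Wc_sq) and `uu` of Pool/Agent/H76/OD/Rc.lean.

Ok_step: `δ` is a unit outside `P.q, P'.q` (hδ.out), `D` is a unit outside `Sg`.
step_mp: `c ∈ HH`. `v` above `Sg`: `δ` is a square in the completion of `K` at `dn K v` (hδ.sq), so its image is a square in `F_v` (Pool/Agent/H76/PP or ZO: the map `K_u → F_v`, e.g. `H30ZO`'s `emb`/`loc_map`; or approximate: `δ = s^2 (1 + 8 t)`...: see `isSquare_up` in Pool/Agent/H36/MT or H30/OD), so `S.Lv (D * δ) v c ↔ S.Lv D v c` by Wc_tw_iff (`(D δ) / D = δ`).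
Real `s : F →+* ℝ`: `0 < s (δ)` by hδ.pos for `s.comp (algebraMap K F)`, Wc_tw_real. Outside `Sg ∪ {P.q, P'.q}`: `D δ` is a unit, Wc_good gives `eo w c = 0` for all `w` above. So `S.Y D Sg {P.q, P'.q} c`.
`P.fl c = 0`: the coefficient at `g` is `la P.t1 c' + P.nu * eo P.t2 c'`, `c' = S.ρ g⁻¹ • c`, which is `uu` of helper76 (`Wc_spec`) for the class `c'` at `v = P.v`: `c'` satisfies `S.V (D * δ)` too (V_smul); `ord` of `D δ` at `P.v` is odd: `ord` at `P.q` is `1` (and `-1` at `P'.q`), and `P.v` is unramified over `P.q`: by `P.fr` the decomposition group is trivial, `P.frv` (the number of places above `q` is `|G|`, so `e = f = 1`), see the last lemma `ord_K` which you should prove first.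
step_mpr: at `v` above `Sg`, real places: as before. At `v` with `dn K v ∉ Sg ∪ {P.q, P'.q}`: Wc_good: `c` is even above `v` because `S.V D c` and `E_D` is good at `v`. At `v` above `P.q`: `P.tr c = 0` (`c` is even above `q`: V_iff_Y) and `P.fl c = 0` so `c` is a square at all places above `q` (sq_of_zero), so `S.Lv (D * δ) v c` by Wc_sq. The same for `P'`.
ord_K: `P.v` is unramified over `K`: `P.frv` says that the stabilizer of `P.v` in the Galois group is trivial, `Ideal.card_inertia..`/`Ideal.ncard_primesOver_mul_ramificationIdxIn_mul_inertiaDegIn` (Mathlib: number * e * f = |G|) and the orbit of `P.v` has `|G|` elements (frv), so `e = 1`; `ord (v) x = e * ord (q) x`: see `H76PP.ord_alg` or `valuation_liesOver` in Mathlib (`HeightOneSpectrum.valuation_liesOver`).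
-/

set_option autoImplicit false
set_option linter.unusedSectionVars false
open scoped Classical

open WithZero NumberField IsDedekindDomain H38RT
open H38T1 (SC sc scu rep eo la si OddP)
open H76PP (Cub LC ev scm dn)

namespace H88OD

variable {K F L : Type} [Field K] [NumberField K] [Field F] [NumberField F] [Field L]
  [NumberField L] [Algebra K F] [Algebra F L] {a b : K} {θ : L} {S : Ext K F L a b θ}
  {Sg : Finset (HeightOneSpectrum (𝓞 K))}

open scoped Pointwise in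
private theorem Gf_stab (P : Sp S Sg) (g : F ≃ₐ[K] F) (h : g • P.v.asIdeal = P.v.asIdeal) :
    g = 1 := by
  apply P.frv
  apply HeightOneSpectrum.ext
  ext x
  have h1 : H38T1.gO (gq g)⁻¹ x = g⁻¹ • x := by
    apply RingOfIntegers.ext
    rw [H38T1.gO_coe]
    rfl
  change H38T1.gO (gq g)⁻¹ x ∈ P.v.asIdeal ↔ x ∈ P.v.asIdeal
  rw [h1, ← Ideal.mem_pointwise_smul_iff_inv_smul_mem, h]

open scoped Pointwise in
theorem Sp.ord_K (P : Sp S Sg) {x : K} (hx : x ≠ 0) :
    ord (P.v.valuation F) (algebraMap K F x) = ord (P.q.valuation K) x := by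
  have hgal : IsGalois K F := S.gal
  have hl : P.v.asIdeal.LiesOver (dn K P.v).asIdeal := ⟨rfl⟩
  have hp := (dn K P.v).isPrime
  have hm := (dn K P.v).isMaximal
  have hP := P.v.isPrime
  have hG : IsGaloisGroup (F ≃ₐ[K] F) (𝓞 K) (𝓞 F) := inferInstance
  have h1 := Ideal.card_stabilizer_eq (G := F ≃ₐ[K] F) (dn K P.v).asIdeal P.v.asIdeal
  have h2 : Nat.card (MulAction.stabilizer (F ≃ₐ[K] F) P.v.asIdeal) = 1 := by
    rw [Nat.card_eq_one_iff_unique]
    refine ⟨⟨fun a b => Subtype.ext ?_⟩, ⟨1⟩⟩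
    rw [Gf_stab P a.1 a.2, Gf_stab P b.1 b.2]
  rw [h2] at h1
  have h3 := Nat.eq_one_of_mul_eq_one_right h1.symm
  rw [Ideal.ramificationIdxIn_eq_ramificationIdx (dn K P.v).asIdeal P.v.asIdeal
    (F ≃ₐ[K] F)] at h3
  have h4 := HeightOneSpectrum.valuation_liesOver F (dn K P.v) P.v x
  rw [Ideal.ramificationIdx'_eq_ramificationIdx (dn K P.v).asIdeal P.v.asIdeal
    (dn K P.v).ne_bot, h3, pow_one] at h4
  unfold ord
  rw [← h4]
  rfl

theorem Ok_step {D : K} (hok : S.Ok D Sg) {q q' : HeightOneSpectrum (𝓞 K)} {δ : K}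
    (hδ : Ray K (Sg : Set (HeightOneSpectrum (𝓞 K))) q q' δ) :
    S.Ok (D * δ) (insert q (insert q' Sg)) := by
  have h : ∀ v : HeightOneSpectrum (𝓞 K), v ∉ insert q (insert q' Sg) →
      v ≠ q ∧ v ≠ q' ∧ v ∉ Sg := by
    intro v hv
    rw [Finset.mem_insert, Finset.mem_insert, not_or, not_or] at hv
    exact hv
  refine ⟨mul_ne_zero hok.ne hδ.ne, fun v hv => hok.two v (h v hv).2.2,
    fun v hv => hok.dis v (h v hv).2.2, fun v hv => ?_⟩
  obtain ⟨h1, h2, h3⟩ := h v hv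
  rw [map_mul, hok.val v h3, hδ.out v h1 h2, one_mul]

private theorem Gf_Lv (D : K) (v : HeightOneSpectrum (𝓞 F)) (c : SC L) : S.Lv D v c ↔
    H30ZO.Wc (algebraMap F (v.adicCompletion F)) (algebraMap K F D ^ 2 * algebraMap K F a)
      (algebraMap K F D ^ 3 * algebraMap K F b) (algebraMap F L (algebraMap K F D) * θ) c := by
  unfold Ext.Lv
  rw [map_mul, map_pow, map_mul, map_pow]

private theorem Gf_Lr (D : K) (s : F →+* ℝ) (c : SC L) : S.Lr D s c ↔
    H30ZO.Wc s (algebraMap K F D ^ 2 * algebraMap K F a)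
      (algebraMap K F D ^ 3 * algebraMap K F b) (algebraMap F L (algebraMap K F D) * θ) c := by
  unfold Ext.Lr
  rw [map_mul, map_pow, map_mul, map_pow]

private theorem Gf_div {D δ : K} (hD : D ≠ 0) :
    algebraMap K F (D * δ) / algebraMap K F D = algebraMap K F δ := by
  rw [← map_div₀, mul_div_cancel_left₀ _ hD]

private theorem Gf_ne {D : K} (hD : D ≠ 0) : algebraMap K F D ≠ 0 := (map_ne_zero _).2 hD

private theorem Gf_nhds (v : HeightOneSpectrum (𝓞 F)) :
    ∀ U ∈ nhds (0 : v.adicCompletion F), ∃ k : ℕ, ∀ x : K,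
      (dn K v).valuation K x ≤ exp (-(k : ℤ)) →
        ((algebraMap F (v.adicCompletion F)).comp (algebraMap K F)) x ∈ U := by
  intro U hU
  rw [Valued.mem_nhds_zero] at hU
  obtain ⟨γ, hγ⟩ := hU
  obtain ⟨n, hn⟩ := exists_exp_neg_natCast_lt
    (x := MonoidWithZeroHom.ValueGroup₀.embedding γ.1) (by simp)
  refine ⟨n, fun x hx => hγ ?_⟩
  change Valued.v.restrict _ < γ.1
  rw [Valuation.restrict_lt_iff_lt_embedding]
  refine lt_of_le_of_lt ?_ hn
  have h2 := v.valuedAdicCompletion_eq_valuation' (K := F) (algebraMap K F x)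
  change Valued.v (algebraMap F (v.adicCompletion F) (algebraMap K F x)) = _ at h2
  change Valued.v (algebraMap F (v.adicCompletion F) (algebraMap K F x)) ≤ _
  rw [h2]
  exact H76PP.val_exp_le (by positivity) hx

private theorem Gf_sq (v : HeightOneSpectrum (𝓞 F)) {δ : K}
    (h : IsSquare (algebraMap K ((dn K v).adicCompletion K) δ)) :
    IsSquare (algebraMap F (v.adicCompletion F) (algebraMap K F δ)) := by
  have h1 := h.map (Pool.Agent.H10.adicLift (dn K v)
    ((algebraMap F (v.adicCompletion F)).comp (algebraMap K F))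
    (Pool.Agent.H10.continuous_fromVal (dn K v) _ (Gf_nhds v)))
  rw [Pool.Agent.H10.adicLift_algebraMap] at h1
  exact h1

private theorem Gf_tw {D δ : K} (hD : D ≠ 0) (hδ0 : δ ≠ 0) (v : HeightOneSpectrum (𝓞 F))
    (h : IsSquare (algebraMap K ((dn K v).adicCompletion K) δ)) (c : SC L) :
    S.Lv D v c ↔ S.Lv (D * δ) v c := by
  rw [Gf_Lv, Gf_Lv]
  refine H76OD.Wc_tw_iff _ (Gf_ne hD) (Gf_ne (mul_ne_zero hD hδ0)) ?_
  rw [Gf_div hD]
  exact Gf_sq v h

private theorem Gf_twr {D δ : K} (hD : D ≠ 0) (hδ0 : δ ≠ 0) (s : F →+* ℝ)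
    (h : ∀ s : K →+* ℝ, 0 < s δ) (c : SC L) : S.Lr D s c ↔ S.Lr (D * δ) s c := by
  rw [Gf_Lr, Gf_Lr]
  refine H76OD.Wc_tw_real _ (Gf_ne hD) (Gf_ne (mul_ne_zero hD hδ0)) ?_
  rw [Gf_div hD]
  exact h (s.comp (algebraMap K F))

private theorem Gf_good {E : K} (v : HeightOneSpectrum (𝓞 F))
    (h2 : (dn K v).valuation K 2 = 1) (hd : (dn K v).valuation K (4 * a ^ 3 + 27 * b ^ 2) = 1)
    (hE : (dn K v).valuation K E = 1) {c : SC L} (hc : c ∈ H30ZO.HH F L) :
    S.Lv E v c ↔ ∀ w : HeightOneSpectrum (𝓞 L), dn F w = v → eo w c = 0 := by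
  rw [Gf_Lv]
  refine H76OD.Wc_good S.cub v (H76PP.val_le (S.ha _)) (H76PP.val_le (S.hb _)) ?_ ?_
    (H76PP.val_one hE) hc
  · have h := H76PP.val_one (L := F) (w := v) h2
    rwa [map_ofNat] at h
  · have h := H76PP.val_one (L := F) (w := v) hd
    rw [map_add, map_mul, map_mul, map_pow, map_pow, map_ofNat, map_ofNat] at h
    exact h

theorem step_mp {D : K} (hok : S.Ok D Sg) (P P' : Sp S Sg) (hne : P.q ≠ P'.q) {δ : K}
    (hδ : Ray K (Sg : Set (HeightOneSpectrum (𝓞 K))) P.q P'.q δ) {c : SC L} (hc : S.V (D * δ) c) :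
    S.Y D Sg {P.q, P'.q} c ∧ P.fl c = 0 ∧ P'.fl c = 0 := by
  have hfl : ∀ Q : Sp S Sg, Odd (ord (Q.q.valuation K) (D * δ)) → Q.fl c = 0 := by
    intro Q hQ
    unfold Sp.fl
    apply rg_ext
    intro g
    have hc' := V_smul S g⁻¹ hc
    have hv := Q.odd hok.two
    have h2 := H76OD.Wc_spec S.cub (fun v => H76PP.val_le (S.ha _))
      (fun v => H76PP.val_le (S.hb _)) (v := Q.v) hv.1 (by
        have h := H76PP.val_one (L := F) (w := Q.v) (hok.dis _ Q.out)
        rw [map_add, map_mul, map_mul, map_pow, map_pow, map_ofNat, map_ofNat] at h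
        exact h) Q.tw (E := algebraMap K F (D * δ)) (Gf_ne (mul_ne_zero hok.ne hδ.ne))
      (by rw [Q.ord_K (mul_ne_zero hok.ne hδ.ne)]; exact hQ) hc'.hh
      ((Gf_Lv _ _ _).1 (hc'.fin Q.v))
    rw [coeff_mk]
    exact h2
  have hD : ∀ Q : Sp S Sg, ord (Q.q.valuation K) D = 0 := by
    intro Q
    have h : Q.q.valuation K D = 1 := hok.val _ Q.out
    unfold ord
    rw [h, log_one, neg_zero]
  refine ⟨⟨hc.hh, fun v hv => ?_, fun s => ?_, fun w h1 h2 => ?_⟩, hfl P ?_, hfl P' ?_⟩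
  · exact (Gf_tw hok.ne hδ.ne v (hδ.sq _ (by exact_mod_cast hv)) c).2 (hc.fin v)
  · exact (Gf_twr hok.ne hδ.ne s hδ.pos c).2 (hc.inf s)
  · rw [Finset.mem_insert, Finset.mem_singleton, not_or] at h2
    refine (Gf_good (E := D * δ) (dn F w) (hok.two _ h1) (hok.dis _ h1) ?_ hc.hh).1
      (hc.fin _) w rfl
    rw [map_mul, hok.val _ h1, hδ.out _ h2.1 h2.2, one_mul]
  · rw [ord_mul hok.ne hδ.ne, hD P, hδ.o1]
    exact ⟨0, by norm_num⟩
  · rw [ord_mul hok.ne hδ.ne, hD P', hδ.o2]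
    exact ⟨-1, by norm_num⟩

theorem step_mpr {D : K} (hok : S.Ok D Sg) (P P' : Sp S Sg) (hne : P.q ≠ P'.q) {δ : K}
    (hδ : Ray K (Sg : Set (HeightOneSpectrum (𝓞 K))) P.q P'.q δ) {c : SC L} (hc : S.V D c)
    (h1 : P.fl c = 0) (h2 : P'.fl c = 0) : S.V (D * δ) c := by
  have hY := (V_iff_Y S hok).1 hc
  have hsp : ∀ Q : Sp S Sg, Q.fl c = 0 → ∀ v : HeightOneSpectrum (𝓞 F), dn K v = Q.q →
      S.Lv (D * δ) v c := by
    intro Q hQ v hv
    have htr : Q.tr c = 0 := by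
      refine (Q.tr_zero hok.two hc.hh).2 fun w hw => hY.ev w ?_ (Finset.notMem_empty _)
      rw [hw]
      exact Q.out
    rw [Gf_Lv]
    refine H76OD.Wc_sq S.cub v (H76PP.val_le (S.ha _)) (H76PP.val_le (S.hb _)) ?_
      (Gf_ne (mul_ne_zero hok.ne hδ.ne)) ?_
    · have h := Gf_ne (F := F) S.dne
      rw [map_add, map_mul, map_mul, map_pow, map_pow, map_ofNat, map_ofNat] at h
      exact h
    · unfold H30ZO.Sqv
      rw [AddSubgroup.mem_iInf]
      intro w
      rw [AddSubgroup.mem_iInf]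
      intro hw
      exact Q.sq_of_zero hok.two hc.hh htr hQ (by rw [hw]; exact hv)
  refine ⟨hc.hh, fun v => ?_, fun s => (Gf_twr hok.ne hδ.ne s hδ.pos c).1 (hc.inf s)⟩
  by_cases hv : dn K v ∈ Sg
  · exact (Gf_tw hok.ne hδ.ne v (hδ.sq _ (by exact_mod_cast hv)) c).1 (hc.fin v)
  by_cases hv1 : dn K v = P.q
  · exact hsp P h1 v hv1
  by_cases hv2 : dn K v = P'.q
  · exact hsp P' h2 v hv2
  refine (Gf_good (E := D * δ) v (hok.two _ hv) (hok.dis _ hv) ?_ hc.hh).2 ?_
  · rw [map_mul, hok.val _ hv, hδ.out _ hv1 hv2, one_mul]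
  · exact (Gf_good (E := D) v (hok.two _ hv) (hok.dis _ hv) (hok.val _ hv) hc.hh).1 (hc.fin v)

end H88OD
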