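import Pool.Agent.H88.OD.Gp
import Pool.Agent.H88.OD.Ge
import Pool.Agent.H88.OD.Gf
import Pool.Agent.H30.OD.Comp
import Pool.Agent.H38.OD.La

/-!
ROW Gg (project MP_78d38b_OD, about 250 lines): the twisting step.  Use the STATEMENTS of Gp, Ge, Gf, Ga, Gb, Gt, `Comp.step` (Pool/Agent/H30/OD/Comp.lean) and `exists_z0` (Pool/Agent/H38/OD/La.lean).

PROOF. `Z := (1 + η) + η * z0 * η` with `z0` from exists_z0 (`|G|` is odd: `Nat.card (F ≃ₐ[K] F) = finrank K F` by `S.gal`, `S.odd`; `IsGalois.card_aut_eq_finrank`). exists_pair gives `P, P', R, y, y', c, d, δ`.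
`M` := the group `W` of `S.Y D Sg {P.q, P'.q, R.q}` (exists_YG, Y_smul) as a module over `RG G`: `G` acts on `W` by `S.ρ g • x` (a `DistribMulAction`), `x + x = 0`; see Pool/Agent/H24/TD/Sim.lean (`Sim_mod`) or define `r • x := ∑ g, r.coeff g • (S.ρ g • x)`. `P.tr`, `P.fl` restricted to `W` are `RG G`-linear: additive (tr_add, fl_add) and tr_smul, fl_smul (`MonoidAlgebra.induction_linear`).
Apply `Comp.step` with `ri := P.tr, rj := P'.tr, rk := R.tr, ui := P.fl, uj := P'.fl, uk := R.fl`, `yi := y, yj := y'`. hI: rec_R with `ι := Fin 3`, `![P, P', R]` (the primes are different: n1 n2 n3; `Finset.univ.image = {P.q, P'.q, R.q}`). hi2: `P'.tr y = 0` (tr_zero: `y` is even above `P'.q`), hj1: `P.tr y' = 0`.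
hV: `x ∈ W` with `P.tr x = P'.tr x = R.tr x = 0` is even above the three primes (tr_zero), so `S.Y D Sg ∅ x`, `S.V D x` (V_iff_Y), `P.fl x = S.el φ x` and h4. hV': h5, the same in the other direction (`S.V D x` implies `x ∈ W` and `tr = 0` by V_iff_Y and tr_zero).
Let `S.V (D * δ) z`: by step_mp `S.Y D Sg {P.q, P'.q} z`, so `z ∈ W`, `R.tr z = 0` (`z` is even above `R.q`), `P.fl z = P'.fl z = 0`. Comp.step: `P.tr z = P'.tr z = 0`, so `S.V D z` and `S.el φ z = P.fl z = 0`. Conversely step_mpr with `P.fl c = S.el φ c = 0 = P'.fl c`.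
exists_same: the case `φ = 0`, `η = 0` (`S.el 0 c = 0`).
-/

set_option autoImplicit false
set_option linter.unusedSectionVars false
open scoped Classical

open WithZero NumberField IsDedekindDomain H38RT
open H38T1 (SC sc scu rep eo la si OddP)
open H76PP (Cub LC ev scm dn)

namespace H88OD

variable {K F L : Type} [Field K] [NumberField K] [Field F] [NumberField F] [Field L]
  [NumberField L] [Algebra K F] [Algebra F L] {a b : K} {θ : L} {S : Ext K F L a b θ}
  {Sg : Finset (HeightOneSpectrum (𝓞 K))}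

section Abs

/-- The representation over the field with two elements. -/
noncomputable def Gg_rep (G W : Type) [Group G] [AddCommGroup W] [DistribMulAction G W]
    [Module (ZMod 2) W] : G →* Module.End (ZMod 2) W where
  toFun g := (DistribSMul.toAddMonoidHom W g).toZModLinearMap 2
  map_one' := by ext x; simp
  map_mul' g h := by ext x; simp [mul_smul]

/-- The module structure over the group algebra. -/
noncomputable abbrev Gg_mod (G W : Type) [Group G] [AddCommGroup W] [DistribMulAction G W]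
    [Module (ZMod 2) W] : Module (RG G) W :=
  Module.compHom W (MonoidAlgebra.lift (ZMod 2) (Module.End (ZMod 2) W) G (Gg_rep G W)).toRingHom

variable {G W : Type} [Group G] [AddCommGroup W] [DistribMulAction G W]

/-- An additive equivariant map is linear. -/
noncomputable def Gg_lin [Module (RG G) W]
    (h : ∀ (g : G) (x : W), (MonoidAlgebra.of (ZMod 2) G g : RG G) • x = g • x) (f : W →+ RG G)
    (hf : ∀ (g : G) (x : W), f (g • x) = (MonoidAlgebra.single g 1 : RG G) * f x) :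
    W →ₗ[RG G] RG G where
  toFun := f
  map_add' := map_add f
  map_smul' a x := by
    change f (a • x) = a * f x
    induction a using MonoidAlgebra.induction_on with
    | of g => rw [h, hf]; rfl
    | add a b ha hb => rw [add_smul, map_add, ha, hb, add_mul]
    | smul r a ha =>
      have hr : r = 0 ∨ r = 1 := by revert r; decide
      rcases hr with rfl | rfl
      · rw [zero_smul, zero_smul, zero_mul, map_zero]
      · rw [one_smul, ha]

lemma Gg_inv : Pool.Agent.H30.OD.Comp.IsInv (st : RG G → RG G) :=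
  ⟨fun a b => map_add st a b, st_mul, st_st⟩

lemma Gg_step [Finite G] (hW : ∀ x : W, x + x = 0) {η z0 c d Z : RG G}
    (hη : η * η = η) (hη' : st η = η) (h0 : z0 + st z0 = 1 + e0 G) (he0 : e0 G * η = 0)
    (hZ : Z = (1 + η) + η * z0 * η) (ri rj rk ui uj uk : W →+ RG G)
    (s1 : ∀ (g : G) (x : W), ri (g • x) = (MonoidAlgebra.single g 1 : RG G) * ri x)
    (s2 : ∀ (g : G) (x : W), rj (g • x) = (MonoidAlgebra.single g 1 : RG G) * rj x)
    (s3 : ∀ (g : G) (x : W), rk (g • x) = (MonoidAlgebra.single g 1 : RG G) * rk x)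
    (s4 : ∀ (g : G) (x : W), ui (g • x) = (MonoidAlgebra.single g 1 : RG G) * ui x)
    (s5 : ∀ (g : G) (x : W), uj (g • x) = (MonoidAlgebra.single g 1 : RG G) * uj x)
    (s6 : ∀ (g : G) (x : W), uk (g • x) = (MonoidAlgebra.single g 1 : RG G) * uk x)
    (hI : ∀ x y : W, ri x * st (ui y) + ui x * st (ri y) + (rj x * st (uj y) + uj x * st (rj y))
      + (rk x * st (uk y) + uk x * st (rk y)) = 0)
    (hV : ∀ x : W, ri x = 0 → rj x = 0 → rk x = 0 → ui x * η = ui x)
    (hV' : ∃ x : W, ri x = 0 ∧ rj x = 0 ∧ rk x = 0 ∧ ui x = η)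
    {yi yj : W}
    (hi1 : ri yi = 1) (hi2 : rj yi = 0) (hi3 : rk yi = 1) (hi4 : ui yi = c) (hi5 : uj yi = c + Z)
    (hi6 : uk yi = d)
    (hj1 : ri yj = 0) (hj2 : rj yj = 1) (hj3 : rk yj = 1) (hj4 : uj yj = c) (hj6 : uk yj = d)
    {z : W} (hz1 : ui z = 0) (hz2 : uj z = 0) (hz3 : rk z = 0) : ri z = 0 ∧ rj z = 0 := by
  let i1 : Module (ZMod 2) W := AddCommGroup.zmodModule fun x => by
    rw [two_nsmul, hW]
  let i2 : Module (RG G) W := Gg_mod G W
  have h : ∀ (g : G) (x : W), (MonoidAlgebra.of (ZMod 2) G g : RG G) • x = g • x := by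
    intro g x
    change (MonoidAlgebra.lift (ZMod 2) (Module.End (ZMod 2) W) G (Gg_rep G W))
      (MonoidAlgebra.of (ZMod 2) G g) x = g • x
    rw [MonoidAlgebra.lift_of]
    rfl
  exact Pool.Agent.H30.OD.Comp.step rg_two Gg_inv hη hη' h0 he0 hZ
    (Gg_lin h ri s1) (Gg_lin h rj s2) (Gg_lin h rk s3) (Gg_lin h ui s4) (Gg_lin h uj s5)
    (Gg_lin h uk s6) hI hV hV' (yi := yi) (yj := yj) hi1 hi2 hi3 hi4 hi5 hi6 hj1 hj2 hj3 hj4 hj6
    (z := z) hz1 hz2 hz3

end Abs

lemma Gg_odd (S : Ext K F L a b θ) : Odd (Nat.card (F ≃ₐ[K] F)) := by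
  have _ := S.gal
  have _ : FiniteDimensional K F := Module.Finite.of_restrictScalars_finite ℚ K F
  rw [IsGalois.card_aut_eq_finrank]
  exact S.odd

lemma Gg_two (c : SC L) : c + c = 0 := (two_nsmul c).symm.trans (SC.two_smul c)

lemma Gg_tr (P : Sp S Sg) {D : K} (hok : S.Ok D Sg) {T : Finset (HeightOneSpectrum (𝓞 K))}
    (hT : P.q ∉ T) {c : SC L} (hc : S.Y D Sg T c) : P.tr c = 0 :=
  (P.tr_zero hok.two hc.hh).2 fun w hw => hc.ev w (by rw [hw]; exact P.out) (by rw [hw]; exact hT)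

lemma Gg_mono {D : K} {T T' : Finset (HeightOneSpectrum (𝓞 K))} (h : T ⊆ T') {c : SC L}
    (hc : S.Y D Sg T c) : S.Y D Sg T' c :=
  ⟨hc.hh, hc.fin, hc.inf, fun w h1 h2 => hc.ev w h1 fun h3 => h2 (h h3)⟩

lemma Gg_V {D : K} (hok : S.Ok D Sg) (P P' R : Sp S Sg) {c : SC L}
    (hc : S.Y D Sg {P.q, P'.q, R.q} c) (h1 : P.tr c = 0) (h2 : P'.tr c = 0) (h3 : R.tr c = 0) :
    S.V D c := by
  rw [V_iff_Y S hok]
  refine ⟨hc.hh, hc.fin, hc.inf, fun w hw _ => ?_⟩
  by_cases h : dn K (dn F w) ∈ ({P.q, P'.q, R.q} : Finset (HeightOneSpectrum (𝓞 K)))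
  · rw [Finset.mem_insert, Finset.mem_insert, Finset.mem_singleton] at h
    rcases h with h | h | h
    · exact (P.tr_zero hok.two hc.hh).1 h1 w h
    · exact (P'.tr_zero hok.two hc.hh).1 h2 w h
    · exact (R.tr_zero hok.two hc.hh).1 h3 w h
  · exact hc.ev w hw h

lemma Gg_main {D : K} (hok : S.Ok D Sg) (φ : SC L →+ ZMod 2) {η z0 : RG (F ≃ₐ[K] F)}
    (h1 : st η = η) (h2 : η * η = η) (h3 : e0 (F ≃ₐ[K] F) * η = 0)
    (h4 : ∀ c, S.V D c → S.el φ c * η = S.el φ c) (h5 : ∃ c, S.V D c ∧ S.el φ c = η)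
    (h0 : z0 + st z0 = 1 + e0 (F ≃ₐ[K] F))
    {P P' R : Sp S Sg} {y y' : SC L} {c d : RG (F ≃ₐ[K] F)}
    (hp : PairD S D Sg φ ((1 + η) + η * z0 * η) P P' R y y' c d)
    {z : SC L} (hz : S.Y D Sg {P.q, P'.q} z) (hz1 : P.fl z = 0) (hz2 : P'.fl z = 0) :
    P.tr z = 0 ∧ P'.tr z = 0 := by
  obtain ⟨W, _, hW⟩ := exists_YG S hok.ne Sg {P.q, P'.q, R.q}
  let iA : DistribMulAction (F ≃ₐ[K] F) W :=
    { smul := fun g x => ⟨S.ρ g • (x : SC L), (hW _).2 (Y_smul S g ((hW _).1 x.2))⟩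
      one_smul := fun x => Subtype.ext (by
        change S.ρ 1 • (x : SC L) = x
        rw [map_one, one_smul])
      mul_smul := fun g h x => Subtype.ext (by
        change S.ρ (g * h) • (x : SC L) = S.ρ g • S.ρ h • (x : SC L)
        rw [map_mul, mul_smul])
      smul_zero := fun g => Subtype.ext (by
        change S.ρ g • (0 : SC L) = 0
        rw [smul_zero])
      smul_add := fun g x x' => Subtype.ext (by
        change S.ρ g • ((x : SC L) + x') = S.ρ g • (x : SC L) + S.ρ g • (x' : SC L)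
        rw [smul_add]) }
  have hs : ∀ (g : F ≃ₐ[K] F) (x : W), ((g • x : W) : SC L) = S.ρ g • (x : SC L) :=
    fun _ _ => rfl
  let tr' : Sp S Sg → (W →+ RG (F ≃ₐ[K] F)) := fun Q =>
    AddMonoidHom.mk' (fun x : W => Q.tr (x : SC L)) fun x x' => Q.tr_add _ _
  let fl' : Sp S Sg → (W →+ RG (F ≃ₐ[K] F)) := fun Q =>
    AddMonoidHom.mk' (fun x : W => Q.fl (x : SC L)) fun x x' => Q.fl_add hok.two _ _
  have hY : ∀ x : W, S.Y D Sg {P.q, P'.q, R.q} (x : SC L) := fun x => (hW _).1 x.2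
  have hinj : Function.Injective fun i : Fin 3 => ((![P, P', R] : Fin 3 → Sp S Sg) i).q := by
    intro i j hij
    have n1 := hp.n1
    have n2 := hp.n2
    have n3 := hp.n3
    fin_cases i <;> fin_cases j
    · rfl
    · exact absurd hij n1
    · exact absurd hij n2
    · exact absurd hij n1.symm
    · rfl
    · exact absurd hij n3
    · exact absurd hij n2.symm
    · exact absurd hij n3.symm
    · rfl
  have himg : (Finset.univ.image fun i : Fin 3 => ((![P, P', R] : Fin 3 → Sp S Sg) i).q) =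
      ({P.q, P'.q, R.q} : Finset (HeightOneSpectrum (𝓞 K))) := by
    ext q
    rw [Finset.mem_image, Finset.mem_insert, Finset.mem_insert, Finset.mem_singleton]
    constructor
    · rintro ⟨i, -, rfl⟩
      fin_cases i
      · left
        rfl
      · right
        left
        rfl
      · right
        right
        rfl
    · rintro (h | h | h)
      · exact ⟨0, Finset.mem_univ _, h.symm⟩
      · exact ⟨1, Finset.mem_univ _, h.symm⟩
      · exact ⟨2, Finset.mem_univ _, h.symm⟩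
  have hI : ∀ x x' : W, P.tr (x : SC L) * st (P.fl (x' : SC L)) +
      P.fl (x : SC L) * st (P.tr (x' : SC L)) +
      (P'.tr (x : SC L) * st (P'.fl (x' : SC L)) + P'.fl (x : SC L) * st (P'.tr (x' : SC L))) +
      (R.tr (x : SC L) * st (R.fl (x' : SC L)) + R.fl (x : SC L) * st (R.tr (x' : SC L))) = 0 := by
    intro x x'
    have h := rec_R hok ![P, P', R] hinj (x := (x : SC L)) (y := (x' : SC L))
      (by rw [himg]; exact hY x) (by rw [himg]; exact hY x')
    rw [Fin.sum_univ_three] at h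
    exact h
  have hmem : ∀ {T : Finset (HeightOneSpectrum (𝓞 K))} {x : SC L},
      T ⊆ ({P.q, P'.q, R.q} : Finset (HeightOneSpectrum (𝓞 K))) → S.Y D Sg T x → x ∈ W :=
    fun hT hx => (hW _).2 (Gg_mono hT hx)
  have hy : y ∈ W := hmem (by
    intro q hq
    rw [Finset.mem_insert, Finset.mem_singleton] at hq
    rw [Finset.mem_insert, Finset.mem_insert, Finset.mem_singleton]
    tauto) hp.hy
  have hy' : y' ∈ W := hmem (by
    intro q hq
    rw [Finset.mem_insert, Finset.mem_singleton] at hq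
    rw [Finset.mem_insert, Finset.mem_insert, Finset.mem_singleton]
    tauto) hp.hy'
  have hzW : z ∈ W := hmem (by
    intro q hq
    rw [Finset.mem_insert, Finset.mem_singleton] at hq
    rw [Finset.mem_insert, Finset.mem_insert, Finset.mem_singleton]
    tauto) hz
  obtain ⟨x0, hx0, hx0'⟩ := h5
  have hx1 := (V_iff_Y S hok).1 hx0
  refine Gg_step (W := W) (fun x => Subtype.ext (Gg_two (x : SC L))) h2 h1 h0 h3 rfl
    (tr' P) (tr' P') (tr' R) (fl' P) (fl' P') (fl' R)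
    (fun g x => P.tr_smul g x) (fun g x => P'.tr_smul g x) (fun g x => R.tr_smul g x)
    (fun g x => P.fl_smul g x) (fun g x => P'.fl_smul g x) (fun g x => R.fl_smul g x)
    hI ?_ ⟨⟨x0, hmem (Finset.empty_subset _) hx1⟩, ?_, ?_, ?_, ?_⟩ (yi := ⟨y, hy⟩) (yj := ⟨y', hy'⟩)
    (z := ⟨z, hzW⟩) (c := c) (d := d) hp.t1 ?_ hp.t2 hp.f1 hp.f2 hp.f3 ?_ hp.t3 hp.t4 hp.f4 hp.f5
    hz1 hz2 ?_
  · intro x e1 e2 e3
    have hV : S.V D (x : SC L) := Gg_V hok P P' R (hY x) e1 e2 e3
    have e := h4 _ hV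
    rw [← hp.v _ hV] at e
    exact e
  · exact Gg_tr P hok (Finset.notMem_empty _) hx1
  · exact Gg_tr P' hok (Finset.notMem_empty _) hx1
  · exact Gg_tr R hok (Finset.notMem_empty _) hx1
  · exact (hp.v _ hx0).trans hx0'
  · refine Gg_tr P' hok ?_ hp.hy
    rw [Finset.mem_insert, Finset.mem_singleton]
    rintro (h | h)
    · exact hp.n1 h.symm
    · exact hp.n3 h
  · refine Gg_tr P hok ?_ hp.hy'
    rw [Finset.mem_insert, Finset.mem_singleton]
    rintro (h | h)
    · exact hp.n1 h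
    · exact hp.n2 h
  · refine Gg_tr R hok ?_ hz
    rw [Finset.mem_insert, Finset.mem_singleton]
    rintro (h | h)
    · exact hp.n2 h.symm
    · exact hp.n3 h.symm

/-- The step `D ↦ D * δ`. -/
structure StepD (S : Ext K F L a b θ) (D : K) (Sg : Finset (HeightOneSpectrum (𝓞 K)))
    (q q' : HeightOneSpectrum (𝓞 K)) (δ : K) : Prop where
  ne : q ≠ q'
  o1 : q ∉ Sg
  o2 : q' ∉ Sg
  ray : Ray K (Sg : Set (HeightOneSpectrum (𝓞 K))) q q' δ
  ok : S.Ok (D * δ) (insert q (insert q' Sg))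

theorem exists_step {D : K} (hok : S.Ok D Sg) (φ : SC L →+ ZMod 2) {η : RG (F ≃ₐ[K] F)}
    (h1 : st η = η) (h2 : η * η = η) (h3 : e0 (F ≃ₐ[K] F) * η = 0)
    (h4 : ∀ c, S.V D c → S.el φ c * η = S.el φ c) (h5 : ∃ c, S.V D c ∧ S.el φ c = η)
    (X : Finset (HeightOneSpectrum (𝓞 K))) :
    ∃ (q q' : HeightOneSpectrum (𝓞 K)) (δ : K), q ∉ X ∧ q' ∉ X ∧ StepD S D Sg q q' δ ∧
      ∀ c, S.V (D * δ) c ↔ S.V D c ∧ S.el φ c = 0 := by
  obtain ⟨z0, -, hz0⟩ := exists_z0 (Gg_odd S)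
  obtain ⟨P, P', R, y, y', c, d, δ, hp, hx, hx', hδ⟩ :=
    exists_pair hok φ ((1 + η) + η * z0 * η) X
  refine ⟨P.q, P'.q, δ, hx, hx', ⟨hp.n1, P.out, P'.out, hδ, Ok_step hok hδ⟩, fun z => ⟨?_, ?_⟩⟩
  · intro hz
    obtain ⟨g1, g2, g3⟩ := step_mp hok P P' hp.n1 hδ hz
    obtain ⟨e1, e2⟩ := Gg_main hok φ h1 h2 h3 h4 h5 hz0 hp g1 g2 g3
    have e3 : R.tr z = 0 := by
      refine Gg_tr R hok ?_ g1
      rw [Finset.mem_insert, Finset.mem_singleton]
      rintro (h | h)
      · exact hp.n2 h.symm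
      · exact hp.n3 h.symm
    have hV : S.V D z := by
      refine Gg_V hok P P' R (Gg_mono ?_ g1) e1 e2 e3
      intro q hq
      rw [Finset.mem_insert, Finset.mem_singleton] at hq
      rw [Finset.mem_insert, Finset.mem_insert, Finset.mem_singleton]
      tauto
    exact ⟨hV, (hp.v z hV).symm.trans g2⟩
  · rintro ⟨hV, he⟩
    exact step_mpr hok P P' hp.n1 hδ hV ((hp.v z hV).trans he) ((hp.v' z hV).trans he)

theorem exists_same {D : K} (hok : S.Ok D Sg) (X : Finset (HeightOneSpectrum (𝓞 K))) :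
    ∃ (q q' : HeightOneSpectrum (𝓞 K)) (δ : K), q ∉ X ∧ q' ∉ X ∧ StepD S D Sg q q' δ ∧
      ∀ c, S.V (D * δ) c ↔ S.V D c := by
  have he : ∀ c : SC L, S.el 0 c = 0 := fun c => rg_ext fun g => rfl
  obtain ⟨W, hW⟩ := exists_VG S hok.ne
  have hV0 : S.V D 0 := (hW 0).1 W.zero_mem
  obtain ⟨q, q', δ, e1, e2, e3, e4⟩ := exists_step hok (0 : SC L →+ ZMod 2)
    (η := 0) (map_zero st) (mul_zero _) (mul_zero _) (fun c _ => by rw [he, zero_mul])
    ⟨0, hV0, he 0⟩ X
  refine ⟨q, q', δ, e1, e2, e3, fun c => ?_⟩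
  rw [e4, he]
  exact and_iff_left rfl

end H88OD
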