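import Pool.Agent.H88.OD.Gf

/-!
Project MP_78d38b_OD: the Selmer groups of `E_D` and `E_{D ε}`, where `ε` has odd order at the primes of a finite set
`T` of special primes (a version of Gf for any number of primes).
-/

set_option autoImplicit false
set_option linter.unusedSectionVars false
open scoped Classical

open WithZero NumberField IsDedekindDomain H38RT
open H38T1 (SC sc scu rep eo la si OddP)
open H76PP (Cub LC ev scm dn)

namespace H88OD

/-- The element `ε` has odd order at the places of `T`, it is a unit at the other places, a square at the places of `Sg`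
and positive at the real places. -/
structure RayT (K : Type) [Field K] [NumberField K] (Sg T : Finset (HeightOneSpectrum (𝓞 K)))
    (ε : K) : Prop where
  ne : ε ≠ 0
  odd : ∀ q ∈ T, Odd (ord (q.valuation K) ε)
  out : ∀ u : HeightOneSpectrum (𝓞 K), u ∉ T → u.valuation K ε = 1
  sq : ∀ u ∈ Sg, IsSquare (algebraMap K (u.adicCompletion K) ε)
  pos : ∀ s : K →+* ℝ, 0 < s ε

variable {K F L : Type} [Field K] [NumberField K] [Field F] [NumberField F] [Field L]
  [NumberField L] [Algebra K F] [Algebra F L] {a b : K} {θ : L} {S : Ext K F L a b θ}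
  {Sg : Finset (HeightOneSpectrum (𝓞 K))}

private theorem Gk_Lv (D : K) (v : HeightOneSpectrum (𝓞 F)) (c : SC L) : S.Lv D v c ↔
    H30ZO.Wc (algebraMap F (v.adicCompletion F)) (algebraMap K F D ^ 2 * algebraMap K F a)
      (algebraMap K F D ^ 3 * algebraMap K F b) (algebraMap F L (algebraMap K F D) * θ) c := by
  unfold Ext.Lv
  rw [map_mul, map_pow, map_mul, map_pow]

private theorem Gk_Lr (D : K) (s : F →+* ℝ) (c : SC L) : S.Lr D s c ↔
    H30ZO.Wc s (algebraMap K F D ^ 2 * algebraMap K F a)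
      (algebraMap K F D ^ 3 * algebraMap K F b) (algebraMap F L (algebraMap K F D) * θ) c := by
  unfold Ext.Lr
  rw [map_mul, map_pow, map_mul, map_pow]

private theorem Gk_div {D δ : K} (hD : D ≠ 0) :
    algebraMap K F (D * δ) / algebraMap K F D = algebraMap K F δ := by
  rw [← map_div₀, mul_div_cancel_left₀ _ hD]

private theorem Gk_ne {D : K} (hD : D ≠ 0) : algebraMap K F D ≠ 0 := (map_ne_zero _).2 hD

private theorem Gk_nhds (v : HeightOneSpectrum (𝓞 F)) :
    ∀ U ∈ nhds (0 : v.adicCompletion F), ∃ k : ℕ, ∀ x : K,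
      (dn K v).valuation K x ≤ exp (-(k : ℤ)) →
        ((algebraMap F (v.adicCompletion F)).comp (algebraMap K F)) x ∈ U := by
  intro U hU
  rw [Valued.mem_nhds_zero] at hU
  obtain ⟨γ, hγ⟩ := hU
  obtain ⟨n, hn⟩ := exists_exp_neg_natCast_lt
    (x := MonoidWithZeroHom.ValueGroup₀.embedding γ.1) (by simp)
  refine ⟨n, fun x hx => hγ ?_⟩
  change Valued.v.restrict _ < γ.1
  rw [Valuation.restrict_lt_iff_lt_embedding]
  refine lt_of_le_of_lt ?_ hn
  have h2 := v.valuedAdicCompletion_eq_valuation' (K := F) (algebraMap K F x)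
  change Valued.v (algebraMap F (v.adicCompletion F) (algebraMap K F x)) = _ at h2
  change Valued.v (algebraMap F (v.adicCompletion F) (algebraMap K F x)) ≤ _
  rw [h2]
  exact H76PP.val_exp_le (by positivity) hx

private theorem Gk_sq (v : HeightOneSpectrum (𝓞 F)) {δ : K}
    (h : IsSquare (algebraMap K ((dn K v).adicCompletion K) δ)) :
    IsSquare (algebraMap F (v.adicCompletion F) (algebraMap K F δ)) := by
  have h1 := h.map (Pool.Agent.H10.adicLift (dn K v)
    ((algebraMap F (v.adicCompletion F)).comp (algebraMap K F))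
    (Pool.Agent.H10.continuous_fromVal (dn K v) _ (Gk_nhds v)))
  rw [Pool.Agent.H10.adicLift_algebraMap] at h1
  exact h1

private theorem Gk_tw {D δ : K} (hD : D ≠ 0) (hδ0 : δ ≠ 0) (v : HeightOneSpectrum (𝓞 F))
    (h : IsSquare (algebraMap K ((dn K v).adicCompletion K) δ)) (c : SC L) :
    S.Lv D v c ↔ S.Lv (D * δ) v c := by
  rw [Gk_Lv, Gk_Lv]
  refine H76OD.Wc_tw_iff _ (Gk_ne hD) (Gk_ne (mul_ne_zero hD hδ0)) ?_
  rw [Gk_div hD]
  exact Gk_sq v h

private theorem Gk_twr {D δ : K} (hD : D ≠ 0) (hδ0 : δ ≠ 0) (s : F →+* ℝ)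
    (h : ∀ s : K →+* ℝ, 0 < s δ) (c : SC L) : S.Lr D s c ↔ S.Lr (D * δ) s c := by
  rw [Gk_Lr, Gk_Lr]
  refine H76OD.Wc_tw_real _ (Gk_ne hD) (Gk_ne (mul_ne_zero hD hδ0)) ?_
  rw [Gk_div hD]
  exact h (s.comp (algebraMap K F))

private theorem Gk_good {E : K} (v : HeightOneSpectrum (𝓞 F))
    (h2 : (dn K v).valuation K 2 = 1) (hd : (dn K v).valuation K (4 * a ^ 3 + 27 * b ^ 2) = 1)
    (hE : (dn K v).valuation K E = 1) {c : SC L} (hc : c ∈ H30ZO.HH F L) :
    S.Lv E v c ↔ ∀ w : HeightOneSpectrum (𝓞 L), dn F w = v → eo w c = 0 := by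
  rw [Gk_Lv]
  refine H76OD.Wc_good S.cub v (H76PP.val_le (S.ha _)) (H76PP.val_le (S.hb _)) ?_ ?_
    (H76PP.val_one hE) hc
  · have h := H76PP.val_one (L := F) (w := v) h2
    rwa [map_ofNat] at h
  · have h := H76PP.val_one (L := F) (w := v) hd
    rw [map_add, map_mul, map_mul, map_pow, map_pow, map_ofNat, map_ofNat] at h
    exact h

theorem OkT {D : K} (hok : S.Ok D Sg) {T : Finset (HeightOneSpectrum (𝓞 K))} {ε : K}
    (hε : RayT K Sg T ε) : S.Ok (D * ε) (T ∪ Sg) := by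
  have h : ∀ v : HeightOneSpectrum (𝓞 K), v ∉ T ∪ Sg → v ∉ T ∧ v ∉ Sg := by
    intro v hv
    rw [Finset.mem_union, not_or] at hv
    exact hv
  refine ⟨mul_ne_zero hok.ne hε.ne, fun v hv => hok.two v (h v hv).2,
    fun v hv => hok.dis v (h v hv).2, fun v hv => ?_⟩
  rw [map_mul, hok.val v (h v hv).2, hε.out v (h v hv).1, one_mul]

theorem stepT_fl {D : K} (hok : S.Ok D Sg) {T : Finset (HeightOneSpectrum (𝓞 K))} {ε : K}
    (hε : RayT K Sg T ε) {c : SC L} (hc : S.V (D * ε) c) (Q : Sp S Sg) (hQT : Q.q ∈ T) :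
    Q.fl c = 0 := by
  have hQ : Odd (ord (Q.q.valuation K) (D * ε)) := by
    have h : Q.q.valuation K D = 1 := hok.val _ Q.out
    have h0 : ord (Q.q.valuation K) D = 0 := by
      unfold ord
      rw [h, log_one, neg_zero]
    rw [ord_mul hok.ne hε.ne, h0, zero_add]
    exact hε.odd _ hQT
  unfold Sp.fl
  apply rg_ext
  intro g
  have hc' := V_smul S g⁻¹ hc
  have hv := Q.odd hok.two
  have h2 := H76OD.Wc_spec S.cub (fun v => H76PP.val_le (S.ha _))
    (fun v => H76PP.val_le (S.hb _)) (v := Q.v) hv.1 (by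
      have h := H76PP.val_one (L := F) (w := Q.v) (hok.dis _ Q.out)
      rw [map_add, map_mul, map_mul, map_pow, map_pow, map_ofNat, map_ofNat] at h
      exact h) Q.tw (E := algebraMap K F (D * ε)) (Gk_ne (mul_ne_zero hok.ne hε.ne))
    (by rw [Q.ord_K (mul_ne_zero hok.ne hε.ne)]; exact hQ) hc'.hh
    ((Gk_Lv _ _ _).1 (hc'.fin Q.v))
  rw [coeff_mk]
  exact h2

theorem stepT_Y {D : K} (hok : S.Ok D Sg) {T : Finset (HeightOneSpectrum (𝓞 K))} {ε : K}
    (hε : RayT K Sg T ε) {c : SC L} (hc : S.V (D * ε) c) : S.Y D Sg T c := by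
  refine ⟨hc.hh, fun v hv => ?_, fun s => ?_, fun w h1 h2 => ?_⟩
  · exact (Gk_tw hok.ne hε.ne v (hε.sq _ hv) c).2 (hc.fin v)
  · exact (Gk_twr hok.ne hε.ne s hε.pos c).2 (hc.inf s)
  · refine (Gk_good (E := D * ε) (dn F w) (hok.two _ h1) (hok.dis _ h1) ?_ hc.hh).1
      (hc.fin _) w rfl
    rw [map_mul, hok.val _ h1, hε.out _ h2, one_mul]

theorem stepT_mpr {D : K} (hok : S.Ok D Sg) {T : Finset (HeightOneSpectrum (𝓞 K))} {ε : K}
    (hε : RayT K Sg T ε) {c : SC L} (hc : S.V D c)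
    (hT : ∀ q ∈ T, ∃ Q : Sp S Sg, Q.q = q ∧ Q.fl c = 0) : S.V (D * ε) c := by
  have hY := (V_iff_Y S hok).1 hc
  have hsp : ∀ Q : Sp S Sg, Q.fl c = 0 → ∀ v : HeightOneSpectrum (𝓞 F), dn K v = Q.q →
      S.Lv (D * ε) v c := by
    intro Q hQ v hv
    have htr : Q.tr c = 0 := by
      refine (Q.tr_zero hok.two hc.hh).2 fun w hw => hY.ev w ?_ (Finset.notMem_empty _)
      rw [hw]
      exact Q.out
    rw [Gk_Lv]
    refine H76OD.Wc_sq S.cub v (H76PP.val_le (S.ha _)) (H76PP.val_le (S.hb _)) ?_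
      (Gk_ne (mul_ne_zero hok.ne hε.ne)) ?_
    · have h := Gk_ne (F := F) S.dne
      rw [map_add, map_mul, map_mul, map_pow, map_pow, map_ofNat, map_ofNat] at h
      exact h
    · unfold H30ZO.Sqv
      rw [AddSubgroup.mem_iInf]
      intro w
      rw [AddSubgroup.mem_iInf]
      intro hw
      exact Q.sq_of_zero hok.two hc.hh htr hQ (by rw [hw]; exact hv)
  refine ⟨hc.hh, fun v => ?_, fun s => (Gk_twr hok.ne hε.ne s hε.pos c).1 (hc.inf s)⟩
  by_cases hv : dn K v ∈ Sg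
  · exact (Gk_tw hok.ne hε.ne v (hε.sq _ hv) c).1 (hc.fin v)
  by_cases hv1 : dn K v ∈ T
  · obtain ⟨Q, hQ1, hQ2⟩ := hT _ hv1
    exact hsp Q hQ2 v hQ1.symm
  refine (Gk_good (E := D * ε) v (hok.two _ hv) (hok.dis _ hv) ?_ hc.hh).2 ?_
  · rw [map_mul, hok.val _ hv, hε.out _ hv1, one_mul]
  · exact (Gk_good (E := D) v (hok.two _ hv) (hok.dis _ hv) (hok.val _ hv) hc.hh).1 (hc.fin v)

end H88OD
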