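import Pool.Agent.H88.OD.Gr
import Pool.Agent.H88.OD.Gb
import Pool.Agent.H88.OD.Ch

/-!
ROW Gn (project MP_78d38b_OD, about 150 lines): the next special prime.  Use the STATEMENTS of Ga, Gb, Gt, Gr, Ch.

PROOF. `W` := the group of `S.Y D Sg (Tr ∪ T.image Sp.q)` (exists_YG): finite, in `HH`, stable under `S.ρ g` (Y_smul). It contains the `c` with `S.V D c` (V_iff_Y; more primes allowed) and `y P'` for `P' ∈ T` (Y_of_triv with hR.ev, `(k P').q ∈ Tr`).
Functional: `φ' x := φ x + ∑ P' ∈ T, (P'.tr x * (u P' + S.el φ (y P'))).coeff 1` (additive in `x`: tr_add). Then `S.el φ' x = S.el φ x + ∑ P' ∈ T, P'.tr x * (u P' + S.el φ (y P'))`: the coefficient at `g` is `φ' (S.ρ g⁻¹ • x)`, `P'.tr (S.ρ g⁻¹ • x) = single g⁻¹ 1 * P'.tr x` (tr_smul) and `(single g⁻¹ 1 * z).coeff 1 = z.coeff g` (`coeff_single_mul`).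
`exists_sp S Sg (X ∪ Tr ∪ T.image Sp.q) W .. φ'` gives `P`. For `S.V D c`: `P'.tr c = 0` for `P' ∈ T` (tr_zero: `c` is even above `P'.q ∉ Sg` by V_iff_Y), so `P.fl c = S.el φ' c = S.el φ c`. For `P' ∈ T`: `P''.tr (y P') = 0` for `P'' ∈ T`, `P'' ≠ P'` (tr_zero: `y P'` is even above `P''.q`, which is not `P'.q` (hinj) and not `(k P').q ∈ Tr` (hT)), `P'.tr (y P') = 1`:
`P.fl (y P') = S.el φ (y P') + (u P' + S.el φ (y P')) = u P'` (`rg_two`).
-/

set_option autoImplicit false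
set_option linter.unusedSectionVars false
open scoped Classical

open WithZero NumberField IsDedekindDomain H38RT
open H38T1 (SC sc scu rep eo la si OddP)
open H76PP (Cub LC ev scm dn)

namespace H88OD

variable {K F L : Type} [Field K] [NumberField K] [Field F] [NumberField F] [Field L]
  [NumberField L] [Algebra K F] [Algebra F L] {a b : K} {θ : L} {S : Ext K F L a b θ}
  {Sg : Finset (HeightOneSpectrum (𝓞 K))}

/-- The modified functional. -/
private noncomputable def Gn_fun (φ : SC L →+ ZMod 2) (T : Finset (Sp S Sg))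
    (a' : Sp S Sg → RG (F ≃ₐ[K] F)) : SC L →+ ZMod 2 where
  toFun x := φ x + ∑ P' ∈ T, (P'.tr x * a' P').coeff 1
  map_zero' := by
    have h : ∀ P' : Sp S Sg, P'.tr (0 : SC L) = 0 := by
      intro P'
      have h := P'.tr_add 0 0
      rw [add_zero] at h
      exact left_eq_add.mp h
    rw [map_zero, zero_add]
    refine Finset.sum_eq_zero fun P' _ => ?_
    rw [h, zero_mul]
    rfl
  map_add' x y := by
    rw [map_add, add_add_add_comm, ← Finset.sum_add_distrib]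
    congr 1
    refine Finset.sum_congr rfl fun P' _ => ?_
    rw [P'.tr_add, add_mul, MonoidAlgebra.coeff_add, Finsupp.add_apply]

private lemma Gn_el (φ : SC L →+ ZMod 2) (T : Finset (Sp S Sg))
    (a' : Sp S Sg → RG (F ≃ₐ[K] F)) (x : SC L) :
    S.el (Gn_fun φ T a') x = S.el φ x + ∑ P' ∈ T, P'.tr x * a' P' := by
  refine rg_ext fun g => ?_
  rw [MonoidAlgebra.coeff_add, Finsupp.add_apply]
  have h : (∑ P' ∈ T, P'.tr x * a' P').coeff g = ∑ P' ∈ T, (P'.tr x * a' P').coeff g := by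
    rw [MonoidAlgebra.coeff_sum, Finsupp.finsetSum_apply]
  rw [h]
  change φ (S.ρ g⁻¹ • x) + ∑ P' ∈ T, (P'.tr (S.ρ g⁻¹ • x) * a' P').coeff 1 = φ (S.ρ g⁻¹ • x) + _
  congr 1
  refine Finset.sum_congr rfl fun P' _ => ?_
  rw [P'.tr_smul, mul_assoc, coeff_single_mul, inv_inv, mul_one]

theorem exists_next {D : K} (hok : S.Ok D Sg) {Tr : Finset (HeightOneSpectrum (𝓞 K))}
    {k : Sp S Sg → Sp S Sg} {y : Sp S Sg → SC L} (hR : RefD S Sg Tr k y) (φ : SC L →+ ZMod 2)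
    (X : Finset (HeightOneSpectrum (𝓞 K))) (T : Finset (Sp S Sg))
    (hinj : ∀ P ∈ T, ∀ P' ∈ T, P.q = P'.q → P = P') (hT : ∀ P ∈ T, P.q ∉ Tr)
    (u : Sp S Sg → RG (F ≃ₐ[K] F)) :
    ∃ P : Sp S Sg, P.q ∉ X ∧ P.q ∉ Tr ∧ (∀ P' ∈ T, P'.q ≠ P.q) ∧
      (∀ c, S.V D c → P.fl c = S.el φ c) ∧ ∀ P' ∈ T, P.fl (y P') = u P' := by
  obtain ⟨W, hWf, hW⟩ := exists_YG S hok.ne Sg (Tr ∪ T.image Sp.q)
  have hVW : ∀ c, S.V D c → c ∈ W := fun c hc => by
    have h := (V_iff_Y S hok).1 hc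
    exact (hW c).2 ⟨h.hh, h.fin, h.inf, fun w h1 _ => h.ev w h1 (by simp)⟩
  have hyW : ∀ P' ∈ T, y P' ∈ W := fun P' hP' => by
    refine (hW _).2 (Y_of_triv S hok.ne (hR.hh P' (hT P' hP')) (hR.triv P' (hT P' hP')) ?_)
    intro w _ h2
    refine hR.ev P' (hT P' hP') w ?_ ?_
    · intro e
      exact h2 (e ▸ Finset.mem_union_right _ (Finset.mem_image_of_mem _ hP'))
    · intro e
      exact h2 (e ▸ Finset.mem_union_left _ (hR.kq P'))
  obtain ⟨P, hPX, hP⟩ := exists_sp S Sg (X ∪ Tr ∪ T.image Sp.q) W hWf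
    (fun c hc => ((hW c).1 hc).hh) (fun g c hc => (hW _).2 (Y_smul S g ((hW c).1 hc)))
    (Gn_fun φ T fun P' => u P' + S.el φ (y P'))
  rw [Finset.mem_union, Finset.mem_union, not_or, not_or] at hPX
  refine ⟨P, hPX.1.1, hPX.1.2, ?_, ?_, ?_⟩
  · intro P' hP' e
    exact hPX.2 (e ▸ Finset.mem_image_of_mem _ hP')
  · intro c hc
    rw [(hP c (hVW c hc)).2, Gn_el]
    rw [Finset.sum_eq_zero, add_zero]
    intro P' _
    have h := (V_iff_Y S hok).1 hc
    have h0 : P'.tr c = 0 := (P'.tr_zero hok.two hc.hh).2 fun w hw =>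
      h.ev w (by rw [hw]; exact P'.out) (by simp)
    rw [h0, zero_mul]
  · intro P' hP'
    rw [(hP _ (hyW P' hP')).2, Gn_el]
    rw [Finset.sum_eq_single_of_mem P' hP']
    · rw [hR.tr1 P' (hT P' hP'), one_mul, add_comm (u P'), ← add_assoc, rg_two, zero_add]
    · intro P'' hP'' hne
      have h0 : P''.tr (y P') = 0 := by
        refine (P''.tr_zero hok.two (hR.hh P' (hT P' hP'))).2 fun w hw => ?_
        refine hR.ev P' (hT P' hP') w ?_ ?_
        · intro e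
          exact hne (hinj P'' hP'' P' hP' (hw.symm.trans e))
        · intro e
          exact hT P'' hP'' (by rw [← hw, e]; exact hR.kq P')
      rw [h0, zero_mul]

end H88OD
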