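import Pool.Agent.H88.OD.Gn

/-!
ROW Gp (project MP_78d38b_OD, about 120 lines): a pair of special primes of the same colour.  Use the STATEMENTS of Rc, Gr, Gn.

PROOF. exists_ref gives `Tr, k, y, C, col` (h2 := hok.two). exists_rc K Sg gives `rcK : primes of K → C'`. The colour of `P : Sp S Sg`: `(col P, rcK P.q, P.fl (y P), (k P).fl (y P)) ∈ C × C' × RG G × RG G`, a finite type `C''` (`RG G` is finite: `MonoidAlgebra (ZMod 2) G` is equivalent to `G → ZMod 2`, `mk` and `coeff`). `N := Nat.card C'' + 1`.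
Claim: for every `n` there is `f : ℕ → Sp S Sg` (or: a list) such that for `i < n`: `(f i).q ∉ X`, `(f i).q ∉ Tr`, `∀ c, S.V D c → (f i).fl c = S.el φ c` and for `i < j < n`: `(f i).q ≠ (f j).q` and `(f j).fl (y (f i)) = (f i).fl (y (f i)) + Z`. Induction: `n = 0`: any `f` (a special prime exists by exists_next with `T = ∅`); step: exists_next with `T := (Finset.range n).image f` and `u P := P.fl (y P) + Z`; `f' := Function.update f n P`.
With `n = N`: two indices `i < j < N` have the same colour (pigeonhole `Fintype.exists_ne_map_eq_of_card_lt` or `Finite.exists_ne_map_eq_of_infinite`). `P := f i`, `P' := f j`: `k P = k P'` (same `col`), `δ` from `rcK P.q = rcK P'.q`, `P.q, P'.q ∉ Sg` (`P.out`).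
-/

set_option autoImplicit false
set_option linter.unusedSectionVars false
open scoped Classical

open WithZero NumberField IsDedekindDomain H38RT
open H38T1 (SC sc scu rep eo la si OddP)
open H76PP (Cub LC ev scm dn)

namespace H88OD

variable {K F L : Type} [Field K] [NumberField K] [Field F] [NumberField F] [Field L]
  [NumberField L] [Algebra K F] [Algebra F L] {a b : K} {θ : L} {S : Ext K F L a b θ}
  {Sg : Finset (HeightOneSpectrum (𝓞 K))}

/-- The pair `P, P'` with the reference prime `R` and the classes `y, y'`. -/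
structure PairD (S : Ext K F L a b θ) (D : K) (Sg : Finset (HeightOneSpectrum (𝓞 K)))
    (φ : SC L →+ ZMod 2) (Z : RG (F ≃ₐ[K] F)) (P P' R : Sp S Sg) (y y' : SC L)
    (c d : RG (F ≃ₐ[K] F)) : Prop where
  n1 : P.q ≠ P'.q
  n2 : P.q ≠ R.q
  n3 : P'.q ≠ R.q
  hy : S.Y D Sg {P.q, R.q} y
  hy' : S.Y D Sg {P'.q, R.q} y'
  v : ∀ x, S.V D x → P.fl x = S.el φ x
  v' : ∀ x, S.V D x → P'.fl x = S.el φ x
  t1 : P.tr y = 1
  t2 : R.tr y = 1
  t3 : P'.tr y' = 1
  t4 : R.tr y' = 1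
  f1 : P.fl y = c
  f2 : P'.fl y = c + Z
  f3 : R.fl y = d
  f4 : P'.fl y' = c
  f5 : R.fl y' = d

lemma Gp_seq {D : K} (hok : S.Ok D Sg) (φ : SC L →+ ZMod 2) (Z : RG (F ≃ₐ[K] F))
    (X : Finset (HeightOneSpectrum (𝓞 K))) {Tr : Finset (HeightOneSpectrum (𝓞 K))}
    {k : Sp S Sg → Sp S Sg} {y : Sp S Sg → SC L} (hR : RefD S Sg Tr k y) (n : ℕ) :
    ∃ f : ℕ → Sp S Sg, (∀ i < n, (f i).q ∉ X ∧ (f i).q ∉ Tr ∧
        ∀ c, S.V D c → (f i).fl c = S.el φ c) ∧
      ∀ i j, i < j → j < n → (f i).q ≠ (f j).q ∧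
        (f j).fl (y (f i)) = (f i).fl (y (f i)) + Z := by
  induction n with
  | zero =>
    obtain ⟨P, _⟩ := exists_next hok hR φ X ∅ (fun P hP => absurd hP (Finset.notMem_empty P))
      (fun P hP => absurd hP (Finset.notMem_empty P)) (fun _ => 0)
    exact ⟨fun _ => P, fun i hi => absurd hi (Nat.not_lt_zero i),
      fun i j _ hj => absurd hj (Nat.not_lt_zero j)⟩
  | succ n ih =>
    obtain ⟨f, h1, h2⟩ := ih
    obtain ⟨P, hX, hTr, hne, hV, hu⟩ := exists_next hok hR φ X ((Finset.range n).image f) (by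
        intro P hP P' hP' hq
        obtain ⟨i, hi, rfl⟩ := Finset.mem_image.1 hP
        obtain ⟨j, hj, rfl⟩ := Finset.mem_image.1 hP'
        rw [Finset.mem_range] at hi hj
        rcases lt_trichotomy i j with h | h | h
        · exact absurd hq (h2 i j h hj).1
        · rw [h]
        · exact absurd hq.symm (h2 j i h hi).1) (by
        intro P hP
        obtain ⟨i, hi, rfl⟩ := Finset.mem_image.1 hP
        exact (h1 i (Finset.mem_range.1 hi)).2.1) (fun P => P.fl (y P) + Z)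
    have hf1 : ∀ i, i < n → Function.update f n P i = f i := fun i hi =>
      Function.update_of_ne hi.ne P f
    have hf2 : Function.update f n P n = P := Function.update_self n P f
    have hmem : ∀ i, i < n → f i ∈ (Finset.range n).image f := fun i hi =>
      Finset.mem_image.2 ⟨i, Finset.mem_range.2 hi, rfl⟩
    refine ⟨Function.update f n P, fun i hi => ?_, fun i j hij hj => ?_⟩
    · rcases Nat.lt_succ_iff_lt_or_eq.1 hi with h | h
      · rw [hf1 i h]
        exact h1 i h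
      · rw [h, hf2]
        exact ⟨hX, hTr, hV⟩
    · rcases Nat.lt_succ_iff_lt_or_eq.1 hj with h | h
      · rw [hf1 i (hij.trans h), hf1 j h]
        exact h2 i j hij h
      · subst h
        rw [hf1 i hij, hf2]
        exact ⟨hne _ (hmem i hij), hu _ (hmem i hij)⟩

theorem exists_pair {D : K} (hok : S.Ok D Sg) (φ : SC L →+ ZMod 2) (Z : RG (F ≃ₐ[K] F))
    (X : Finset (HeightOneSpectrum (𝓞 K))) :
    ∃ (P P' R : Sp S Sg) (y y' : SC L) (c d : RG (F ≃ₐ[K] F)) (δ : K),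
      PairD S D Sg φ Z P P' R y y' c d ∧ P.q ∉ X ∧ P'.q ∉ X ∧
      Ray K (Sg : Set (HeightOneSpectrum (𝓞 K))) P.q P'.q δ := by
  obtain ⟨Tr, k, y, C, hC, col, hR, hcol⟩ := exists_ref S Sg hok.two
  obtain ⟨C', hC', rc, hrc⟩ := exists_rc K Sg
  have hRG : Finite (RG (F ≃ₐ[K] F)) :=
    Finite.of_injective (fun x : RG (F ≃ₐ[K] F) => fun g => x.coeff g)
      (fun x x' h => rg_ext fun g => congrFun h g)
  have hfin : Finite (C × C' × RG (F ≃ₐ[K] F) × RG (F ≃ₐ[K] F)) := inferInstance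
  obtain ⟨f, h1, h2⟩ := Gp_seq hok φ Z X hR
    (Nat.card (C × C' × RG (F ≃ₐ[K] F) × RG (F ≃ₐ[K] F)) + 1)
  obtain ⟨i, j, hij, hj, hc⟩ : ∃ i j, i < j ∧
      j < Nat.card (C × C' × RG (F ≃ₐ[K] F) × RG (F ≃ₐ[K] F)) + 1 ∧
      (col (f i), rc (f i).q, (f i).fl (y (f i)), (k (f i)).fl (y (f i))) =
      (col (f j), rc (f j).q, (f j).fl (y (f j)), (k (f j)).fl (y (f j))) := by
    have hF : Fintype (C × C' × RG (F ≃ₐ[K] F) × RG (F ≃ₐ[K] F)) := Fintype.ofFinite _
    have hcard : Fintype.card (C × C' × RG (F ≃ₐ[K] F) × RG (F ≃ₐ[K] F)) <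
        Fintype.card (Fin (Nat.card (C × C' × RG (F ≃ₐ[K] F) × RG (F ≃ₐ[K] F)) + 1)) := by
      rw [Fintype.card_fin, Nat.card_eq_fintype_card]
      exact Nat.lt_succ_self _
    obtain ⟨i, j, hne, he⟩ := Fintype.exists_ne_map_eq_of_card_lt
      (fun t : Fin (Nat.card (C × C' × RG (F ≃ₐ[K] F) × RG (F ≃ₐ[K] F)) + 1) =>
        (col (f t), rc (f t).q, (f t).fl (y (f t)), (k (f t)).fl (y (f t)))) hcard
    rcases lt_or_gt_of_ne hne with h | h
    · exact ⟨i, j, h, j.2, he⟩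
    · exact ⟨j, i, h, i.2, he.symm⟩
  rw [Prod.mk.injEq, Prod.mk.injEq, Prod.mk.injEq] at hc
  obtain ⟨c1, c2, c3, c4⟩ := hc
  obtain ⟨hiX, hiT, hiV⟩ := h1 i (hij.trans hj)
  obtain ⟨hjX, hjT, hjV⟩ := h1 j hj
  obtain ⟨hq, hfl⟩ := h2 i j hij hj
  have hk : k (f i) = k (f j) := hcol _ _ c1
  obtain ⟨δ, hδ⟩ := hrc (f i).q (f j).q (f i).out (f j).out hq c2
  have hY : ∀ P : Sp S Sg, P.q ∉ Tr → S.Y D Sg {P.q, (k P).q} (y P) := by
    intro P hP
    refine Y_of_triv S hok.ne (hR.hh P hP) (hR.triv P hP) fun w _ h => ?_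
    rw [Finset.mem_insert, Finset.mem_singleton, not_or] at h
    exact hR.ev P hP w h.1 h.2
  refine ⟨f i, f j, k (f i), y (f i), y (f j), (f i).fl (y (f i)), (k (f i)).fl (y (f i)), δ,
    ?_, hiX, hjX, hδ⟩
  refine ⟨hq, fun h => hiT (h ▸ hR.kq _), fun h => hjT (h ▸ hR.kq _), hY _ hiT, ?_, hiV, hjV,
    hR.tr1 _ hiT, hR.tr2 _ hiT, hR.tr1 _ hjT, ?_, rfl, hfl, rfl, c3.symm, ?_⟩
  · rw [hk]
    exact hY _ hjT
  · rw [hk]
    exact hR.tr2 _ hjT
  · rw [c4, hk]

end H88OD
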