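import Pool.Agent.H88.OD.Rc
import Pool.Agent.H88.OD.Gd

/-!
ROW Gr (project MP_78d38b_OD, about 100 lines): reference primes and the classes `y`.  Use the STATEMENTS of Rc and Gd.

PROOF. `exists_rcS L` for the finite set `{w | dn K (dn F w) ∈ Sg}` (fin_above): `rc : places of L → C0`, `C0` finite. Put `col P := rc P.t2`. For every colour `κ` which is `col P` for some `P : Sp S Sg` choose one such `P`, called `r κ`; if there is no special prime at all, everything is trivial (`Sp S Sg` empty: functions by `isEmptyElim`).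
`k P := r (col P)`: so `col (k P) = col P`. `Tr := ` the finite set of all `(r κ).q` (`Set.Finite.toFinset` of the range of `κ ↦ (r κ).q`, or `Finset.image` over `Fintype C0`). Let `P.q ∉ Tr`: then `P.q ≠ (k P).q`, so `P.t2 ≠ (k P).t2` (the primes of `K` below: `P.tw.dn2`), both outside the set (`P.out`), with the same colour:
`z` with `Ray L _ P.t2 (k P).t2 z`, and `exists_y` gives `y P` (choose; `y P := 0` if `P.q ∈ Tr`).
-/

set_option autoImplicit false
set_option linter.unusedSectionVars false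
open scoped Classical

open WithZero NumberField IsDedekindDomain H38RT
open H38T1 (SC sc scu rep eo la si OddP)
open H76PP (Cub LC ev scm dn)

namespace H88OD

variable {K F L : Type} [Field K] [NumberField K] [Field F] [NumberField F] [Field L]
  [NumberField L] [Algebra K F] [Algebra F L] {a b : K} {θ : L}

/-- Reference primes `k P` and classes `y P`. -/
structure RefD (S : Ext K F L a b θ) (Sg Tr : Finset (HeightOneSpectrum (𝓞 K)))
    (k : Sp S Sg → Sp S Sg) (y : Sp S Sg → SC L) : Prop where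
  kq : ∀ P, (k P).q ∈ Tr
  hh : ∀ P : Sp S Sg, P.q ∉ Tr → y P ∈ H30ZO.HH F L
  triv : ∀ P : Sp S Sg, P.q ∉ Tr → S.Triv Sg (y P)
  tr1 : ∀ P : Sp S Sg, P.q ∉ Tr → P.tr (y P) = 1
  tr2 : ∀ P : Sp S Sg, P.q ∉ Tr → (k P).tr (y P) = 1
  ev : ∀ P : Sp S Sg, P.q ∉ Tr → ∀ w : HeightOneSpectrum (𝓞 L), dn K (dn F w) ≠ P.q →
    dn K (dn F w) ≠ (k P).q → eo w (y P) = 0

theorem exists_ref (S : Ext K F L a b θ) (Sg : Finset (HeightOneSpectrum (𝓞 K)))
    (h2 : ∀ v, v ∉ Sg → v.valuation K 2 = 1) :
    ∃ (Tr : Finset (HeightOneSpectrum (𝓞 K))) (k : Sp S Sg → Sp S Sg) (y : Sp S Sg → SC L)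
      (C : Type) (_ : Finite C) (col : Sp S Sg → C),
      RefD S Sg Tr k y ∧ ∀ P P', col P = col P' → k P = k P' := by
  obtain ⟨C, hC, rc, hrc⟩ := exists_rcS L (fin_above (K := K) (F := F) (L := L) Sg)
  by_cases hne : Nonempty (Sp S Sg)
  · let col : Sp S Sg → C := fun P => rc P.t2
    let r : C → Sp S Sg := Function.invFun col
    have hr : ∀ P : Sp S Sg, col (r (col P)) = col P := fun P => Function.invFun_eq ⟨P, rfl⟩
    let Tr : Finset (HeightOneSpectrum (𝓞 K)) :=
      (Set.finite_range (fun κ : C => (r κ).q)).toFinset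
    have hTr : ∀ P : Sp S Sg, (r (col P)).q ∈ Tr := fun P =>
      (Set.Finite.mem_toFinset _).2 ⟨col P, rfl⟩
    have hdn : ∀ P : Sp S Sg, dn K (dn F P.t2) = P.q := fun P => by
      rw [P.tw.dn2]
      rfl
    have hout : ∀ P : Sp S Sg, P.t2 ∉ {w : HeightOneSpectrum (𝓞 L) | dn K (dn F w) ∈ Sg} := by
      intro P hP
      rw [Set.mem_setOf_eq, P.tw.dn2] at hP
      exact P.out hP
    have hy : ∀ P : Sp S Sg, ∃ c : SC L, P.q ∉ Tr → (c ∈ H30ZO.HH F L ∧ S.Triv Sg c ∧
        P.tr c = 1 ∧ (r (col P)).tr c = 1 ∧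
        ∀ w : HeightOneSpectrum (𝓞 L), dn K (dn F w) ≠ P.q →
          dn K (dn F w) ≠ (r (col P)).q → eo w c = 0) := by
      intro P
      by_cases hP : P.q ∈ Tr
      · exact ⟨0, fun h => absurd hP h⟩
      · have hq : P.q ≠ (r (col P)).q := fun e => hP (e ▸ hTr P)
        have ht : P.t2 ≠ (r (col P)).t2 := by
          intro e
          apply hq
          rw [← hdn P, ← hdn (r (col P)), e]
        obtain ⟨z, hz⟩ := hrc P.t2 (r (col P)).t2 (hout P) (hout _) ht (hr P).symm
        obtain ⟨c, hc⟩ := exists_y h2 P (r (col P)) hq hz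
        exact ⟨c, fun _ => hc⟩
    choose y hy using hy
    refine ⟨Tr, fun P => r (col P), y, C, hC, col, ⟨hTr, fun P hP => (hy P hP).1,
      fun P hP => (hy P hP).2.1, fun P hP => (hy P hP).2.2.1, fun P hP => (hy P hP).2.2.2.1,
      fun P hP => (hy P hP).2.2.2.2⟩, fun P P' e => ?_⟩
    change r (col P) = r (col P')
    rw [e]
  · have hem : ∀ P : Sp S Sg, False := fun P => hne ⟨P⟩
    exact ⟨∅, fun P => P, fun P => 0, C, hC, fun P => rc P.t2, ⟨fun P => (hem P).elim,
      fun P => (hem P).elim, fun P => (hem P).elim, fun P => (hem P).elim,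
      fun P => (hem P).elim, fun P => (hem P).elim⟩, fun P => (hem P).elim⟩

end H88OD
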