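import Pool.Agent.H88.OD.Gc

/-!
ROW Gt (project MP_78d38b_OD, about 200 lines): the coordinates `tr` and `fl`.  Use the STATEMENTS of Ga, Gc.

eo_t1: for `c ∈ HH` the order at `t1` is even: norm `N c` a square, `v(N y) = t1(y) + 2 t2(y)` (lemma gg_eo1 used in Pool/Agent/H76/MX/Rc.lean: `gg_eo1 hR hvo hTT.toTwG D.h.finrank hy0 hN'`; needs `HR2`: `hr2 h hd` of Pool/Agent/H76/PP/Ze.lean).
tr_add, fl_add: eo_add, la_add (H38T1; la_add needs OddP at `t1`: `H76PP.oddP_dn`, hypothesis h2). tr_smul, fl_smul: coefficients: `coeff_single_mul`; `S.ρ` is a homomorphism.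
tr_zero: `P.tr c = 0` iff `eo (t2) (S.ρ g⁻¹ • c) = 0` for all `g`, i.e. (`eo_smul`) `eo (S.ρ g • t2) c = 0` for all `g`; with above and eo_t1 (applied to `S.ρ g⁻¹ • c`, HH_smul) this is the evenness at all places above `q`.
sq_of_zero: if `P.tr c = 0` and `P.fl c = 0` then for every place `w` above `q` the class is a square in `L_w`: `c` is even at `w`; at `w = S.ρ g • t1`: `la` of `S.ρ g⁻¹ • c` at `t1` is zero, so (`la_smul`) `la w c = 0` and an element of even order with `la = 0` is a square in the completion (odd place: Hensel;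
see `H30ZO` Ac / index_Sq or `H73P2` for the equivalence `c ∈ Sq w ↔ eo w c = 0 ∧ la w c = 0`); at `w = S.ρ g • t2`: `la (t2) = la (t1)` for even classes of square norm (the norm from the residue field of `t2` to that of `v` maps nonsquares to nonsquares; `gg_la` or similar in Pool/Agent/H76/MQ, Pool/Agent/H76/MX/Gg*.lean, Pool/Agent/H76/PP/Tg.lean).
-/

set_option autoImplicit false
set_option linter.unusedSectionVars false
open scoped Classical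

open WithZero NumberField IsDedekindDomain H38RT
open H38T1 (SC sc scu rep eo la si OddP)
open H76PP (Cub LC ev scm dn)

namespace H88OD

variable {K F L : Type} [Field K] [NumberField K] [Field F] [NumberField F] [Field L]
  [NumberField L] [Algebra K F] [Algebra F L] {a b : K} {θ : L} {S : Ext K F L a b θ}
  {Sg : Finset (HeightOneSpectrum (𝓞 K))}

private theorem gt_sq {w : HeightOneSpectrum (𝓞 L)} (hw : OddP w) {c : SC L} (h0 : eo w c = 0)
    (h1 : la w c = 0) : c ∈ H30ZO.Sq w := by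
  obtain ⟨x, hx, rfl⟩ := H38T1.sc_surj c
  rw [H38T1.eo_sc hx] at h0
  rw [H38T1.la_sc hw hx] at h1
  have hS : Sq (w.valuation L) (x * H38T1.unif w ^ (-ord (w.valuation L) x)) := by
    by_contra h2
    unfold lam at h1
    rw [if_neg h2] at h1
    exact one_ne_zero h1
  have hπ := H38T1.unif_spec w
  have hπ0 : H38T1.unif w ≠ 0 := by
    intro h
    rw [h, map_zero] at hπ
    exact exp_ne_zero hπ.symm
  obtain ⟨k, hk⟩ : Even (ord (w.valuation L) x) := by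
    rw [← ZMod.intCast_eq_zero_iff_even]
    exact h0
  obtain ⟨t, ht⟩ := hS
  set y : L := x * H38T1.unif w ^ (-ord (w.valuation L) x) with hy
  have hVy : w.valuation L y = 1 := by
    rw [hy, map_mul, map_zpow₀, hπ, H38RT.V_eq (V := w.valuation L) hx, ← exp_zsmul, ← exp_add,
      smul_eq_mul]
    have e : -ord (w.valuation L) x + -ord (w.valuation L) x * -1 = 0 := by ring
    rw [e, exp_zero]
  have h4 : w.valuation L 4 = 1 := by
    have h : (4 : L) = 2 * 2 := by norm_num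
    have h2 : w.valuation L 2 = 1 := hw
    rw [h, map_mul, h2, one_mul]
  have ht1 : w.valuation L (t ^ 2) = 1 := by
    have e : t ^ 2 = y - (y - t ^ 2) := by ring
    rw [e, Valuation.map_sub_eq_of_lt_left _ (by rw [hVy]; exact ht), hVy]
  obtain ⟨r, -, hr⟩ := H36CY.sq_near' w (y := y) (z := t ^ 2) (by
    rw [map_mul, h4, one_mul, ht1]
    exact ht)
  rw [H30ZO.mem_Sq hx]
  have hxy : x = y * (H38T1.unif w ^ k) ^ 2 := by
    rw [hy, mul_assoc]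
    have e1 : (H38T1.unif w) ^ (-ord (w.valuation L) x) * ((H38T1.unif w) ^ k) ^ 2 = 1 := by
      rw [← zpow_natCast, ← zpow_mul, ← zpow_add₀ hπ0]
      have : -ord (w.valuation L) x + k * ((2 : ℕ) : ℤ) = 0 := by
        push_cast
        omega
      rw [this, zpow_zero]
    rw [e1, mul_one]
  refine ⟨algebraMap L (w.adicCompletion L) (t * H38T1.unif w ^ k) * r, ?_⟩
  rw [hxy, map_mul, hr, map_mul, map_pow, map_pow]
  ring

private theorem gt_int {x : K} (hx : ∀ v : HeightOneSpectrum (𝓞 K), v.valuation K x ≤ 1) :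
    ∃ y : 𝓞 F, (y : F) = algebraMap K F x := by
  obtain ⟨z, hz⟩ := HeightOneSpectrum.mem_integers_of_valuation_le_one K x hx
  refine ⟨algebraMap (𝓞 K) (𝓞 F) z, ?_⟩
  rw [← hz]
  rfl

private theorem gt_hr (S : Ext K F L a b θ) : ∃ A B : 𝓞 F, (A : F) = algebraMap K F a ∧
    (B : F) = algebraMap K F b ∧ H76PP.HR2 F L A B θ := by
  obtain ⟨A, hA⟩ := gt_int (F := F) S.ha
  obtain ⟨B, hB⟩ := gt_int (F := F) S.hb
  refine ⟨A, B, hA, hB, H76PP.hr2 ?_ ?_⟩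
  · rw [hA, hB]
    exact S.cub
  · rw [hA, hB]
    intro h
    refine S.dne ((algebraMap K F).injective ?_)
    rw [map_zero, ← h]
    simp only [map_add, map_mul, map_pow, map_ofNat]

private theorem gt_rep {c : SC L} (hc : c ∈ H30ZO.HH F L) : ∃ y : L, y ≠ 0 ∧ sc y = c ∧
    IsSquare (Algebra.norm F y) := by
  obtain ⟨y, hy, rfl⟩ := H38T1.sc_surj c
  exact ⟨y, hy, rfl, (H30ZO.mem_HH hy).1 hc⟩

theorem Sp.eo_t1 (P : Sp S Sg) (h2 : ∀ v, v ∉ Sg → v.valuation K 2 = 1) {c : SC L}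
    (hc : c ∈ H30ZO.HH F L) : eo P.t1 c = 0 := by
  obtain ⟨A, B, -, -, hR⟩ := gt_hr S
  obtain ⟨y, hy, rfl, hN⟩ := gt_rep hc
  exact H76MQ.gg_eo1 hR (P.odd h2).1 P.tw.toTwG S.cub.finrank hy hN

private theorem gt_ρ (S : Ext K F L a b θ) (g : F ≃ₐ[K] F) (c : SC L) :
    S.ρ g • S.ρ g⁻¹ • c = c := by
  rw [smul_smul, ← map_mul, mul_inv_cancel, map_one, one_smul]

theorem Sp.tr_add (P : Sp S Sg) (c c' : SC L) : P.tr (c + c') = P.tr c + P.tr c' := by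
  refine rg_ext fun g => ?_
  rw [MonoidAlgebra.coeff_add, Finsupp.add_apply]
  change eo P.t2 (S.ρ g⁻¹ • (c + c')) = eo P.t2 (S.ρ g⁻¹ • c) + eo P.t2 (S.ρ g⁻¹ • c')
  rw [smul_add, H38T1.eo_add]

theorem Sp.fl_add (P : Sp S Sg) (h2 : ∀ v, v ∉ Sg → v.valuation K 2 = 1) (c c' : SC L) :
    P.fl (c + c') = P.fl c + P.fl c' := by
  refine rg_ext fun g => ?_
  rw [MonoidAlgebra.coeff_add, Finsupp.add_apply]
  change la P.t1 (S.ρ g⁻¹ • (c + c')) + P.nu * eo P.t2 (S.ρ g⁻¹ • (c + c')) =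
    (la P.t1 (S.ρ g⁻¹ • c) + P.nu * eo P.t2 (S.ρ g⁻¹ • c)) +
      (la P.t1 (S.ρ g⁻¹ • c') + P.nu * eo P.t2 (S.ρ g⁻¹ • c'))
  rw [smul_add, H38T1.eo_add, H38T1.la_add (P.odd h2).2.1]
  ring

theorem Sp.tr_smul (P : Sp S Sg) (g : F ≃ₐ[K] F) (c : SC L) :
    P.tr (S.ρ g • c) = (MonoidAlgebra.single g 1 : RG (F ≃ₐ[K] F)) * P.tr c := by
  refine rg_ext fun h => ?_
  rw [coeff_single_mul]
  change eo P.t2 (S.ρ h⁻¹ • (S.ρ g • c)) = eo P.t2 (S.ρ (g⁻¹ * h)⁻¹ • c)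
  rw [smul_smul, ← map_mul, mul_inv_rev, inv_inv]

theorem Sp.fl_smul (P : Sp S Sg) (g : F ≃ₐ[K] F) (c : SC L) :
    P.fl (S.ρ g • c) = (MonoidAlgebra.single g 1 : RG (F ≃ₐ[K] F)) * P.fl c := by
  refine rg_ext fun h => ?_
  rw [coeff_single_mul]
  change la P.t1 (S.ρ h⁻¹ • (S.ρ g • c)) + P.nu * eo P.t2 (S.ρ h⁻¹ • (S.ρ g • c)) =
    la P.t1 (S.ρ (g⁻¹ * h)⁻¹ • c) + P.nu * eo P.t2 (S.ρ (g⁻¹ * h)⁻¹ • c)
  rw [smul_smul, ← map_mul, mul_inv_rev, inv_inv]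

private theorem gt_e1 (P : Sp S Sg) (h2 : ∀ v, v ∉ Sg → v.valuation K 2 = 1) {c : SC L}
    (hc : c ∈ H30ZO.HH F L) (g : F ≃ₐ[K] F) : eo P.t1 (S.ρ g⁻¹ • c) = 0 :=
  P.eo_t1 h2 (HH_smul S g⁻¹ hc)

private theorem gt_e2 (P : Sp S Sg) (c : SC L) (g : F ≃ₐ[K] F) :
    eo P.t2 (S.ρ g⁻¹ • c) = (P.tr c).coeff g := rfl

theorem Sp.tr_zero (P : Sp S Sg) (h2 : ∀ v, v ∉ Sg → v.valuation K 2 = 1) {c : SC L}
    (hc : c ∈ H30ZO.HH F L) :
    P.tr c = 0 ↔ ∀ w : HeightOneSpectrum (𝓞 L), dn K (dn F w) = P.q → eo w c = 0 := by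
  constructor
  · intro h w hw
    obtain ⟨g, hg | hg⟩ := P.above hw
    · rw [hg, ← gt_ρ S g c, H38T1.eo_smul]
      exact gt_e1 P h2 hc g
    · rw [hg, ← gt_ρ S g c, H38T1.eo_smul, gt_e2, h]
      rfl
  · intro h
    refine rg_ext fun g => ?_
    have h3 := h (S.ρ g • P.t2) (by
      rw [dn_smul, P.tw.dn2, dn_gq]
      rfl)
    rw [← gt_ρ S g c, H38T1.eo_smul] at h3
    exact h3

theorem Sp.sq_of_zero (P : Sp S Sg) (h2 : ∀ v, v ∉ Sg → v.valuation K 2 = 1) {c : SC L}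
    (hc : c ∈ H30ZO.HH F L) (h1 : P.tr c = 0) (h3 : P.fl c = 0) {w : HeightOneSpectrum (𝓞 L)}
    (hw : dn K (dn F w) = P.q) : c ∈ H30ZO.Sq w := by
  have he := (P.tr_zero h2 hc).1 h1 w hw
  obtain ⟨g, hg⟩ := P.above hw
  have e2 : eo P.t2 (S.ρ g⁻¹ • c) = 0 := by
    rw [gt_e2, h1]
    rfl
  have e1 := gt_e1 P h2 hc g
  have l1 : la P.t1 (S.ρ g⁻¹ • c) = 0 := by
    have h4 : la P.t1 (S.ρ g⁻¹ • c) + P.nu * eo P.t2 (S.ρ g⁻¹ • c) = (P.fl c).coeff g := rfl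
    rw [h3, e2, mul_zero, add_zero] at h4
    exact h4
  have ho := P.odd h2
  rcases hg with hg | hg
  · refine gt_sq (by rw [hg, H38T1.oddP_smul]; exact ho.2.1) he ?_
    rw [hg, ← gt_ρ S g c, H38T1.la_smul _ ho.2.1 e1]
    exact l1
  · refine gt_sq (by rw [hg, H38T1.oddP_smul]; exact ho.2.2) he ?_
    rw [hg, ← gt_ρ S g c, H38T1.la_smul _ ho.2.2 e2]
    obtain ⟨A, B, -, -, hR⟩ := gt_hr S
    obtain ⟨y, hy, hyc, hN⟩ := gt_rep (HH_smul S g⁻¹ hc)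
    rw [← hyc] at e2 l1 ⊢
    rw [H76MQ.gg_la12 hR ho.1 P.tw.toTwG S.cub.finrank hy hN e2]
    exact l1

end H88OD
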