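import Pool.Agent.H88.OD.Ha
import Pool.Agent.H88.OD.Gn

/-!
ROW Hb (project MP_78d38b_OD, about 300 lines): two pairs of special primes (`F = K`).  Use the STATEMENTS of Ha, Gn, Gr, Rc, Gb, Gt.

PROOF. exists_ref: `Tr, k, y, C, col` (h2 := hok.two). exists_rc K Sg: `rcK`. For `P : Sp S Sg` with `P.q ∉ Tr` put `uk P : Tr → RG G`, `uk P q := if h : ∃ R : Sp S Sg, R.q = q then h.choose.fl (y P) else 0`; by Sp_eq `uk P ⟨R.q, _⟩ = R.fl (y P)` for every `R : Sp S Sg` with `R.q ∈ Tr` (in particular for `R = k P'`).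
Colour of `P`: `(col P, rcK P.q, P.fl (y P), uk P)`; colour of a pair `(p, s)`: both colours: a finite type.
CHAIN: for every `n` there are `p, s : ℕ → Sp S Sg` such that for `i < n`: `(p i).q, (s i).q ∉ X ∪ Tr`, `(p i).q ≠ (s i).q`, `(p i).fl c = S.el φ1 c` and `(s i).fl c = S.el φ2 c` if `S.V D c`, `(s i).fl (y (p i)) = 0`, and for `i < j < n`: `(p i).q, (s i).q` are different from `(p j).q, (s j).q`,
`(p j).fl (y (s i)) = 0`, `(s j).fl (y (p i)) = 1 + (k (s i)).fl (y (p i)) + (k (p i)).fl (y (s i))`. Induction: `T := ` the set of all `p i, s i`, `i < n`; exists_next for `φ1`, `T` and `u P := 0` gives `p n`; exists_next for `φ2`, `insert (p n) T` gives `s n` with `u (p n) = 0` and `u (p i) = 1 + ..` (well defined: the `p i, s i` are different; `u P := if h : ∃ i < n, P = p i then 1 + (k (s h.choose)).fl (y P) + (k P).fl (y (s h.choose)) else 0`).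
PIGEONHOLE: `n = (number of colours) + 1`: `i < j` with the same colour for `(p, s)`. Put `p1 := p i, p2 := p j, s1 := s i, s2 := s j`, `f1 := y p1 + y p2`, `f2 := y s1 + y s2`. `k p1 = k p2 =: R`, `k s1 = k s2 =: R'`.
f1 in `S.Y D Sg {p1.q, p2.q}`: HH is a subgroup; local conditions: Y_of_triv for `y p1`, `y p2` and the group `W` (exists_YG with `{p1.q, p2.q, R.q}`); even above `R.q`: `R.tr f1 = 1 + 1 = 0` (tr2, tr_add, `rg_two`) and tr_zero; even at the other places (ev).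
t1: `p1.tr f1 = p1.tr (y p1) + p1.tr (y p2) = 1 + 0` (tr_zero: `y p2` is even above `p1.q`: `p1.q ≠ p2.q`, `p1.q ≠ R.q` since `p1.q ∉ Tr`). The others in the same way.
g1: `p1.fl f1 + p2.fl f1 = c1 + p1.fl (y p2) + p2.fl (y p1) + c2`, `c1 = p1.fl (y p1) = p2.fl (y p2) = c2` (colour). rec_fin for `T = {p1, p2, R}`, `x = y p1`, `y = y p2`: `p1.fl (y p2) + p2.fl (y p1) + (R.fl (y p2) + R.fl (y p1)) = 0` (the products with `tr = 1` and `tr = 0`) and `R.fl (y p1) = R.fl (y p2)` (colour). So the sum is zero (`rg_two`).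
g2: `s1.fl f1 + s2.fl f1 = s1.fl (y p1) + s1.fl (y p2) + s2.fl (y p1) + s2.fl (y p2) = 0 + s1.fl (y p2) + (1 + R'.fl (y p1) + R.fl (y s1)) + 0`. rec_fin for `T = {s1, p2, R, R'}` (if `R = R'` this is `{s1, p2, R}`), `x = y s1`, `y = y p2`: `s1.fl (y p2) + p2.fl (y s1) + R'.fl (y p2) + R.fl (y s1) = 0` (both if `R = R'` and if `R ≠ R'`: then `R.tr (y s1) = 0`, `R'.tr (y p2) = 0`). `p2.fl (y s1) = 0` (chain), `R'.fl (y p2) = R'.fl (y p1)` (colour).
So `s1.fl (y p2) = R'.fl (y p1) + R.fl (y s1)` and the sum is `1`.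
-/

set_option autoImplicit false
set_option linter.unusedSectionVars false
open scoped Classical

open WithZero NumberField IsDedekindDomain H38RT
open H38T1 (SC sc scu rep eo la si OddP)
open H76PP (Cub LC ev scm dn)

namespace H88OD

variable {K L : Type} [Field K] [NumberField K] [Field L]
  [NumberField L] [Algebra K L] {a b : K} {θ : L} {S : Ext K K L a b θ}
  {Sg : Finset (HeightOneSpectrum (𝓞 K))}

/-- Two pairs of special primes. -/
structure QuadD (S : Ext K K L a b θ) (D : K) (Sg : Finset (HeightOneSpectrum (𝓞 K)))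
    (φ1 φ2 : SC L →+ ZMod 2) (p1 p2 s1 s2 : Sp S Sg) (f1 f2 : SC L) : Prop where
  n12 : p1.q ≠ p2.q
  n34 : s1.q ≠ s2.q
  n13 : p1.q ≠ s1.q
  n14 : p1.q ≠ s2.q
  n23 : p2.q ≠ s1.q
  n24 : p2.q ≠ s2.q
  v1 : ∀ x, S.V D x → p1.fl x = S.el φ1 x ∧ p2.fl x = S.el φ1 x
  v2 : ∀ x, S.V D x → s1.fl x = S.el φ2 x ∧ s2.fl x = S.el φ2 x
  y1 : S.Y D Sg {p1.q, p2.q} f1
  y2 : S.Y D Sg {s1.q, s2.q} f2
  t1 : p1.tr f1 = 1 ∧ p2.tr f1 = 1
  t2 : s1.tr f2 = 1 ∧ s2.tr f2 = 1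
  g1 : p1.fl f1 + p2.fl f1 = 0
  g2 : s1.fl f1 + s2.fl f1 = 1

lemma Hb_fin {G : Type} [Group G] [Finite G] : Finite (RG G) := by
  refine Finite.of_injective (fun x : RG G => fun g : G => x.coeff g) ?_
  intro x y h
  exact rg_ext fun g => congrFun h g

lemma Hb_tr0 {D : K} (hok : S.Ok D Sg) {Tr : Finset (HeightOneSpectrum (𝓞 K))}
    {k : Sp S Sg → Sp S Sg} {y : Sp S Sg → SC L} (hR : RefD S Sg Tr k y) {P R : Sp S Sg}
    (hP : P.q ∉ Tr) (h1 : R.q ≠ P.q) (h2 : R.q ≠ (k P).q) : R.tr (y P) = 0 := by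
  refine (R.tr_zero hok.two (hR.hh P hP)).2 fun w hw => hR.ev P hP w ?_ ?_
  · rw [hw]
    exact h1
  · rw [hw]
    exact h2

lemma Hb_Y {D : K} (hok : S.Ok D Sg) {Tr : Finset (HeightOneSpectrum (𝓞 K))}
    {k : Sp S Sg → Sp S Sg} {y : Sp S Sg → SC L} (hR : RefD S Sg Tr k y) {P : Sp S Sg}
    (hP : P.q ∉ Tr) {T : Finset (HeightOneSpectrum (𝓞 K))} (h1 : P.q ∈ T) (h2 : (k P).q ∈ T) :
    S.Y D Sg T (y P) := by
  refine Y_of_triv S hok.ne (hR.hh P hP) (hR.triv P hP) fun w _ hw => hR.ev P hP w ?_ ?_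
  · intro e
    rw [e] at hw
    exact hw h1
  · intro e
    rw [e] at hw
    exact hw h2

/-- The reciprocity law for `y p` and `y s`. -/
lemma Hb_rec {D : K} (hok : S.Ok D Sg) {Tr : Finset (HeightOneSpectrum (𝓞 K))}
    {k : Sp S Sg → Sp S Sg} {y : Sp S Sg → SC L} (hR : RefD S Sg Tr k y) {p s : Sp S Sg}
    (hp : p.q ∉ Tr) (hs : s.q ∉ Tr) (hps : p.q ≠ s.q) :
    s.fl (y p) + p.fl (y s) + (k s).fl (y p) + (k p).fl (y s) = 0 := by
  have hpk : p.q ≠ (k p).q := fun e => hp (e ▸ hR.kq p)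
  have hpk' : p.q ≠ (k s).q := fun e => hp (e ▸ hR.kq s)
  have hsk : s.q ≠ (k s).q := fun e => hs (e ▸ hR.kq s)
  have hsk' : s.q ≠ (k p).q := fun e => hs (e ▸ hR.kq p)
  have a1 : s.tr (y s) = 1 := hR.tr1 s hs
  have a2 : p.tr (y p) = 1 := hR.tr1 p hp
  have a3 : s.tr (y p) = 0 := Hb_tr0 hok hR hp (Ne.symm hps) hsk'
  have a4 : p.tr (y s) = 0 := Hb_tr0 hok hR hs hps hpk'
  have a5 : (k s).tr (y s) = 1 := hR.tr2 s hs
  have a6 : (k p).tr (y p) = 1 := hR.tr2 p hp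
  by_cases hk : k s = k p
  · have h := rec_fin hok {s, p, k p} (x := y s) (y := y p)
      (Hb_Y hok hR hs (Finset.mem_image_of_mem _ (by simp)) (by
        rw [hk]
        exact Finset.mem_image_of_mem _ (by simp)))
      (Hb_Y hok hR hp (Finset.mem_image_of_mem _ (by simp)) (Finset.mem_image_of_mem _ (by simp)))
    rw [Finset.sum_insert, Finset.sum_insert, Finset.sum_singleton] at h
    · rw [hk] at a5
      rw [a1, a2, a3, a4, a5, a6] at h
      rw [hk]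
      simp only [one_mul, mul_one, zero_mul, mul_zero, add_zero, zero_add] at h
      rw [← h]
      abel
    · rw [Finset.mem_singleton]
      exact fun e => hpk (congrArg Sp.q e)
    · rw [Finset.mem_insert, Finset.mem_singleton]
      rintro (e | e)
      · exact hps (congrArg Sp.q e).symm
      · exact hsk' (congrArg Sp.q e)
  · have hkq : (k s).q ≠ (k p).q := fun e => hk (Sp_eq e)
    have a7 : (k s).tr (y p) = 0 := Hb_tr0 hok hR hp (Ne.symm hpk') hkq
    have a8 : (k p).tr (y s) = 0 := Hb_tr0 hok hR hs (Ne.symm hsk') (Ne.symm hkq)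
    have h := rec_fin hok {s, p, k s, k p} (x := y s) (y := y p)
      (Hb_Y hok hR hs (Finset.mem_image_of_mem _ (by simp)) (Finset.mem_image_of_mem _ (by simp)))
      (Hb_Y hok hR hp (Finset.mem_image_of_mem _ (by simp)) (Finset.mem_image_of_mem _ (by simp)))
    rw [Finset.sum_insert, Finset.sum_insert, Finset.sum_insert, Finset.sum_singleton] at h
    · rw [a1, a2, a3, a4, a5, a6, a7, a8] at h
      simp only [one_mul, mul_one, zero_mul, mul_zero, add_zero, zero_add] at h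
      rw [← h]
      abel
    · rw [Finset.mem_singleton]
      exact hk
    · rw [Finset.mem_insert, Finset.mem_singleton]
      rintro (e | e)
      · exact hpk' (congrArg Sp.q e)
      · exact hpk (congrArg Sp.q e)
    · rw [Finset.mem_insert, Finset.mem_insert, Finset.mem_singleton]
      rintro (e | e | e)
      · exact hps (congrArg Sp.q e).symm
      · exact hsk (congrArg Sp.q e)
      · exact hsk' (congrArg Sp.q e)

/-- The sum of two classes `y` with the same reference prime. -/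
lemma Hb_pair {D : K} (hok : S.Ok D Sg) {Tr : Finset (HeightOneSpectrum (𝓞 K))}
    {k : Sp S Sg → Sp S Sg} {y : Sp S Sg → SC L} (hR : RefD S Sg Tr k y) {p s : Sp S Sg}
    (hp : p.q ∉ Tr) (hs : s.q ∉ Tr) (hps : p.q ≠ s.q) (hk : k p = k s) :
    S.Y D Sg {p.q, s.q} (y p + y s) ∧ p.tr (y p + y s) = 1 ∧ s.tr (y p + y s) = 1 := by
  have hpk : p.q ≠ (k p).q := fun e => hp (e ▸ hR.kq p)
  have hpk' : p.q ≠ (k s).q := fun e => hp (e ▸ hR.kq s)
  have hsk : s.q ≠ (k s).q := fun e => hs (e ▸ hR.kq s)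
  have hsk' : s.q ≠ (k p).q := fun e => hs (e ▸ hR.kq p)
  have a3 : s.tr (y p) = 0 := Hb_tr0 hok hR hp (Ne.symm hps) hsk'
  have a4 : p.tr (y s) = 0 := Hb_tr0 hok hR hs hps hpk'
  have a6 : (k p).tr (y p) = 1 := hR.tr2 p hp
  have a5 : (k p).tr (y s) = 1 := by
    rw [hk]
    exact hR.tr2 s hs
  refine ⟨?_, ?_, ?_⟩
  · obtain ⟨W, -, hW⟩ := exists_YG S hok.ne Sg {p.q, s.q, (k p).q}
    have h1 : y p + y s ∈ W := W.add_mem
      ((hW _).2 (Hb_Y hok hR hp (by simp) (by simp)))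
      ((hW _).2 (Hb_Y hok hR hs (by simp) (by rw [← hk]; simp)))
    have h2 := (hW _).1 h1
    have h3 : (k p).tr (y p + y s) = 0 := by
      rw [(k p).tr_add, a6, a5, rg_two]
    refine ⟨h2.hh, h2.fin, h2.inf, fun w h4 h5 => ?_⟩
    by_cases h6 : dn K (dn K w) = (k p).q
    · exact ((k p).tr_zero hok.two h2.hh).1 h3 w h6
    · refine h2.ev w h4 fun h7 => ?_
      rw [Finset.mem_insert, Finset.mem_insert, Finset.mem_singleton] at h7
      rw [Finset.mem_insert, Finset.mem_singleton] at h5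
      rcases h7 with h7 | h7 | h7
      · exact h5 (Or.inl h7)
      · exact h5 (Or.inr h7)
      · exact h6 h7
  · rw [p.tr_add, hR.tr1 p hp, a4, add_zero]
  · rw [s.tr_add, hR.tr1 s hs, a3, zero_add]

/-- A chain of `n` pairs of special primes. -/
structure HbChain (S : Ext K K L a b θ) (D : K) (Sg Tr X : Finset (HeightOneSpectrum (𝓞 K)))
    (k : Sp S Sg → Sp S Sg) (y : Sp S Sg → SC L) (φ1 φ2 : SC L →+ ZMod 2) (n : ℕ)
    (p s : ℕ → Sp S Sg) : Prop where
  pX : ∀ i < n, (p i).q ∉ X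
  sX : ∀ i < n, (s i).q ∉ X
  pT : ∀ i < n, (p i).q ∉ Tr
  sT : ∀ i < n, (s i).q ∉ Tr
  ps : ∀ i < n, (p i).q ≠ (s i).q
  pV : ∀ i < n, ∀ c, S.V D c → (p i).fl c = S.el φ1 c
  sV : ∀ i < n, ∀ c, S.V D c → (s i).fl c = S.el φ2 c
  s0 : ∀ i < n, (s i).fl (y (p i)) = 0
  pp : ∀ i j, i < j → j < n → (p i).q ≠ (p j).q
  psj : ∀ i j, i < j → j < n → (p i).q ≠ (s j).q
  sp : ∀ i j, i < j → j < n → (s i).q ≠ (p j).q
  ss : ∀ i j, i < j → j < n → (s i).q ≠ (s j).q
  p0 : ∀ i j, i < j → j < n → (p j).fl (y (s i)) = 0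
  sj : ∀ i j, i < j → j < n →
    (s j).fl (y (p i)) = 1 + (k (s i)).fl (y (p i)) + (k (p i)).fl (y (s i))

lemma Hb_chain {D : K} (hok : S.Ok D Sg) {Tr : Finset (HeightOneSpectrum (𝓞 K))}
    {k : Sp S Sg → Sp S Sg} {y : Sp S Sg → SC L} (hR : RefD S Sg Tr k y)
    (X : Finset (HeightOneSpectrum (𝓞 K))) (φ1 φ2 : SC L →+ ZMod 2) (n : ℕ) :
    ∃ p s : ℕ → Sp S Sg, HbChain S D Sg Tr X k y φ1 φ2 n p s := by
  induction n with
  | zero =>
    obtain ⟨P, -⟩ := exists_next hok hR φ1 X ∅ (by simp) (by simp) 0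
    exact ⟨fun _ => P, fun _ => P, by constructor <;> intros <;> omega⟩
  | succ n ih =>
    obtain ⟨p, s, h⟩ := ih
    obtain ⟨T, hT⟩ : ∃ T : Finset (Sp S Sg), ∀ P, P ∈ T ↔ ∃ i < n, P = p i ∨ P = s i := by
      refine ⟨(Finset.range n).image p ∪ (Finset.range n).image s, fun P => ?_⟩
      rw [Finset.mem_union, Finset.mem_image, Finset.mem_image]
      constructor
      · rintro (⟨i, hi, e⟩ | ⟨i, hi, e⟩)
        · exact ⟨i, Finset.mem_range.1 hi, Or.inl e.symm⟩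
        · exact ⟨i, Finset.mem_range.1 hi, Or.inr e.symm⟩
      · rintro ⟨i, hi, e | e⟩
        · exact Or.inl ⟨i, Finset.mem_range.2 hi, e.symm⟩
        · exact Or.inr ⟨i, Finset.mem_range.2 hi, e.symm⟩
    have hTTr : ∀ P ∈ T, P.q ∉ Tr := by
      intro P hP
      obtain ⟨i, hi, e | e⟩ := (hT P).1 hP
      · rw [e]
        exact h.pT i hi
      · rw [e]
        exact h.sT i hi
    obtain ⟨p', q1, q2, q3, q4, q5⟩ := exists_next hok hR φ1 X T (fun P _ P' _ e => Sp_eq e) hTTr 0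
    obtain ⟨u, hu⟩ : ∃ u : Sp S Sg → RG (K ≃ₐ[K] K), u p' = 0 ∧ ∀ i < n,
        u (p i) = 1 + (k (s i)).fl (y (p i)) + (k (p i)).fl (y (s i)) := by
      refine ⟨fun P => if hh : ∃ i, i < n ∧ P = p i then
        1 + (k (s hh.choose)).fl (y P) + (k P).fl (y (s hh.choose)) else 0, ?_, ?_⟩
      · refine dif_neg ?_
        rintro ⟨i, hi, e⟩
        exact q3 (p i) ((hT _).2 ⟨i, hi, Or.inl rfl⟩) (congrArg Sp.q e).symm
      · intro i hi
        have hh : ∃ j, j < n ∧ p i = p j := ⟨i, hi, rfl⟩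
        have h1 : hh.choose = i := by
          obtain ⟨h2, h3⟩ := hh.choose_spec
          by_contra h4
          rcases lt_or_gt_of_ne h4 with h5 | h5
          · exact h.pp _ _ h5 hi (congrArg Sp.q h3).symm
          · exact h.pp _ _ h5 h2 (congrArg Sp.q h3)
        change (if hh : ∃ j, j < n ∧ p i = p j then
          1 + (k (s hh.choose)).fl (y (p i)) + (k (p i)).fl (y (s hh.choose)) else 0) = _
        rw [dif_pos hh, h1]
    obtain ⟨s', r1, r2, r3, r4, r5⟩ := exists_next hok hR φ2 X (insert p' T)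
      (fun P _ P' _ e => Sp_eq e) (by
        intro P hP
        rw [Finset.mem_insert] at hP
        rcases hP with e | hP
        · rw [e]
          exact q2
        · exact hTTr P hP) u
    have mp : ∀ i < n, p i ∈ T := fun i hi => (hT _).2 ⟨i, hi, Or.inl rfl⟩
    have ms : ∀ i < n, s i ∈ T := fun i hi => (hT _).2 ⟨i, hi, Or.inr rfl⟩
    have mp' : ∀ i < n, p i ∈ insert p' T := fun i hi => Finset.mem_insert_of_mem (mp i hi)
    have ms' : ∀ i < n, s i ∈ insert p' T := fun i hi => Finset.mem_insert_of_mem (ms i hi)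
    refine ⟨fun i => if i < n then p i else p', fun i => if i < n then s i else s', ?_⟩
    have e1 : ∀ i < n, (if i < n then p i else p') = p i := fun i hi => if_pos hi
    have e2 : ∀ i < n, (if i < n then s i else s') = s i := fun i hi => if_pos hi
    have e3 : (if n < n then p n else p') = p' := if_neg (lt_irrefl n)
    have e4 : (if n < n then s n else s') = s' := if_neg (lt_irrefl n)
    have c1 : ∀ Q : ℕ → Prop, (∀ i < n, Q i) → Q n → ∀ i < n + 1, Q i := by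
      intro Q h1 h2 i hi
      rcases Nat.lt_succ_iff_lt_or_eq.1 hi with h3 | h3
      · exact h1 i h3
      · rw [h3]
        exact h2
    have c2 : ∀ Q : ℕ → ℕ → Prop, (∀ i j, i < j → j < n → Q i j) → (∀ i < n, Q i n) →
        ∀ i j, i < j → j < n + 1 → Q i j := by
      intro Q h1 h2 i j hij hj
      rcases Nat.lt_succ_iff_lt_or_eq.1 hj with h3 | h3
      · exact h1 i j hij h3
      · rw [h3] at hij ⊢
        exact h2 i hij
    constructor
    · exact c1 _ (fun i hi => by rw [e1 i hi]; exact h.pX i hi) (by rw [e3]; exact q1)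
    · exact c1 _ (fun i hi => by rw [e2 i hi]; exact h.sX i hi) (by rw [e4]; exact r1)
    · exact c1 _ (fun i hi => by rw [e1 i hi]; exact h.pT i hi) (by rw [e3]; exact q2)
    · exact c1 _ (fun i hi => by rw [e2 i hi]; exact h.sT i hi) (by rw [e4]; exact r2)
    · exact c1 _ (fun i hi => by rw [e1 i hi, e2 i hi]; exact h.ps i hi) (by
        rw [e3, e4]; exact r3 _ (Finset.mem_insert_self _ _))
    · exact c1 _ (fun i hi => by rw [e1 i hi]; exact h.pV i hi) (by rw [e3]; exact q4)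
    · exact c1 _ (fun i hi => by rw [e2 i hi]; exact h.sV i hi) (by rw [e4]; exact r4)
    · exact c1 _ (fun i hi => by rw [e1 i hi, e2 i hi]; exact h.s0 i hi) (by
        rw [e3, e4, r5 _ (Finset.mem_insert_self _ _)]; exact hu.1)
    · exact c2 _ (fun i j hij hj => by
        rw [e1 i (hij.trans hj), e1 j hj]; exact h.pp i j hij hj) (fun i hi => by
        rw [e1 i hi, e3]; exact q3 _ (mp i hi))
    · exact c2 _ (fun i j hij hj => by
        rw [e1 i (hij.trans hj), e2 j hj]; exact h.psj i j hij hj) (fun i hi => by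
        rw [e1 i hi, e4]; exact r3 _ (mp' i hi))
    · exact c2 _ (fun i j hij hj => by
        rw [e2 i (hij.trans hj), e1 j hj]; exact h.sp i j hij hj) (fun i hi => by
        rw [e2 i hi, e3]; exact q3 _ (ms i hi))
    · exact c2 _ (fun i j hij hj => by
        rw [e2 i (hij.trans hj), e2 j hj]; exact h.ss i j hij hj) (fun i hi => by
        rw [e2 i hi, e4]; exact r3 _ (ms' i hi))
    · exact c2 _ (fun i j hij hj => by
        rw [e2 i (hij.trans hj), e1 j hj]; exact h.p0 i j hij hj) (fun i hi => by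
        rw [e2 i hi, e3]; exact q5 _ (ms i hi))
    · exact c2 _ (fun i j hij hj => by
        rw [e1 i (hij.trans hj), e2 i (hij.trans hj), e2 j hj]; exact h.sj i j hij hj)
        (fun i hi => by
        rw [e1 i hi, e2 i hi, e4, r5 _ (mp' i hi)]; exact hu.2 i hi)

theorem exists_quad {D : K} (hok : S.Ok D Sg) (φ1 φ2 : SC L →+ ZMod 2)
    (X : Finset (HeightOneSpectrum (𝓞 K))) :
    ∃ (p1 p2 s1 s2 : Sp S Sg) (f1 f2 : SC L) (δ δ' : K), QuadD S D Sg φ1 φ2 p1 p2 s1 s2 f1 f2 ∧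
      p1.q ∉ X ∧ p2.q ∉ X ∧ s1.q ∉ X ∧ s2.q ∉ X ∧
      Ray K (Sg : Set (HeightOneSpectrum (𝓞 K))) p1.q p2.q δ ∧
      Ray K (Sg : Set (HeightOneSpectrum (𝓞 K))) s1.q s2.q δ' := by
  obtain ⟨Tr, k, y, C, hC, col, hR, hcol⟩ := exists_ref S Sg hok.two
  obtain ⟨CK, hCK, rcK, hrc⟩ := exists_rc K Sg
  have _ : Finite (RG (K ≃ₐ[K] K)) := Hb_fin
  obtain ⟨uk, huk⟩ : ∃ uk : Sp S Sg → Tr → RG (K ≃ₐ[K] K), ∀ P P', uk P = uk P' →
      ∀ R : Sp S Sg, R.q ∈ Tr → R.fl (y P) = R.fl (y P') := by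
    refine ⟨fun P q => if h : ∃ R : Sp S Sg, R.q = q then h.choose.fl (y P) else 0, ?_⟩
    intro P P' h R hRq
    have h1 := congrFun h ⟨R.q, hRq⟩
    have hh : ∃ R' : Sp S Sg, R'.q = ((⟨R.q, hRq⟩ : Tr) : HeightOneSpectrum (𝓞 K)) := ⟨R, rfl⟩
    have h2 : hh.choose = R := Sp_eq hh.choose_spec
    change (if h : ∃ R' : Sp S Sg, R'.q = ((⟨R.q, hRq⟩ : Tr) : HeightOneSpectrum (𝓞 K)) then
      h.choose.fl (y P) else 0) = (if h : ∃ R' : Sp S Sg,
        R'.q = ((⟨R.q, hRq⟩ : Tr) : HeightOneSpectrum (𝓞 K)) then h.choose.fl (y P') else 0) at h1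
    rw [dif_pos hh, dif_pos hh, h2] at h1
    exact h1
  let co : Sp S Sg → C × CK × RG (K ≃ₐ[K] K) × (Tr → RG (K ≃ₐ[K] K)) := fun P =>
    (col P, rcK P.q, P.fl (y P), uk P)
  have _ : Fintype ((C × CK × RG (K ≃ₐ[K] K) × (Tr → RG (K ≃ₐ[K] K))) ×
    (C × CK × RG (K ≃ₐ[K] K) × (Tr → RG (K ≃ₐ[K] K)))) := Fintype.ofFinite _
  obtain ⟨N, hN⟩ : ∃ N : ℕ, Fintype.card ((C × CK × RG (K ≃ₐ[K] K) × (Tr → RG (K ≃ₐ[K] K))) ×
    (C × CK × RG (K ≃ₐ[K] K) × (Tr → RG (K ≃ₐ[K] K)))) < N := ⟨_, Nat.lt_succ_self _⟩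
  obtain ⟨p, s, h⟩ := Hb_chain hok hR X φ1 φ2 N
  obtain ⟨i, j, hij, hj, hco⟩ : ∃ i j, i < j ∧ j < N ∧ (co (p i), co (s i)) = (co (p j), co (s j)) := by
    obtain ⟨i, j, hne, he⟩ := Fintype.exists_ne_map_eq_of_card_lt
      (fun i : Fin N => (co (p i), co (s i))) (by rw [Fintype.card_fin]; exact hN)
    rcases lt_or_gt_of_ne hne with h1 | h1
    · exact ⟨i, j, h1, j.2, he⟩
    · exact ⟨j, i, h1, i.2, he.symm⟩
  have hi : i < N := hij.trans hj
  obtain ⟨hcp, hcs⟩ := Prod.mk.inj hco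
  obtain ⟨x1, x2⟩ := Prod.mk.inj hcp
  obtain ⟨x3, x4⟩ := Prod.mk.inj x2
  obtain ⟨x5, x6⟩ := Prod.mk.inj x4
  obtain ⟨z1, z2⟩ := Prod.mk.inj hcs
  obtain ⟨z3, z4⟩ := Prod.mk.inj z2
  obtain ⟨z5, z6⟩ := Prod.mk.inj z4
  have kp : k (p i) = k (p j) := hcol _ _ x1
  have ks : k (s i) = k (s j) := hcol _ _ z1
  obtain ⟨b1, b2, b3⟩ := Hb_pair hok hR (h.pT i hi) (h.pT j hj) (h.pp i j hij hj) kp
  obtain ⟨d1, d2, d3⟩ := Hb_pair hok hR (h.sT i hi) (h.sT j hj) (h.ss i j hij hj) ks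
  have g1 := Hb_rec hok hR (h.pT i hi) (h.pT j hj) (h.pp i j hij hj)
  have g2 := Hb_rec hok hR (h.pT j hj) (h.sT i hi) (Ne.symm (h.sp i j hij hj))
  have u1 : (k (p i)).fl (y (p i)) = (k (p i)).fl (y (p j)) := huk _ _ x6 _ (hR.kq _)
  have u2 : (k (s i)).fl (y (p i)) = (k (s i)).fl (y (p j)) := huk _ _ x6 _ (hR.kq _)
  obtain ⟨δ, hδ⟩ := hrc (p i).q (p j).q (p i).out (p j).out (h.pp i j hij hj) x3
  obtain ⟨δ', hδ'⟩ := hrc (s i).q (s j).q (s i).out (s j).out (h.ss i j hij hj) z3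
  refine ⟨p i, p j, s i, s j, y (p i) + y (p j), y (s i) + y (s j), δ, δ', ?_, h.pX i hi, h.pX j hj,
    h.sX i hi, h.sX j hj, hδ, hδ'⟩
  constructor
  · exact h.pp i j hij hj
  · exact h.ss i j hij hj
  · exact h.ps i hi
  · exact h.psj i j hij hj
  · exact Ne.symm (h.sp i j hij hj)
  · exact h.ps j hj
  · exact fun x hx => ⟨h.pV i hi x hx, h.pV j hj x hx⟩
  · exact fun x hx => ⟨h.sV i hi x hx, h.sV j hj x hx⟩
  · exact b1
  · exact d1
  · exact ⟨b2, b3⟩
  · exact ⟨d2, d3⟩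
  · rw [(p i).fl_add hok.two, (p j).fl_add hok.two]
    have e1 : (p i).fl (y (p i)) = (p j).fl (y (p j)) := x5
    rw [← kp, ← u1] at g1
    have e2 := rg_two ((p j).fl (y (p j)))
    have e3 := rg_two ((k (p i)).fl (y (p i)))
    rw [e1]
    have e4 : (p j).fl (y (p i)) + (p i).fl (y (p j)) = 0 := by
      rw [add_assoc, e3, add_zero] at g1
      exact g1
    calc (p j).fl (y (p j)) + (p i).fl (y (p j)) + ((p j).fl (y (p i)) + (p j).fl (y (p j))) =
        ((p j).fl (y (p i)) + (p i).fl (y (p j))) + ((p j).fl (y (p j)) + (p j).fl (y (p j))) := by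
          abel
      _ = 0 := by rw [e4, e2, add_zero]
  · rw [(s i).fl_add hok.two, (s j).fl_add hok.two, h.s0 i hi, h.s0 j hj, h.sj i j hij hj]
    rw [h.p0 i j hij hj, ← u2, ← kp, add_zero] at g2
    calc 0 + (s i).fl (y (p j)) + (1 + (k (s i)).fl (y (p i)) + (k (p i)).fl (y (s i)) + 0) =
        ((s i).fl (y (p j)) + (k (s i)).fl (y (p i)) + (k (p i)).fl (y (s i))) + 1 := by abel
      _ = 1 := by rw [g2, zero_add]

end H88OD
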