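import Pool.Agent.H88.OD.Hb
import Pool.Agent.H88.OD.Gk

/-!
Project MP_78d38b_OD: the step over the base field: the dimension drops by two (`F = K`).

PROOF. exists_quad; `ε := δ * δ'`, `T := {p1.q, p2.q, s1.q, s2.q}`. RayT K Sg T ε: `ord` of `ε` at `p1.q` is `1 + 0` etc. (`Ray.o1, o2, out`; `ord_mul`; `δ'` is a unit at `p1.q ≠ s1.q, s2.q`), `sq`, `pos` multiplicative.
`S.el φ x = 1` iff `φ x = 1`, `S.el φ x = 0` iff `φ x = 0` (the coefficient at `1` is `φ (S.ρ 1 • x)`, rg_ext, `G` has one element). Let `S.V (D * ε) z`. By stepT_Y `S.Y D Sg T z`, by stepT_fl all four `fl z = 0`. `a1 := p1.tr z, a2 := p2.tr z, a3 := s1.tr z, a4 := s2.tr z`. rec_fin with `{p1, p2, s1, s2}` (different by n12 .. n24), the pair `(z, x)` with `S.V D x` (`tr x = 0` by V_iff_Y and tr_zero): `(a1 + a2) * S.el φ1 x + (a3 + a4) * S.el φ2 x = 0`. With h1, h2: `a1 = a2`, `a3 = a4`.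
rec_fin for `(z, f1)`: `a1 * p1.fl f1 + a2 * p2.fl f1 + a3 * s1.fl f1 + a4 * s2.fl f1 = 0`, so `a1 * (p1.fl f1 + p2.fl f1) + a3 * (s1.fl f1 + s2.fl f1) = 0`, i.e. `a3 = 0` (g1, g2).
rec_fin for `(f1, f2)`: `p1.fl f2 + p2.fl f2 + s1.fl f1 + s2.fl f1 = 0` (tr of `f2` at `p1, p2` is zero, tr of `f1` at `s1, s2` is zero: y1, y2, tr_zero), so `p1.fl f2 + p2.fl f2 = 1`. rec_fin for `(z, f2)`: `a1 * (p1.fl f2 + p2.fl f2) + a3 * (..) = 0`, so `a1 = 0`.
So all `tr z = 0`, `z` is even above the four primes, `S.Y D Sg ∅ z`, `S.V D z` (V_iff_Y), `S.el φ1 z = p1.fl z = 0`, `S.el φ2 z = s1.fl z = 0`. Conversely stepT_mpr. `S.Ok (D * ε) (T ∪ Sg)` is OkT. `q := p1.q`.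
-/

set_option autoImplicit false
set_option linter.unusedSectionVars false
open scoped Classical

open WithZero NumberField IsDedekindDomain H38RT
open H38T1 (SC sc scu rep eo la si OddP)
open H76PP (Cub LC ev scm dn)

namespace H88OD

variable {K L : Type} [Field K] [NumberField K] [Field L]
  [NumberField L] [Algebra K L] {a b : K} {θ : L} {S : Ext K K L a b θ}
  {Sg : Finset (HeightOneSpectrum (𝓞 K))}

private theorem Hc_coeff (S : Ext K K L a b θ) (φ : SC L →+ ZMod 2) (x : SC L) (g : K ≃ₐ[K] K) :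
    (S.el φ x).coeff g = φ x := by
  have h : g⁻¹ = 1 := Subsingleton.elim _ _
  unfold Ext.el
  rw [coeff_mk, h, map_one, one_smul]

private theorem Hc_el0 {φ : SC L →+ ZMod 2} {x : SC L} (h : φ x = 0) : S.el φ x = 0 := by
  refine rg_ext fun g => ?_
  rw [Hc_coeff, h]
  rfl

private theorem Hc_el1 {φ : SC L →+ ZMod 2} {x : SC L} (h : φ x = 1) : S.el φ x = 1 := by
  refine rg_ext fun g => ?_
  have hg : g = 1 := Subsingleton.elim _ _
  have h1 : (1 : RG (K ≃ₐ[K] K)) = MonoidAlgebra.single 1 1 := rfl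
  rw [Hc_coeff, h, h1, hg, MonoidAlgebra.coeff_single, Finsupp.single_eq_same]

private theorem Hc_of_el {φ : SC L →+ ZMod 2} {x : SC L} (h : S.el φ x = 0) : φ x = 0 := by
  rw [← Hc_coeff S φ x 1, h]
  rfl

private theorem Hc_ord {v : HeightOneSpectrum (𝓞 K)} {x : K} (h : v.valuation K x = 1) :
    ord (v.valuation K) x = 0 := by
  unfold ord
  rw [h, log_one, neg_zero]

private theorem Hc_eq {G : Type} [Group G] {x y : RG G} (h : x + y = 0) : x = y := by
  have h2 := rg_two y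
  calc x = x + (y + y) := by rw [h2, add_zero]
    _ = (x + y) + y := by rw [add_assoc]
    _ = y := by rw [h, zero_add]

private theorem Hc_ray {p1 p2 s1 s2 : HeightOneSpectrum (𝓞 K)} {δ δ' : K}
    (n13 : p1 ≠ s1) (n14 : p1 ≠ s2) (n23 : p2 ≠ s1) (n24 : p2 ≠ s2)
    (r : Ray K (Sg : Set (HeightOneSpectrum (𝓞 K))) p1 p2 δ)
    (r' : Ray K (Sg : Set (HeightOneSpectrum (𝓞 K))) s1 s2 δ') :
    RayT K Sg {p1, p2, s1, s2} (δ * δ') := by
  refine ⟨mul_ne_zero r.ne r'.ne, ?_, ?_, ?_, ?_⟩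
  · intro q hq
    rw [Finset.mem_insert, Finset.mem_insert, Finset.mem_insert, Finset.mem_singleton] at hq
    rw [ord_mul r.ne r'.ne]
    rcases hq with h | h | h | h
    · rw [h, r.o1, Hc_ord (r'.out _ n13 n14)]
      decide
    · rw [h, r.o2, Hc_ord (r'.out _ n23 n24)]
      decide
    · rw [h, r'.o1, Hc_ord (r.out _ n13.symm n23.symm)]
      decide
    · rw [h, r'.o2, Hc_ord (r.out _ n14.symm n24.symm)]
      decide
  · intro u hu
    rw [Finset.mem_insert, Finset.mem_insert, Finset.mem_insert, Finset.mem_singleton] at hu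
    push Not at hu
    rw [map_mul, r.out u hu.1 hu.2.1, r'.out u hu.2.2.1 hu.2.2.2, one_mul]
  · intro u hu
    rw [map_mul]
    exact (r.sq u hu).mul (r'.sq u hu)
  · intro s
    rw [map_mul]
    exact mul_pos (r.pos s) (r'.pos s)

private theorem Hc_rec {D : K} (hok : S.Ok D Sg) {p1 p2 s1 s2 : Sp S Sg} (n12 : p1.q ≠ p2.q)
    (n34 : s1.q ≠ s2.q) (n13 : p1.q ≠ s1.q) (n14 : p1.q ≠ s2.q) (n23 : p2.q ≠ s1.q)
    (n24 : p2.q ≠ s2.q) {x y : SC L} (hx : S.Y D Sg {p1.q, p2.q, s1.q, s2.q} x)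
    (hy : S.Y D Sg {p1.q, p2.q, s1.q, s2.q} y) :
    (p1.tr x * p1.fl y + p1.fl x * p1.tr y) + ((p2.tr x * p2.fl y + p2.fl x * p2.tr y) +
      ((s1.tr x * s1.fl y + s1.fl x * s1.tr y) + (s2.tr x * s2.fl y + s2.fl x * s2.tr y))) = 0 := by
  have e : (({p1, p2, s1, s2} : Finset (Sp S Sg)).image Sp.q) = {p1.q, p2.q, s1.q, s2.q} := by
    rw [Finset.image_insert, Finset.image_insert, Finset.image_insert, Finset.image_singleton]
  have h := rec_fin hok {p1, p2, s1, s2} (x := x) (y := y) (by rw [e]; exact hx)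
    (by rw [e]; exact hy)
  rw [Finset.sum_insert, Finset.sum_insert, Finset.sum_insert, Finset.sum_singleton] at h
  · exact h
  · rw [Finset.mem_singleton]
    intro h'
    exact n34 (by rw [h'])
  · rw [Finset.mem_insert, Finset.mem_singleton]
    rintro (h' | h')
    · exact n23 (by rw [h'])
    · exact n24 (by rw [h'])
  · rw [Finset.mem_insert, Finset.mem_insert, Finset.mem_singleton]
    rintro (h' | h' | h')
    · exact n12 (by rw [h'])
    · exact n13 (by rw [h'])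
    · exact n14 (by rw [h'])

private theorem Hc_tr {D : K} (hok : S.Ok D Sg) {T : Finset (HeightOneSpectrum (𝓞 K))}
    {x : SC L} (hx : S.Y D Sg T x) (P : Sp S Sg) (hP : P.q ∉ T) : P.tr x = 0 := by
  refine (P.tr_zero hok.two hx.hh).2 fun w hw => hx.ev w ?_ ?_
  · rw [hw]
    exact P.out
  · rw [hw]
    exact hP

theorem step_even {D : K} (hok : S.Ok D Sg) (φ1 φ2 : SC L →+ ZMod 2)
    (h1 : ∃ x, S.V D x ∧ φ1 x = 1 ∧ φ2 x = 0) (h2 : ∃ x, S.V D x ∧ φ1 x = 0 ∧ φ2 x = 1) :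
    ∃ (T : Finset (HeightOneSpectrum (𝓞 K))) (ε : K), RayT K Sg T ε ∧ S.Ok (D * ε) (T ∪ Sg) ∧
      ∀ c, S.V (D * ε) c ↔ S.V D c ∧ φ1 c = 0 ∧ φ2 c = 0 := by
  obtain ⟨p1, p2, s1, s2, f1, f2, δ, δ', Q, -, -, -, -, r, r'⟩ := exists_quad hok φ1 φ2 ∅
  have hR := Hc_ray Q.n13 Q.n14 Q.n23 Q.n24 r r'
  refine ⟨{p1.q, p2.q, s1.q, s2.q}, δ * δ', hR, OkT hok hR, fun z => ⟨fun hz => ?_, ?_⟩⟩
  · have hT1 : p1.q ∈ ({p1.q, p2.q, s1.q, s2.q} : Finset (HeightOneSpectrum (𝓞 K))) := by simp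
    have hT2 : p2.q ∈ ({p1.q, p2.q, s1.q, s2.q} : Finset (HeightOneSpectrum (𝓞 K))) := by simp
    have hT3 : s1.q ∈ ({p1.q, p2.q, s1.q, s2.q} : Finset (HeightOneSpectrum (𝓞 K))) := by simp
    have hT4 : s2.q ∈ ({p1.q, p2.q, s1.q, s2.q} : Finset (HeightOneSpectrum (𝓞 K))) := by simp
    have hY := stepT_Y hok hR hz
    have z1 := stepT_fl hok hR hz p1 hT1
    have z2 := stepT_fl hok hR hz p2 hT2
    have z3 := stepT_fl hok hR hz s1 hT3
    have z4 := stepT_fl hok hR hz s2 hT4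
    have key : ∀ y, S.Y D Sg {p1.q, p2.q, s1.q, s2.q} y →
        p1.tr z * p1.fl y + (p2.tr z * p2.fl y + (s1.tr z * s1.fl y + s2.tr z * s2.fl y)) = 0 := by
      intro y hy
      have h := Hc_rec hok Q.n12 Q.n34 Q.n13 Q.n14 Q.n23 Q.n24 hY hy
      rwa [z1, z2, z3, z4, zero_mul, zero_mul, zero_mul, zero_mul, add_zero, add_zero, add_zero,
        add_zero] at h
    have hyV : ∀ x, S.V D x → S.Y D Sg {p1.q, p2.q, s1.q, s2.q} x := fun x hx =>
      Y_mono (Finset.empty_subset _) ((V_iff_Y S hok).1 hx)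
    have hyf1 : S.Y D Sg {p1.q, p2.q, s1.q, s2.q} f1 := by
      refine Y_mono ?_ Q.y1
      intro q hq
      rw [Finset.mem_insert, Finset.mem_singleton] at hq
      rcases hq with h | h
      · rw [h]; exact hT1
      · rw [h]; exact hT2
    have hyf2 : S.Y D Sg {p1.q, p2.q, s1.q, s2.q} f2 := by
      refine Y_mono ?_ Q.y2
      intro q hq
      rw [Finset.mem_insert, Finset.mem_singleton] at hq
      rcases hq with h | h
      · rw [h]; exact hT3
      · rw [h]; exact hT4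
    have e12 : p1.tr z = p2.tr z := by
      obtain ⟨x, hx, hx1, hx2⟩ := h1
      have h := key x (hyV x hx)
      rw [(Q.v1 x hx).1, (Q.v1 x hx).2, (Q.v2 x hx).1, (Q.v2 x hx).2, Hc_el1 hx1, Hc_el0 hx2,
        mul_one, mul_one, mul_zero, mul_zero, add_zero, add_zero] at h
      exact Hc_eq h
    have e34 : s1.tr z = s2.tr z := by
      obtain ⟨x, hx, hx1, hx2⟩ := h2
      have h := key x (hyV x hx)
      rw [(Q.v1 x hx).1, (Q.v1 x hx).2, (Q.v2 x hx).1, (Q.v2 x hx).2, Hc_el0 hx1, Hc_el1 hx2,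
        mul_one, mul_one, mul_zero, mul_zero, zero_add, zero_add] at h
      exact Hc_eq h
    have key2 : ∀ y, S.Y D Sg {p1.q, p2.q, s1.q, s2.q} y →
        p1.tr z * (p1.fl y + p2.fl y) + s1.tr z * (s1.fl y + s2.fl y) = 0 := by
      intro y hy
      have h := key y hy
      rw [← e12, ← e34, ← add_assoc, ← mul_add, ← mul_add] at h
      exact h
    have a3 : s1.tr z = 0 := by
      have h := key2 f1 hyf1
      rwa [Q.g1, Q.g2, mul_zero, zero_add, mul_one] at h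
    have hf : p1.fl f2 + p2.fl f2 = 1 := by
      have m1 : p1.q ∉ ({s1.q, s2.q} : Finset (HeightOneSpectrum (𝓞 K))) := by
        rw [Finset.mem_insert, Finset.mem_singleton]
        rintro (h | h)
        · exact Q.n13 h
        · exact Q.n14 h
      have m2 : p2.q ∉ ({s1.q, s2.q} : Finset (HeightOneSpectrum (𝓞 K))) := by
        rw [Finset.mem_insert, Finset.mem_singleton]
        rintro (h | h)
        · exact Q.n23 h
        · exact Q.n24 h
      have m3 : s1.q ∉ ({p1.q, p2.q} : Finset (HeightOneSpectrum (𝓞 K))) := by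
        rw [Finset.mem_insert, Finset.mem_singleton]
        rintro (h | h)
        · exact Q.n13 h.symm
        · exact Q.n23 h.symm
      have m4 : s2.q ∉ ({p1.q, p2.q} : Finset (HeightOneSpectrum (𝓞 K))) := by
        rw [Finset.mem_insert, Finset.mem_singleton]
        rintro (h | h)
        · exact Q.n14 h.symm
        · exact Q.n24 h.symm
      have h := Hc_rec hok Q.n12 Q.n34 Q.n13 Q.n14 Q.n23 Q.n24 hyf1 hyf2
      rw [Q.t1.1, Q.t1.2, Q.t2.1, Q.t2.2, Hc_tr hok Q.y2 p1 m1, Hc_tr hok Q.y2 p2 m2,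
        Hc_tr hok Q.y1 s1 m3, Hc_tr hok Q.y1 s2 m4, one_mul, one_mul, mul_zero, mul_zero,
        zero_mul, zero_mul, mul_one, mul_one, add_zero, add_zero, zero_add, zero_add, Q.g2,
        ← add_assoc] at h
      exact Hc_eq h
    have a1 : p1.tr z = 0 := by
      have h := key2 f2 hyf2
      rwa [hf, a3, zero_mul, add_zero, mul_one] at h
    have a2 : p2.tr z = 0 := by rw [← e12, a1]
    have a4 : s2.tr z = 0 := by rw [← e34, a3]
    have hV : S.V D z := by
      refine (V_iff_Y S hok).2 ⟨hY.hh, hY.fin, hY.inf, fun w hw _ => ?_⟩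
      by_cases hT : dn K (dn K w) ∈ ({p1.q, p2.q, s1.q, s2.q} : Finset (HeightOneSpectrum (𝓞 K)))
      · rw [Finset.mem_insert, Finset.mem_insert, Finset.mem_insert, Finset.mem_singleton] at hT
        rcases hT with h | h | h | h
        · exact (p1.tr_zero hok.two hY.hh).1 a1 w h
        · exact (p2.tr_zero hok.two hY.hh).1 a2 w h
        · exact (s1.tr_zero hok.two hY.hh).1 a3 w h
        · exact (s2.tr_zero hok.two hY.hh).1 a4 w h
      · exact hY.ev w hw hT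
    refine ⟨hV, Hc_of_el (S := S) ?_, Hc_of_el (S := S) ?_⟩
    · rw [← (Q.v1 z hV).1, z1]
    · rw [← (Q.v2 z hV).1, z3]
  · rintro ⟨hV, hz1, hz2⟩
    refine stepT_mpr hok hR hV fun q hq => ?_
    rw [Finset.mem_insert, Finset.mem_insert, Finset.mem_insert, Finset.mem_singleton] at hq
    rcases hq with h | h | h | h
    · exact ⟨p1, h.symm, by rw [(Q.v1 z hV).1, Hc_el0 hz1]⟩
    · exact ⟨p2, h.symm, by rw [(Q.v1 z hV).2, Hc_el0 hz1]⟩
    · exact ⟨s1, h.symm, by rw [(Q.v2 z hV).1, Hc_el0 hz2]⟩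
    · exact ⟨s2, h.symm, by rw [(Q.v2 z hV).2, Hc_el0 hz2]⟩

end H88OD
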