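import Pool.Agent.H24.PD.Sc
import Pool.Agent.H30.ZO.Je
import Pool.Agent.H30.ZO.Df

/-!
ROW Sa (project MP_78d38b_OD, about 250 lines): the two-Selmer group by cocycles and by classes.

`KRel a b θ f x`: the cocycle `f` with values in the points of order two corresponds to the element `x` of `L`.
krel_of_sl: the first part of the proof of `H24PD.sc` (Pool/Agent/H24/PD/Sc.lean; copy the private lemmas Sc_one, Sc_cub, Sc_prod, Sc_th, Sc_mv, Sc_act under new names): `Sc_one` gives `r, δ`; `δ = ev θ d`; `H24PD.lr` gives the local conditions.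
sl_of_krel: `H30ZO.exists_coc` (Pool/Agent/H30/ZO/Ja.lean) and `H30ZO.locTriv` (Pool/Agent/H30/ZO/Jc.lean); `f σ + f σ = 0`.
krel_iff: `h := f - g`, `r_h φ := r_f φ * r_g φ`: `σ (r_h φ) = wp (mv σ φ θ) (h σ) * r_h (mv σ φ)` because `wp` is additive on the points killed by two (`wp_add`, `f σ - g σ = f σ + g σ`) and `r_h φ ^ 2 = φ (x y)`. (⟹) `x y = z^2`: `H24PD.sq_family` and `Sc_two` (private in Sc.lean, copy) give `T` with `T + T = 0`, `h σ = act σ T - T`.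
(⟸) as in the second half of `H30ZO.sq_of_cob` (Pool/Agent/H30/ZO/Jd.lean): the function `φ ↦ wp (φ θ) T * r_h φ` is equivariant, so (`H24PD.fd`) it is `φ z` for an element `z` of `L`, and `φ (x y) = r_h φ ^ 2 = φ (z ^ 2)`.
-/

set_option autoImplicit false
set_option linter.unusedSectionVars false
open scoped Classical

open WeierstrassCurve NumberField IsDedekindDomain Pool.Agent.H10 H76PP H24PD
open H73IS (Sl)

namespace H88OD

/-- The Kummer relation between a cocycle of points of order two and an element of the cubic field. -/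
def KRel {K L : Type} [Field K] [NumberField K] [Field L] [NumberField L] [Algebra K L] (a b : K)
    (θ : L) (f : Coch K (⟨0, 0, 0, a, b⟩ : WeierstrassCurve K)) (x : L) : Prop :=
  ∃ r : (L →ₐ[K] AlgebraicClosure K) → AlgebraicClosure K, (∀ φ, r φ ≠ 0) ∧
    (∀ σ φ, σ (r φ) = ((wp (mv σ φ θ) (f σ) : ℤ) : AlgebraicClosure K) * r (mv σ φ)) ∧
    ∀ φ, r φ ^ 2 = φ x

section

variable {K L : Type} [Field K] [Field L] [Algebra K L] {V : WeierstrassCurve K} {θ : L}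

private theorem Sa_act (σ : AlgebraicClosure K ≃ₐ[K] AlgebraicClosure K)
    {P : (V.baseChange (AlgebraicClosure K)).toAffine.Point} (hP : P + P = 0) :
    act (inv_bc K V) σ P + act (inv_bc K V) σ P = 0 := by
  rw [← map_add, hP, map_zero]

private theorem Sa_mv (σ : AlgebraicClosure K ≃ₐ[K] AlgebraicClosure K)
    (φ : L →ₐ[K] AlgebraicClosure K) (P : (V.baseChange (AlgebraicClosure K)).toAffine.Point) :
    wp (mv σ φ θ) (act (inv_bc K V) σ P) = wp (φ θ) P :=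
  wp_pm (σ : AlgebraicClosure K →+* AlgebraicClosure K) (inv_bc K V σ) (φ θ) P

private theorem Sa_prod [Fintype (L →ₐ[K] AlgebraicClosure K)]
    {φ₁ φ₂ φ₃ : L →ₐ[K] AlgebraicClosure K} (h12 : φ₁ ≠ φ₂) (h13 : φ₁ ≠ φ₃) (h23 : φ₂ ≠ φ₃)
    (hall : ∀ φ, φ = φ₁ ∨ φ = φ₂ ∨ φ = φ₃) (F : (L →ₐ[K] AlgebraicClosure K) → ℤˣ) :
    ∏ φ, F φ = F φ₁ * F φ₂ * F φ₃ := by
  have huniv : (Finset.univ : Finset (L →ₐ[K] AlgebraicClosure K)) = {φ₁, φ₂, φ₃} := by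
    ext φ
    simp only [Finset.mem_univ, Finset.mem_insert, Finset.mem_singleton, true_iff]
    exact hall φ
  rw [huniv, Finset.prod_insert, Finset.prod_insert, Finset.prod_singleton, mul_assoc]
  · simp only [Finset.mem_singleton]
    exact h23
  · simp only [Finset.mem_insert, Finset.mem_singleton, not_or]
    exact ⟨h12, h13⟩

private theorem Sa_th {φ₁ φ₂ φ₃ : L →ₐ[K] AlgebraicClosure K}
    (hall : ∀ φ, φ = φ₁ ∨ φ = φ₂ ∨ φ = φ₃) (φ : L →ₐ[K] AlgebraicClosure K) :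
    φ θ = φ₁ θ ∨ φ θ = φ₂ θ ∨ φ θ = φ₃ θ := by
  rcases hall φ with h | h | h
  · exact Or.inl (by rw [h])
  · exact Or.inr (Or.inl (by rw [h]))
  · exact Or.inr (Or.inr (by rw [h]))

private theorem Sa_one [CharZero K] [FiniteDimensional K L] {φ₁ φ₂ φ₃ : L →ₐ[K] AlgebraicClosure K}
    (h12 : φ₁ ≠ φ₂) (h13 : φ₁ ≠ φ₃) (h23 : φ₂ ≠ φ₃) (hall : ∀ φ, φ = φ₁ ∨ φ = φ₂ ∨ φ = φ₃)
    (hE : IsCub (V.baseChange (AlgebraicClosure K)) (φ₁ θ) (φ₂ θ) (φ₃ θ)) {f : Coch K V}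
    (hcoc : IsCoc (inv_bc K V) f) (hfa : ∀ σ, f σ + f σ = 0) :
    ∃ (r : (L →ₐ[K] AlgebraicClosure K) → AlgebraicClosure K) (δ : L), (∀ φ, r φ ≠ 0) ∧
      (∀ (σ : AlgebraicClosure K ≃ₐ[K] AlgebraicClosure K) (φ : L →ₐ[K] AlgebraicClosure K),
        σ (r φ) = ((wp (mv σ φ θ) (f σ) : ℤ) : AlgebraicClosure K) * r (mv σ φ)) ∧
      (∀ φ, r φ ^ 2 = φ δ) ∧ δ ≠ 0 ∧ IsSquare (Algebra.norm K δ) := by
  refine sd (K := K) (L := L) (Ω := AlgebraicClosure K) (fun σ φ => wp (φ θ) (f σ))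
    (fun φ => hcoc.1.comp (wp (φ θ))) (fun σ τ φ => ?_) (fun σ => ?_)
  · rw [hcoc.2 σ τ, wp_add hE (Sa_th hall _) (hfa σ) (Sa_act σ (hfa τ)), Sa_mv]
  · rw [Sa_prod h12 h13 h23 hall]
    exact wp_prod hE (hfa σ)

private theorem Sa_two [FiniteDimensional K L] {φ₁ φ₂ φ₃ : L →ₐ[K] AlgebraicClosure K}
    (h12 : φ₁ ≠ φ₂) (h13 : φ₁ ≠ φ₃) (h23 : φ₂ ≠ φ₃) (hall : ∀ φ, φ = φ₁ ∨ φ = φ₂ ∨ φ = φ₃)
    (hE : IsCub (V.baseChange (AlgebraicClosure K)) (φ₁ θ) (φ₂ θ) (φ₃ θ)) {f : Coch K V}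
    (hfa : ∀ σ, f σ + f σ = 0) {ε : (L →ₐ[K] AlgebraicClosure K) → ℤˣ} (hε1 : ∏ φ, ε φ = 1)
    (hε2 : ∀ (σ : AlgebraicClosure K ≃ₐ[K] AlgebraicClosure K) (φ : L →ₐ[K] AlgebraicClosure K),
      wp (mv σ φ θ) (f σ) = ε φ * ε (mv σ φ)) :
    ∃ S : (V.baseChange (AlgebraicClosure K)).toAffine.Point,
      S + S = 0 ∧ ∀ σ, f σ = act (inv_bc K V) σ S - S := by
  rw [Sa_prod h12 h13 h23 hall] at hε1
  obtain ⟨S, hS2, s1, s2, s3⟩ := wp_ex hE hε1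
  have hwS : ∀ φ : L →ₐ[K] AlgebraicClosure K, wp (φ θ) S = ε φ := by
    intro φ
    rcases hall φ with h | h | h
    · rw [h, s1]
    · rw [h, s2]
    · rw [h, s3]
  refine ⟨S, hS2, fun σ => ?_⟩
  have hneg : -S = S := neg_eq_of_add_eq_zero_right hS2
  rw [sub_eq_add_neg, hneg]
  have key : ∀ φ' : L →ₐ[K] AlgebraicClosure K, wp (φ' θ) (f σ) =
      wp (φ' θ) (act (inv_bc K V) σ S + S) := by
    intro φ'
    have h1 : mv σ (mv σ⁻¹ φ') = φ' := by rw [← mv_mul, mul_inv_cancel, mv_one]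
    have h2 := hε2 σ (mv σ⁻¹ φ')
    have h3 := Sa_mv (V := V) (θ := θ) σ (mv σ⁻¹ φ') S
    rw [h1] at h2 h3
    rw [wp_add hE (Sa_th hall φ') (Sa_act σ hS2) hS2, h3, hwS, hwS]
    exact h2
  have h2t : (act (inv_bc K V) σ S + S) + (act (inv_bc K V) σ S + S) = 0 := by
    rw [add_add_add_comm, Sa_act σ hS2, hS2, add_zero]
  exact wp_ext hE (hfa σ) h2t (key φ₁) (key φ₂) (key φ₃)

end

private theorem Sa_cub {K L : Type} [Field K] [NumberField K] [Field L] [Algebra K L] {a b : K}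
    {θ : L} (hL : Cub K L a b θ) {φ₁ φ₂ φ₃ : L →ₐ[K] AlgebraicClosure K}
    (h12 : φ₁ ≠ φ₂) (h13 : φ₁ ≠ φ₃) (h23 : φ₂ ≠ φ₃) :
    IsCub ((⟨0, 0, 0, a, b⟩ : WeierstrassCurve K).baseChange (AlgebraicClosure K))
      (φ₁ θ) (φ₂ θ) (φ₃ θ) :=
  isCub_of (a := algebraMap K (AlgebraicClosure K) a) (b := algebraMap K (AlgebraicClosure K) b)
    (map_zero (algebraMap K (AlgebraicClosure K))) (map_zero (algebraMap K (AlgebraicClosure K)))
    (map_zero (algebraMap K (AlgebraicClosure K))) rfl rfl two_ne_zero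
    (emb_root hL φ₁) (emb_root hL φ₂) (emb_root hL φ₃) (fun h => h12 (emb_ext hL h))
    (fun h => h13 (emb_ext hL h)) (fun h => h23 (emb_ext hL h))

variable {K L : Type} [Field K] [NumberField K] [Field L] [NumberField L] [Algebra K L] {a b : K}
  {θ : L}

theorem krel_of_sl (hL : Cub K L a b θ) {f : Coch K (⟨0, 0, 0, a, b⟩ : WeierstrassCurve K)}
    (hf : Sl K (⟨0, 0, 0, a, b⟩ : WeierstrassCurve K) f) :
    ∃ d : Fin 3 → K, ev θ d ≠ 0 ∧ IsSquare (Algebra.norm K (ev θ d)) ∧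
      (∀ v : HeightOneSpectrum (𝓞 K), LC (algebraMap K (v.adicCompletion K)) a b d) ∧
      (∀ s : K →+* ℝ, LC s a b d) ∧ KRel a b θ f (ev θ d) := by
  obtain ⟨hfd, hfr⟩ := fin3 hL
  have hfd' : FiniteDimensional K L := hfd
  obtain ⟨φ₁, φ₂, φ₃, h12, h13, h23, hall⟩ := emb3 (Ω := AlgebraicClosure K) hL
  have hE := Sa_cub hL h12 h13 h23
  obtain ⟨r, δ, hr, he, hd, hδ, hsq⟩ := Sa_one h12 h13 h23 hall hE ((isCocycle_iff f).1 hf.1) hf.2.2
  obtain ⟨c₀, c₁, c₂, hδe⟩ := hL.sp δ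
  have hev : ev θ ![c₀, c₁, c₂] = δ := hδe.symm
  have hd' : ∀ φ : L →ₐ[K] AlgebraicClosure K, r φ ^ 2 = φ (ev θ ![c₀, c₁, c₂]) := by
    intro φ
    rw [hev, hd]
  obtain ⟨l1, l2⟩ := lr hL hf.1 hf.2.1 hf.2.2 hr he hd'
  exact ⟨![c₀, c₁, c₂], by rw [hev]; exact hδ, by rw [hev]; exact hsq, l1, l2, r, hr, he, hd'⟩

theorem sl_of_krel (hL : Cub K L a b θ) {d : Fin 3 → K} (hd : ev θ d ≠ 0)
    (hn : IsSquare (Algebra.norm K (ev θ d)))
    (hf : ∀ v : HeightOneSpectrum (𝓞 K), LC (algebraMap K (v.adicCompletion K)) a b d)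
    (hr : ∀ s : K →+* ℝ, LC s a b d) :
    ∃ f : Coch K (⟨0, 0, 0, a, b⟩ : WeierstrassCurve K),
      Sl K (⟨0, 0, 0, a, b⟩ : WeierstrassCurve K) f ∧ KRel a b θ f (ev θ d) := by
  obtain ⟨f, r, hc, h2, hr0, he, hd'⟩ := H30ZO.exists_coc hL hd hn
  exact ⟨f, ⟨hc, H30ZO.locTriv hL hc h2 hr0 he hd' hf hr, h2⟩, r, hr0, he, hd'⟩

private theorem Sa_act_map (σ : AlgebraicClosure K ≃ₐ[K] AlgebraicClosure K)
    (X : ((⟨0, 0, 0, a, b⟩ : WeierstrassCurve K).baseChange (AlgebraicClosure K)).toAffine.Point) :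
    (WeierstrassCurve.Affine.Point.map σ.toAlgHom :
      ((⟨0, 0, 0, a, b⟩ : WeierstrassCurve K).baseChange (AlgebraicClosure K)).toAffine.Point →+
        ((⟨0, 0, 0, a, b⟩ : WeierstrassCurve K).baseChange
          (AlgebraicClosure K)).toAffine.Point) X =
      act (inv_bc K (⟨0, 0, 0, a, b⟩ : WeierstrassCurve K)) σ X := by
  rw [map_eq_pm]
  rfl

theorem krel_iff (hL : Cub K L a b θ) {f g : Coch K (⟨0, 0, 0, a, b⟩ : WeierstrassCurve K)}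
    (hf : Sl K (⟨0, 0, 0, a, b⟩ : WeierstrassCurve K) f)
    (hg : Sl K (⟨0, 0, 0, a, b⟩ : WeierstrassCurve K) g) {x y : L} (hx : x ≠ 0) (hy : y ≠ 0)
    (h1 : KRel a b θ f x) (h2 : KRel a b θ g y) :
    IsSquare (x * y) ↔
      ∃ T : ((⟨0, 0, 0, a, b⟩ : WeierstrassCurve K).baseChange (AlgebraicClosure K)).toAffine.Point,
        T + T = 0 ∧ ∀ σ : AlgebraicClosure K ≃ₐ[K] AlgebraicClosure K,
          f σ - g σ = (WeierstrassCurve.Affine.Point.map σ.toAlgHom :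
            ((⟨0, 0, 0, a, b⟩ : WeierstrassCurve K).baseChange (AlgebraicClosure K)).toAffine.Point →+
              ((⟨0, 0, 0, a, b⟩ : WeierstrassCurve K).baseChange
                (AlgebraicClosure K)).toAffine.Point) T - T := by
  obtain ⟨hfd, hfr⟩ := fin3 hL
  have hfd' : FiniteDimensional K L := hfd
  obtain ⟨φ₁, φ₂, φ₃, h12, h13, h23, hall⟩ := emb3 (Ω := AlgebraicClosure K) hL
  have hE := Sa_cub hL h12 h13 h23
  obtain ⟨rf, hrf, hef, hdf⟩ := h1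
  obtain ⟨rg, hrg, heg, hdg⟩ := h2
  obtain ⟨h, hh⟩ : ∃ h : Coch K (⟨0, 0, 0, a, b⟩ : WeierstrassCurve K),
      h = fun σ => f σ - g σ := ⟨_, rfl⟩
  have hhσ : ∀ σ, h σ = f σ - g σ := fun σ => by rw [hh]
  have hadd : ∀ σ, h σ = f σ + g σ := by
    intro σ
    rw [hhσ, sub_eq_add_neg, neg_eq_of_add_eq_zero_right (hg.2.2 σ)]
  have hh2 : ∀ σ, h σ + h σ = 0 := by
    intro σ
    rw [hadd, add_add_add_comm, hf.2.2, hg.2.2, add_zero]
  have hsq : ∀ u : ℤˣ, ((u : ℤ) : AlgebraicClosure K) * ((u : ℤ) : AlgebraicClosure K) = 1 := by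
    intro u
    rw [← Int.cast_mul, ← Units.val_mul, Int.units_mul_self, Units.val_one, Int.cast_one]
  obtain ⟨r, hr⟩ : ∃ r : (L →ₐ[K] AlgebraicClosure K) → AlgebraicClosure K,
      r = fun φ => rf φ * rg φ := ⟨_, rfl⟩
  have hr0 : ∀ φ, r φ ≠ 0 := fun φ => by
    rw [hr]
    exact mul_ne_zero (hrf φ) (hrg φ)
  have hre : ∀ σ φ, σ (r φ) = ((wp (mv σ φ θ) (h σ) : ℤ) : AlgebraicClosure K) * r (mv σ φ) := by
    intro σ φ
    rw [hr, hadd, wp_add hE (Sa_th hall _) (hf.2.2 σ) (hg.2.2 σ)]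
    show σ (rf φ * rg φ) = _
    rw [map_mul, hef, heg, Units.val_mul, Int.cast_mul]
    ring
  have hrd : ∀ φ : L →ₐ[K] AlgebraicClosure K, r φ ^ 2 = φ (x * y) := by
    intro φ
    rw [hr, map_mul, ← hdf, ← hdg]
    show (rf φ * rg φ) ^ 2 = _
    ring
  constructor
  · intro hs
    obtain ⟨ε, hε1, hε2⟩ := sq_family (K := K) (L := L) (Ω := AlgebraicClosure K)
      (c := fun σ φ => wp (φ θ) (h σ)) (by rw [hfr]; decide) hr0 hre hrd hs
    obtain ⟨T, hT, hT2⟩ := Sa_two h12 h13 h23 hall hE hh2 hε1 hε2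
    refine ⟨T, hT, fun σ => ?_⟩
    rw [Sa_act_map, ← hT2, hhσ]
  · rintro ⟨T, hTT, hT⟩
    have hTf : ∀ σ, act (inv_bc K (⟨0, 0, 0, a, b⟩ : WeierstrassCurve K)) σ T = h σ + T := by
      intro σ
      rw [hhσ, hT, Sa_act_map, sub_add_cancel]
    have hw : ∀ σ φ, wp (φ θ) T = wp (mv σ φ θ) (h σ) * wp (mv σ φ θ) T := by
      intro σ φ
      rw [← wp_add hE (Sa_th hall _) (hh2 σ) hTT, ← hTf σ]
      exact (Sa_mv σ φ T).symm
    obtain ⟨z, hz⟩ := H24PD.fd (K := K) (L := L) (Ω := AlgebraicClosure K)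
      (fun φ => ((wp (φ θ) T : ℤ) : AlgebraicClosure K) * r φ) (by
        intro σ φ
        rw [map_mul, map_intCast, hre, hw σ φ, Units.val_mul, Int.cast_mul]
        have h3 := hsq (wp (mv σ φ θ) (h σ))
        linear_combination (((wp (mv σ φ θ) T : ℤ) : AlgebraicClosure K) * r (mv σ φ)) * h3) φ₁
    refine ⟨z, ?_⟩
    apply φ₁.toRingHom.injective
    show φ₁ (x * y) = φ₁ (z * z)
    rw [← hrd φ₁, map_mul φ₁ z z, ← hz φ₁]
    have h3 := hsq (wp (φ₁ θ) T)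
    linear_combination (-(r φ₁ ^ 2)) * h3

end H88OD
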